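import Pool.Agent.Lib.MP_9fa4ca_an.ORD

/-!
# Module ARE: the case `b = -1`
-/

set_option autoImplicit false

open Set Topology Filter MeasureTheory

namespace Pool.Agent.Lib.MP9fa4ca

namespace AREAux

open ORDAux

theorem shift {v : ℝ × ℝ → ℤ} (h : ∀ w, v (T w) = v w) (w : ℝ × ℝ) (k : ℤ) :
    v (w.1 + k, w.2) = v w := by
  induction k using Int.induction_on with
  | zero => simp
  | succ n ih =>
    have := h (w.1 + n, w.2)
    simp only [T_apply] at this
    push_cast at ih ⊢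
    rw [← add_assoc, this]
    exact ih
  | pred n ih =>
    have := h (w.1 + (-n - 1), w.2)
    simp only [T_apply] at this
    push_cast at ih ⊢
    rw [← this, ← ih]
    congr 2
    ring

theorem core {A : Set ℂ} (Q : Ann A) (hb : Bornology.IsBounded A)
    {θ : ℝ × ℝ → ℝ} (hθ : Cut θ) (F : ℝ × ℝ ≃ₜ ℝ × ℝ) (hFT : ∀ w, F (T w) = T.symm (F w))
    (f : ℂ ≃ₜ ℂ) (hFP : ∀ w, Q.P (F w) = f (Q.P w))
    (hvol : ∀ U : Set ℂ, IsOpen U → volume (f '' U) = volume U)
    (hpos : ∀ w, 0 ≤ θ w → 0 < θ (F (F w))) : False := by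
  have hFT' : ∀ w, F (T.symm w) = T (F w) := fun w => by
    have := hFT (T.symm w)
    rw [Homeomorph.apply_symm_apply] at this
    rw [this, Homeomorph.apply_symm_apply]
  have hFsT : ∀ w, F.symm (T w) = T.symm (F.symm w) := fun w => by
    apply F.injective
    rw [Homeomorph.apply_symm_apply, hFT', Homeomorph.apply_symm_apply]
  have hGT : ∀ w, F (F (T w)) = T (F (F w)) := fun w => by rw [hFT, hFT']
  have hpos' : ∀ (w : ℝ × ℝ) (n : ℤ), (n : ℝ) ≤ θ w → (n : ℝ) < θ (F (F w)) := by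
    intro w n hn
    have h1 := iter hθ.eqv w (-n)
    have h2 := iterG (G := fun w => F (F w)) hGT w (-n)
    have h3 := iter hθ.eqv (F (F w)) (-n)
    have h4 := hpos (w.1 + ((-n : ℤ) : ℝ), w.2) (by rw [h1]; push_cast; linarith)
    rw [h2, h3] at h4
    push_cast at h4
    linarith
  let N : ℝ × ℝ → ℤ := fun w => ⌈θ w⌉
  have hNT : ∀ w, N (T w) = N w + 1 := fun w => by
    simp only [N]
    rw [hθ.eqv, Int.ceil_add_one]
  have hNT' : ∀ w, N (T.symm w) = N w - 1 := fun w => by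
    have := hNT (T.symm w)
    rw [Homeomorph.apply_symm_apply] at this
    omega
  have hNG : ∀ w, N w ≤ N (F (F w)) := by
    intro w
    have h1 : ((⌈θ w⌉ - 1 : ℤ) : ℝ) ≤ θ w := by
      push_cast
      have := Int.ceil_lt_add_one (θ w)
      linarith
    have h2 := hpos' w _ h1
    have h3 : ((⌈θ w⌉ - 1 : ℤ) : ℝ) < ⌈θ (F (F w))⌉ := h2.trans_le (Int.le_ceil _)
    have h4 : ⌈θ w⌉ - 1 < ⌈θ (F (F w))⌉ := by exact_mod_cast h3
    show ⌈θ w⌉ ≤ ⌈θ (F (F w))⌉
    omega
  let v : ℝ × ℝ → ℤ := fun w => N w + N (F.symm w)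
  have hvT : ∀ w, v (T w) = v w := fun w => by
    simp only [v]
    rw [hNT, hFsT, hNT']
    ring
  have hvG : ∀ w, v w + (N (F (F w)) - N w) ≤ v (F (F w)) := fun w => by
    have h1 := hNG (F.symm w)
    rw [Homeomorph.apply_symm_apply] at h1
    show N w + N (F.symm w) + (N (F (F w)) - N w) ≤ N (F (F w)) + N (F.symm (F (F w)))
    rw [Homeomorph.symm_apply_apply]
    omega
  have hvG' : ∀ w, v w ≤ v (F (F w)) := fun w => by
    have h1 := hvG w
    have h2 := hNG w
    omega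
  have hNo : ∀ i : ℤ, IsOpen {w | i ≤ N w} := by
    intro i
    have : {w | i ≤ N w} = {w | ((i - 1 : ℤ) : ℝ) < θ w} := by
      ext w
      show i ≤ ⌈θ w⌉ ↔ ((i - 1 : ℤ) : ℝ) < θ w
      rw [← Int.sub_one_lt_iff, Int.lt_ceil]
    rw [this]
    exact isOpen_lt continuous_const hθ.cont
  have hvo : ∀ c : ℤ, IsOpen {w | c ≤ v w} := by
    intro c
    have : {w | c ≤ v w} = ⋃ i : ℤ, {w | i ≤ N w} ∩ F.symm ⁻¹' {w | c - i ≤ N w} := by
      ext w
      simp only [mem_iUnion, mem_inter_iff, mem_preimage]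
      constructor
      · intro h
        refine ⟨N w, le_refl (N w), ?_⟩
        show c - N w ≤ N (F.symm w)
        have : c ≤ N w + N (F.symm w) := h
        omega
      · rintro ⟨i, h1, h2⟩
        have h1' : i ≤ N w := h1
        have h2' : c - i ≤ N (F.symm w) := h2
        show c ≤ N w + N (F.symm w)
        omega
    rw [this]
    exact isOpen_iUnion fun i => (hNo i).inter ((hNo _).preimage F.symm.continuous)
  -- the open set on which `N` increases
  have hGc : Continuous fun w => θ (F (F w)) := hθ.cont.comp (F.continuous.comp F.continuous)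
  have hWo : IsOpen {w | θ w < 0 ∧ 0 < θ (F (F w))} :=
    (isOpen_lt hθ.cont continuous_const).inter (isOpen_lt continuous_const hGc)
  obtain ⟨z₀, hz₀⟩ := ORDAux.exists_zero hθ
  have hWne : {w | θ w < 0 ∧ 0 < θ (F (F w))}.Nonempty := by
    by_contra hemp
    rw [not_nonempty_iff_eq_empty] at hemp
    have h1 : {w | θ w < 0} ⊆ {w | θ (F (F w)) ≤ 0} := by
      intro w hw
      by_contra h
      have : w ∈ {w | θ w < 0 ∧ 0 < θ (F (F w))} := ⟨hw, not_le.1 h⟩
      rw [hemp] at this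
      exact this
    have h2 : closure {w | θ w < 0} ⊆ {w | θ (F (F w)) ≤ 0} :=
      closure_minimal h1 (isClosed_le hGc continuous_const)
    have h3 : closure {w | θ w < 0} ⊆ {w | θ w ≤ 0} :=
      closure_minimal (fun w hw => le_of_lt (show θ w < 0 from hw))
        (isClosed_le hθ.cont continuous_const)
    have h4 : IsClosed {w | θ w < 0} := by
      refine isClosed_of_closure_subset fun w hw => ?_
      have h5 : θ w ≤ 0 := h3 hw
      have h6 : θ (F (F w)) ≤ 0 := h2 hw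
      refine lt_of_le_of_ne h5 fun h => ?_
      exact absurd (hpos w (ge_of_eq h)) (not_lt.2 h6)
    rcases isClopen_iff.1 ⟨h4, isOpen_lt hθ.cont continuous_const⟩ with h5 | h5
    · have h6 : T.symm z₀ ∈ {w | θ w < 0} := by
        have h7 := hθ.eqv (T.symm z₀)
        rw [Homeomorph.apply_symm_apply, hz₀] at h7
        show θ (T.symm z₀) < 0
        linarith
      rw [h5] at h6
      exact h6
    · have h6 : z₀ ∈ {w | θ w < 0} := by rw [h5]; trivial
      have h7 : θ z₀ < 0 := h6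
      linarith
  obtain ⟨w₀, hw₀⟩ := hWne
  -- a ball on which `v` is bounded
  obtain ⟨O, hOo, hOW, hw₀O, M, hM⟩ : ∃ O : Set (ℝ × ℝ), IsOpen O ∧
      O ⊆ {w | θ w < 0 ∧ 0 < θ (F (F w))} ∧ w₀ ∈ O ∧ ∃ M : ℤ, ∀ w ∈ O, v w ≤ M := by
    refine ⟨{w | θ w < 0 ∧ 0 < θ (F (F w))} ∩ {w | θ (F.symm w) < θ (F.symm w₀) + 1},
      hWo.inter (isOpen_lt (hθ.cont.comp F.symm.continuous) continuous_const), inter_subset_left,
      ⟨hw₀, by show θ (F.symm w₀) < θ (F.symm w₀) + 1; linarith⟩,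
      0 + ⌈θ (F.symm w₀) + 1⌉, fun w hw => ?_⟩
    have h1 : N w ≤ 0 := Int.ceil_le.2 (by push_cast; exact hw.1.1.le)
    have h2 : N (F.symm w) ≤ ⌈θ (F.symm w₀) + 1⌉ := Int.ceil_le_ceil (le_of_lt hw.2)
    exact add_le_add h1 h2
  obtain ⟨c, ⟨w₁, hw₁O, hw₁⟩, hcmax⟩ := Int.exists_greatest_of_bdd
    (P := fun c => ∃ w ∈ O, v w = c) ⟨M, by rintro _ ⟨w, hw, rfl⟩; exact hM w hw⟩
    ⟨v w₀, w₀, hw₀O, rfl⟩
  -- the two sets
  set W : Set (ℝ × ℝ) := O ∩ {w | c ≤ v w} with hW
  have hWo' : IsOpen W := hOo.inter (hvo c)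
  have hWv : ∀ w ∈ W, v w = c := fun w hw => le_antisymm (hcmax _ ⟨w, hw.1, rfl⟩) hw.2
  set V : Set ℂ := Q.P '' {w | c + 1 ≤ v w} with hV
  have hVo : IsOpen V := Q.opn _ (hvo _)
  have hPWo : IsOpen (Q.P '' W) := Q.opn _ hWo'
  have hVA : V ⊆ A := by
    rintro _ ⟨w, -, rfl⟩
    exact Q.mem w
  have hVfin : volume V ≠ ⊤ := (hb.subset hVA).measure_lt_top.ne
  have hff : ∀ w, f (f (Q.P w)) = Q.P (F (F w)) := fun w => by rw [hFP, hFP]
  have hsub : f '' (f '' V) ∪ f '' (f '' (Q.P '' W)) ⊆ V := by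
    rintro _ (⟨_, ⟨_, ⟨w, hw, rfl⟩, rfl⟩, rfl⟩ | ⟨_, ⟨_, ⟨w, hw, rfl⟩, rfl⟩, rfl⟩)
    · rw [hff]
      exact ⟨_, le_trans hw (hvG' w), rfl⟩
    · rw [hff]
      refine ⟨_, ?_, rfl⟩
      show c + 1 ≤ v (F (F w))
      have h1 := hvG w
      have h2 := hWv w hw
      have h3 := hOW hw.1
      have h4 : N w ≤ 0 := Int.ceil_le.2 (by push_cast; exact h3.1.le)
      have h5 : 0 < N (F (F w)) := Int.ceil_pos.2 h3.2
      omega
  have hdisj : Disjoint V (Q.P '' W) := by
    rw [Set.disjoint_left]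
    rintro _ ⟨w, hw, rfl⟩ ⟨w', hw', he⟩
    obtain ⟨k, hk⟩ := Q.inj _ _ he
    have h1 : v w = v w' := by rw [hk, shift hvT]
    have h2 := hWv w' hw'
    have h3 : c + 1 ≤ v w := hw
    omega
  have hdisj' : Disjoint (f '' (f '' V)) (f '' (f '' (Q.P '' W))) :=
    (Set.disjoint_image_iff f.injective).2 ((Set.disjoint_image_iff f.injective).2 hdisj)
  have hop : ∀ U : Set ℂ, IsOpen U → IsOpen (f '' U) := fun U hU => f.isOpenMap U hU
  have h1 : volume (f '' (f '' V)) = volume V := by rw [hvol _ (hop _ hVo), hvol _ hVo]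
  have h2 : volume (f '' (f '' (Q.P '' W))) = volume (Q.P '' W) := by
    rw [hvol _ (hop _ hPWo), hvol _ hPWo]
  have h3 := measure_mono (μ := (volume : Measure ℂ)) hsub
  rw [measure_union hdisj' (hop _ (hop _ hPWo)).measurableSet, h1, h2] at h3
  have h4 : 0 < volume (Q.P '' W) :=
    hPWo.measure_pos volume ⟨_, w₁, ⟨hw₁O, hw₁.ge⟩, rfl⟩
  exact absurd h3 (not_le.2 (ENNReal.lt_add_right hVfin h4.ne'))

end AREAux

open AREAux in
theorem specAre (hOrd : SpecOrd) : SpecAre := by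
  intro A Q _ hb θ hθ F hFT f hFP hvol
  by_contra hcon
  push Not at hcon
  have hFT' : ∀ w, F (T.symm w) = T (F w) := fun w => by
    have := hFT (T.symm w)
    rw [Homeomorph.apply_symm_apply] at this
    rw [this, Homeomorph.apply_symm_apply]
  rcases hOrd θ hθ (F.trans F) (fun w => by
    simp only [Homeomorph.trans_apply]
    rw [hFT, hFT']) (fun w hw => by
    have := hcon w hw 0
    simpa using this) with h | h
  · exact core Q hb hθ F hFT f hFP hvol (fun w hw => h w hw)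
  · refine core Q hb hθ F.symm (fun w => ?_) f.symm (fun w => ?_) (fun U hU => ?_) (fun w hw => ?_)
    · apply F.injective
      rw [Homeomorph.apply_symm_apply, hFT', Homeomorph.apply_symm_apply]
    · apply f.injective
      rw [← hFP, Homeomorph.apply_symm_apply, Homeomorph.apply_symm_apply]
    · have h1 := hvol (f.symm '' U) (f.symm.isOpenMap U hU)
      rw [← h1]
      congr 1
      rw [image_image]
      simp
    · by_contra hc
      have h1 : θ (F.symm (F.symm w)) ≤ 0 := not_lt.1 hc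
      have h2 : θ (F (F (F.symm (F.symm w)))) < 0 := h _ h1
      rw [Homeomorph.apply_symm_apply, Homeomorph.apply_symm_apply] at h2
      linarith

end Pool.Agent.Lib.MP9fa4ca
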