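import Mathlib

section
/-!
# MP_9fa4ca_an : continuous logarithms, the universal cover of a plane annulus
-/
set_option autoImplicit false

open Set Topology Filter Complex

namespace Pool.Agent.Lib.MP9fa4ca

/-- A continuous real function with integer values on a preconnected space is constant. -/
theorem int_const {X : Type*} [TopologicalSpace X] [PreconnectedSpace X] [Nonempty X]
    (g : X → ℝ) (hg : Continuous g) (h : ∀ x, ∃ n : ℤ, g x = n) : ∃ n : ℤ, ∀ x, g x = n := by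
  obtain ⟨x₀⟩ : Nonempty X := inferInstance
  obtain ⟨n, hn⟩ := h x₀
  refine ⟨n, fun x => ?_⟩
  by_contra hne
  obtain ⟨m, hm⟩ := h x
  have hmn : m ≠ n := by
    rintro rfl
    exact hne hm
  have hpre : IsPreconnected (range g) := by
    rw [← image_univ]
    exact isPreconnected_univ.image _ hg.continuousOn
  have hord : (range g).OrdConnected := hpre.ordConnected
  have key : ∀ c : ℤ, ∀ y ∈ range g, ∀ y' ∈ range g, y = c → (c : ℝ) + 1 ≤ y' → False := by
    intro c y hy y' hy' hyc hc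
    have : (c : ℝ) + 1 / 2 ∈ range g := hord.out hy hy' ⟨by rw [hyc]; linarith, by linarith⟩
    obtain ⟨z, hz⟩ := this
    obtain ⟨k, hk⟩ := h z
    rw [hk] at hz
    have h2 : (2 * k : ℤ) = 2 * c + 1 := by
      have : (2 : ℝ) * k = 2 * c + 1 := by linarith
      exact_mod_cast this
    omega
  rcases lt_or_gt_of_ne hmn with hlt | hlt
  · exact key m (g x) ⟨x, rfl⟩ (g x₀) ⟨x₀, rfl⟩ hm (by rw [hn]; exact_mod_cast hlt)
  · exact key n (g x₀) ⟨x₀, rfl⟩ (g x) ⟨x, rfl⟩ hn (by rw [hm]; exact_mod_cast hlt)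

theorem exists_log {X : Type*} [TopologicalSpace X] [SimplyConnectedSpace X]
    [LocallyPathConnectedSpace X] (φ : X → ℂ) (hφ : Continuous φ) (h0 : ∀ x, φ x ≠ 0) :
    ∃ L : X → ℂ, Continuous L ∧ ∀ x, exp (L x) = φ x := by
  obtain ⟨x₀⟩ : Nonempty X := inferInstance
  obtain ⟨F, ⟨h1, h2⟩, -⟩ := Complex.isCoveringMapOn_exp.existsUnique_continuousMap_lifts
    (⟨φ, hφ⟩ : C(X, ℂ)) (a₀ := x₀) (e₀ := Complex.log (φ x₀))
    (by simp [Complex.exp_log (h0 x₀)]) (fun a => by simpa using h0 a)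
  exact ⟨F, F.continuous, fun x => congrFun h2 x⟩

theorem two_pi_I_ne : (2 * (Real.pi : ℂ) * I) ≠ 0 := by
  simp [Real.pi_ne_zero]

theorem log_unique {X : Type*} [TopologicalSpace X] [PreconnectedSpace X] [Nonempty X]
    (L M : X → ℂ) (hL : Continuous L) (hM : Continuous M) (h : ∀ x, exp (L x) = exp (M x)) :
    ∃ k : ℤ, ∀ x, L x = M x + k * (2 * Real.pi * I) := by
  have h1 : ∀ x, ∃ n : ℤ, L x = M x + n * (2 * Real.pi * I) := fun x =>
    Complex.exp_eq_exp_iff_exists_int.1 (h x)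
  have h2 : ∀ x, ∃ n : ℤ, ((L x - M x) / (2 * Real.pi * I)).re = n := by
    intro x
    obtain ⟨n, hn⟩ := h1 x
    refine ⟨n, ?_⟩
    rw [hn, add_sub_cancel_left, mul_div_assoc, div_self two_pi_I_ne, mul_one]
    simp
  obtain ⟨k, hk⟩ := int_const (fun x => ((L x - M x) / (2 * Real.pi * I)).re)
    (by fun_prop) h2
  refine ⟨k, fun x => ?_⟩
  obtain ⟨n, hn⟩ := h1 x
  have := hk x
  rw [hn, add_sub_cancel_left, mul_div_assoc, div_self two_pi_I_ne, mul_one] at this
  have h3 : n = k := by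
    have : (n : ℝ) = k := by simpa using this
    exact_mod_cast this
  rw [hn, h3]

theorem log_unique_on {V : Type*} [TopologicalSpace V] {S : Set V} (hS : IsPreconnected S)
    (hne : S.Nonempty) (L M : V → ℂ) (hL : ContinuousOn L S) (hM : ContinuousOn M S)
    (h : ∀ x ∈ S, exp (L x) = exp (M x)) :
    ∃ k : ℤ, ∀ x ∈ S, L x = M x + k * (2 * Real.pi * I) := by
  have : PreconnectedSpace S := isPreconnected_iff_preconnectedSpace.1 hS
  have : Nonempty S := hne.to_subtype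
  obtain ⟨k, hk⟩ := log_unique (X := S) (fun x => L x) (fun x => M x)
    (continuousOn_iff_continuous_domRestrict.1 hL) (continuousOn_iff_continuous_domRestrict.1 hM)
    (fun x => h x x.2)
  exact ⟨k, fun x hx => hk ⟨x, hx⟩⟩

theorem exists_log_on {V : Type*} [NormedAddCommGroup V] [NormedSpace ℝ V] {S : Set V}
    (hS : Convex ℝ S) (hSo : IsOpen S) (hne : S.Nonempty) (φ : V → ℂ) (hφ : ContinuousOn φ S)
    (h0 : ∀ x ∈ S, φ x ≠ 0) :
    ∃ L : V → ℂ, ContinuousOn L S ∧ ∀ x ∈ S, exp (L x) = φ x := by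
  classical
  have : ContractibleSpace S := hS.contractibleSpace hne
  have : LocallyPathConnectedSpace S := hSo.locallyPathConnectedSpace
  obtain ⟨L, hL, h⟩ := exists_log (X := S) (fun x => φ x)
    (continuousOn_iff_continuous_domRestrict.1 hφ) (fun x => h0 x x.2)
  refine ⟨fun x => if hx : x ∈ S then L ⟨x, hx⟩ else 0, ?_, fun x hx => ?_⟩
  · rw [continuousOn_iff_continuous_domRestrict]
    convert hL using 1
    ext x
    simp
  · simp only [hx, dif_pos]
    exact h ⟨x, hx⟩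

/-- lifts through `x ↦ exp (2 π i x)` -/
theorem exists_circle_lift {X : Type*} [TopologicalSpace X] [SimplyConnectedSpace X]
    [LocallyPathConnectedSpace X] (φ : X → Circle) (hφ : Continuous φ) (x₀ : X) (r₀ : ℝ)
    (h0 : Circle.exp (2 * Real.pi * r₀) = φ x₀) :
    ∃ L : X → ℝ, Continuous L ∧ L x₀ = r₀ ∧ ∀ x, Circle.exp (2 * Real.pi * L x) = φ x := by
  obtain ⟨F, ⟨h1, h2⟩, -⟩ := Circle.isCoveringMap_exp.existsUnique_continuousMap_lifts
    (⟨φ, hφ⟩ : C(X, Circle)) x₀ (2 * Real.pi * r₀) h0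
  have hpi : (2 * Real.pi) ≠ 0 := by positivity
  refine ⟨fun x => F x / (2 * Real.pi), by fun_prop, ?_, fun x => ?_⟩
  · simp only [h1]
    field_simp
  · rw [mul_div_cancel₀ _ hpi]
    exact congrFun h2 x

/-- a homeomorphism of the line onto the open unit interval -/
noncomputable def kap : ℝ ≃ₜ ↥(Ioo (0 : ℝ) 1) where
  toFun s := ⟨(1 + Real.exp (-s))⁻¹, by
    have := Real.exp_pos (-s)
    constructor
    · positivity
    · rw [inv_lt_one₀ (by positivity)]
      linarith⟩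
  invFun t := -Real.log ((t : ℝ)⁻¹ - 1)
  left_inv s := by
    simp
  right_inv t := by
    obtain ⟨t, ht0, ht1⟩ := t
    have h1 : 0 < t⁻¹ - 1 := by
      have : 1 < t⁻¹ := (one_lt_inv₀ ht0).2 ht1
      linarith
    apply Subtype.ext
    simp only [neg_neg]
    rw [Real.exp_log h1]
    simp
  continuous_toFun := by
    refine Continuous.subtype_mk ?_ _
    refine Continuous.inv₀ (by fun_prop) fun s => ?_
    have := Real.exp_pos (-s)
    positivity
  continuous_invFun := by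
    refine Continuous.neg (Continuous.log ?_ ?_)
    · refine Continuous.sub (Continuous.inv₀ continuous_subtype_val fun t => ?_) continuous_const
      exact (t.2.1).ne'
    · intro t
      have : 1 < (t : ℝ)⁻¹ := (one_lt_inv₀ t.2.1).2 t.2.2
      exact (by linarith : (0 : ℝ) < (t : ℝ)⁻¹ - 1).ne'

end Pool.Agent.Lib.MP9fa4ca
end

section
/-!
# MP_9fa4ca_an : the universal cover of a plane annulus, degrees
-/
set_option autoImplicit false

open Set Topology Filter Complex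

namespace Pool.Agent.Lib.MP9fa4ca

/-- the deck transformation -/
def T : ℝ × ℝ ≃ₜ ℝ × ℝ where
  toFun w := (w.1 + 1, w.2)
  invFun w := (w.1 - 1, w.2)
  left_inv w := by simp
  right_inv w := by simp
  continuous_toFun := by fun_prop
  continuous_invFun := by fun_prop

@[simp] theorem T_apply (w : ℝ × ℝ) : T w = (w.1 + 1, w.2) := rfl

/-- The universal cover of an open plane annulus `A`. -/
structure Ann (A : Set ℂ) where
  P : ℝ × ℝ → ℂ
  tau : ℂ → ℝ
  cP : Continuous P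
  mem : ∀ w, P w ∈ A
  surj : ∀ z ∈ A, ∃ w, P w = z
  inj : ∀ w w', P w = P w' → ∃ k : ℤ, w' = (w.1 + k, w.2)
  per : ∀ w, P (T w) = P w
  opn : IsOpenMap P
  ctau : ContinuousOn tau A
  htau : ∀ w, tau (P w) = w.2
  lift : ∀ (X : Type) [TopologicalSpace X] [SimplyConnectedSpace X]
    [LocallyPathConnectedSpace X] (φ : X → ℂ), Continuous φ → (∀ x, φ x ∈ A) → ∀ x₀ v₀,
    P v₀ = φ x₀ → ∃ F : X → ℝ × ℝ, Continuous F ∧ F x₀ = v₀ ∧ ∀ x, P (F x) = φ x

theorem exists_ann {A : Set ℂ} (hA : IsOpen A) (e : ↥A ≃ₜ (Circle × ↥(Ioo (0 : ℝ) 1))) :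
    ∃ Q : Ann A, ∀ w (h : Q.P w ∈ A), (e ⟨Q.P w, h⟩).1 = Circle.exp (2 * Real.pi * w.1) := by
  classical
  have hpi : (2 * Real.pi) ≠ 0 := by positivity
  let P : ℝ × ℝ → ℂ := fun w => (e.symm (Circle.exp (2 * Real.pi * w.1), kap w.2) : ℂ)
  have hmem : ∀ w, P w ∈ A := fun w => (e.symm (Circle.exp (2 * Real.pi * w.1), kap w.2)).2
  have heP : ∀ w (h : P w ∈ A), e ⟨P w, h⟩ = (Circle.exp (2 * Real.pi * w.1), kap w.2) := by
    intro w h
    have : (⟨P w, h⟩ : A) = e.symm (Circle.exp (2 * Real.pi * w.1), kap w.2) := rfl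
    rw [this, Homeomorph.apply_symm_apply]
  have hPe : ∀ w (z : A), e z = (Circle.exp (2 * Real.pi * w.1), kap w.2) → P w = z := by
    intro w z hz
    have : z = e.symm (Circle.exp (2 * Real.pi * w.1), kap w.2) := by
      rw [← hz, Homeomorph.symm_apply_apply]
    rw [this]
  have hcP : Continuous P := by
    have h1 : Continuous fun w : ℝ × ℝ => ((Circle.exp (2 * Real.pi * w.1), kap w.2) :
        Circle × ↥(Ioo (0 : ℝ) 1)) := by
      refine Continuous.prodMk ?_ ?_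
      · exact Circle.exp.continuous.comp (by fun_prop)
      · exact kap.continuous.comp continuous_snd
    exact continuous_subtype_val.comp (e.symm.continuous.comp h1)
  refine ⟨{
    P := P
    tau := fun z => if h : z ∈ A then kap.symm (e ⟨z, h⟩).2 else 0
    cP := hcP
    mem := hmem
    surj := ?_
    inj := ?_
    per := ?_
    opn := ?_
    ctau := ?_
    htau := ?_
    lift := ?_ }, fun w h => by rw [heP]⟩
  · intro z hz
    refine ⟨((((e ⟨z, hz⟩).1 : Circle) : ℂ).arg / (2 * Real.pi), kap.symm (e ⟨z, hz⟩).2), ?_⟩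
    refine hPe _ ⟨z, hz⟩ ?_
    simp only [Homeomorph.apply_symm_apply]
    rw [mul_div_cancel₀ _ hpi, Circle.exp_arg]
  · intro w w' h
    have h1 := heP w (hmem w)
    have h2 := heP w' (hmem w')
    have h3 : (⟨P w, hmem w⟩ : A) = ⟨P w', hmem w'⟩ := Subtype.ext h
    rw [h3, h2] at h1
    have h4 := congrArg Prod.fst h1
    have h5 := congrArg Prod.snd h1
    simp only at h4 h5
    obtain ⟨m, hm⟩ := Circle.exp_eq_exp.1 h4
    refine ⟨m, Prod.ext ?_ (kap.injective h5)⟩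
    have : 2 * Real.pi * (w'.1 - (w.1 + m)) = 0 := by linarith
    rcases mul_eq_zero.1 this with h | h
    · exact absurd h hpi
    · simp only
      linarith
  · intro w
    refine hPe _ ⟨P w, hmem w⟩ ?_
    rw [heP]
    simp only [T_apply]
    rw [mul_add, mul_one, Circle.exp_add_two_pi]
  · have h1 : IsOpenMap fun x : ℝ => Circle.exp (2 * Real.pi * x) :=
      Circle.isCoveringMap_exp.isLocalHomeomorph.isOpenMap.comp
        (Homeomorph.mulLeft₀ (2 * Real.pi) hpi).isOpenMap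
    have h2 : IsOpenMap fun w : ℝ × ℝ => ((Circle.exp (2 * Real.pi * w.1), kap w.2) :
        Circle × ↥(Ioo (0 : ℝ) 1)) := h1.prodMap kap.isOpenMap
    exact hA.isOpenMap_subtype_val.comp (e.symm.isOpenMap.comp h2)
  · rw [continuousOn_iff_continuous_domRestrict]
    have : (A.domRestrict fun z => if h : z ∈ A then kap.symm (e ⟨z, h⟩).2 else 0) =
        fun z : A => kap.symm (e z).2 := by
      ext z
      simp
    rw [this]
    exact kap.symm.continuous.comp (continuous_snd.comp e.continuous)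
  · intro w
    simp only [hmem w, dif_pos]
    rw [heP]
    simp
  · intro X _ _ _ φ hφ hφA x₀ v₀ hv
    have hφ' : Continuous fun x => (⟨φ x, hφA x⟩ : A) := hφ.subtype_mk _
    have hev : e ⟨φ x₀, hφA x₀⟩ = (Circle.exp (2 * Real.pi * v₀.1), kap v₀.2) := by
      rw [← heP v₀ (hmem v₀)]
      congr 1
      exact Subtype.ext hv.symm
    obtain ⟨L, hL, hL0, hLe⟩ := exists_circle_lift (fun x => (e ⟨φ x, hφA x⟩).1)
      (continuous_fst.comp (e.continuous.comp hφ')) x₀ v₀.1 (by rw [hev])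
    refine ⟨fun x => (L x, kap.symm (e ⟨φ x, hφA x⟩).2), ?_, ?_, ?_⟩
    · exact hL.prodMk (kap.symm.continuous.comp (continuous_snd.comp (e.continuous.comp hφ')))
    · beta_reduce
      rw [hL0, hev]
      simp
    · intro x
      refine hPe _ ⟨φ x, hφA x⟩ ?_
      simp only [Homeomorph.apply_symm_apply]
      rw [hLe]

namespace Ann

variable {A : Set ℂ} (Q : Ann A)

theorem perk (w : ℝ × ℝ) (k : ℤ) : Q.P (w.1 + k, w.2) = Q.P w := by
  induction k using Int.induction_on with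
  | zero => simp
  | succ n ih =>
    have := Q.per (w.1 + n, w.2)
    simp only [T_apply] at this
    push_cast at ih ⊢
    rw [← add_assoc, this]
    exact ih
  | pred n ih =>
    have := Q.per (w.1 + (-n - 1), w.2)
    simp only [T_apply] at this
    push_cast at ih ⊢
    rw [← this, ← ih]
    congr 2
    ring

/-- uniqueness of lifts -/
theorem lift_unique {X : Type*} [TopologicalSpace X] [PreconnectedSpace X]
    (F G : X → ℝ × ℝ) (hF : Continuous F) (hG : Continuous G) (h : ∀ x, Q.P (F x) = Q.P (G x))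
    (x₀ : X) (h0 : F x₀ = G x₀) : F = G := by
  have : Nonempty X := ⟨x₀⟩
  have h1 : ∀ x, ∃ k : ℤ, (G x).1 - (F x).1 = k := by
    intro x
    obtain ⟨k, hk⟩ := Q.inj _ _ (h x)
    exact ⟨k, by rw [hk]; simp⟩
  obtain ⟨k, hk⟩ := int_const (fun x => (G x).1 - (F x).1) (by fun_prop) h1
  have hk0 : (k : ℝ) = 0 := by rw [← hk x₀, h0, sub_self]
  funext x
  obtain ⟨j, hj⟩ := Q.inj _ _ (h x)
  have := hk x
  rw [hk0] at this
  rw [hj] at this ⊢
  simp only [add_sub_cancel_left] at this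
  rw [this]
  simp

/-- `φ` (continuous and nonzero on `A`) has degree `m` on `A`. -/
def Deg (φ : ℂ → ℂ) (m : ℤ) : Prop :=
  ∃ L : ℝ × ℝ → ℂ, Continuous L ∧ (∀ w, exp (L w) = φ (Q.P w)) ∧
    ∀ w, L (T w) = L w + m * (2 * Real.pi * I)

theorem exists_deg (φ : ℂ → ℂ) (hφ : ContinuousOn φ A) (h0 : ∀ z ∈ A, φ z ≠ 0) :
    ∃ m, Q.Deg φ m := by
  obtain ⟨L, hL, hLe⟩ := exists_log (fun w => φ (Q.P w))
    (hφ.comp_continuous Q.cP Q.mem) (fun w => h0 _ (Q.mem w))
  obtain ⟨k, hk⟩ := log_unique (fun w => L (T w)) L (hL.comp T.continuous) hL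
    (fun w => by rw [hLe, hLe, Q.per])
  exact ⟨k, L, hL, hLe, hk⟩

/-- degree of a periodic function on the line -/
def _root_.Pool.Agent.Lib.MP9fa4ca.LDeg (φ : ℝ → ℂ) (m : ℤ) : Prop :=
  ∃ L : ℝ → ℂ, Continuous L ∧ (∀ x, exp (L x) = φ x) ∧
    ∀ x, L (x + 1) = L x + m * (2 * Real.pi * I)

theorem _root_.Pool.Agent.Lib.MP9fa4ca.LDeg.unique {φ : ℝ → ℂ} {m n : ℤ} (h : LDeg φ m)
    (h' : LDeg φ n) : m = n := by
  obtain ⟨L, hL, hLe, hLm⟩ := h
  obtain ⟨M, hM, hMe, hMm⟩ := h'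
  obtain ⟨k, hk⟩ := log_unique L M hL hM (fun x => by rw [hLe, hMe])
  have h1 := hLm 0
  have h2 := hMm 0
  rw [hk, hk, h2] at h1
  have h3 : ((m : ℂ) - n) * (2 * Real.pi * I) = 0 := by linear_combination -h1
  rcases mul_eq_zero.1 h3 with h | h
  · have : (m : ℂ) = n := by linear_combination h
    exact_mod_cast this
  · exact absurd h two_pi_I_ne

variable {Q}

theorem Deg.ldeg {φ : ℂ → ℂ} {m : ℤ} (h : Q.Deg φ m) (t : ℝ) :
    LDeg (fun x => φ (Q.P (x, t))) m := by
  obtain ⟨L, hL, hLe, hLm⟩ := h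
  exact ⟨fun x => L (x, t), by fun_prop, fun x => hLe _, fun x => hLm (x, t)⟩

theorem Deg.unique {φ : ℂ → ℂ} {m n : ℤ} (h : Q.Deg φ m) (h' : Q.Deg φ n) : m = n :=
  (h.ldeg 0).unique (h'.ldeg 0)

theorem Deg.mul {φ ψ : ℂ → ℂ} {m n : ℤ} (h : Q.Deg φ m) (h' : Q.Deg ψ n) :
    Q.Deg (fun z => φ z * ψ z) (m + n) := by
  obtain ⟨L, hL, hLe, hLm⟩ := h
  obtain ⟨M, hM, hMe, hMm⟩ := h'
  refine ⟨fun w => L w + M w, hL.add hM, fun w => by rw [exp_add, hLe, hMe], fun w => ?_⟩
  beta_reduce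
  rw [hLm, hMm]
  push_cast
  ring

theorem Deg.inv {φ : ℂ → ℂ} {m : ℤ} (h : Q.Deg φ m) : Q.Deg (fun z => (φ z)⁻¹) (-m) := by
  obtain ⟨L, hL, hLe, hLm⟩ := h
  refine ⟨fun w => -L w, hL.neg, fun w => by rw [exp_neg, hLe], fun w => ?_⟩
  beta_reduce
  rw [hLm]
  push_cast
  ring

theorem Deg.zpow {φ : ℂ → ℂ} {m : ℤ} (h : Q.Deg φ m) (k : ℤ) :
    Q.Deg (fun z => φ z ^ k) (k * m) := by
  obtain ⟨L, hL, hLe, hLm⟩ := h
  refine ⟨fun w => k * L w, continuous_const.mul hL, fun w => ?_, fun w => ?_⟩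
  · beta_reduce
    rw [Complex.exp_int_mul, hLe]
  · beta_reduce
    rw [hLm]
    push_cast
    ring

theorem Deg.conj {φ : ℂ → ℂ} {m : ℤ} (h : Q.Deg φ m) :
    Q.Deg (fun z => (starRingEnd ℂ) (φ z)) (-m) := by
  obtain ⟨L, hL, hLe, hLm⟩ := h
  refine ⟨fun w => (starRingEnd ℂ) (L w), continuous_conj.comp hL, fun w => ?_, fun w => ?_⟩
  · beta_reduce
    rw [← hLe, Complex.exp_conj]
  · beta_reduce
    rw [hLm]
    simp
    left
    exact map_ofNat (starRingEnd ℂ) 2

theorem deg_of_slit {φ : ℂ → ℂ} (hφ : ContinuousOn φ A) (h : ∀ z ∈ A, φ z ∈ slitPlane) :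
    Q.Deg φ 0 := by
  refine ⟨fun w => log (φ (Q.P w)), ?_, fun w => ?_, fun w => ?_⟩
  · exact (hφ.comp_continuous Q.cP Q.mem).clog fun w => h _ (Q.mem w)
  · exact exp_log (slitPlane_ne_zero (h _ (Q.mem w)))
  · beta_reduce
    rw [Q.per]
    simp

theorem Deg.congr {φ ψ : ℂ → ℂ} {m : ℤ} (h : Q.Deg φ m) (he : ∀ z ∈ A, φ z = ψ z) :
    Q.Deg ψ m := by
  obtain ⟨L, hL, hLe, hLm⟩ := h
  exact ⟨L, hL, fun w => by rw [hLe, he _ (Q.mem w)], hLm⟩

/-- A function of degree `0` has a continuous logarithm on `A`. -/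
theorem Deg.exists_log {φ : ℂ → ℂ} (h : Q.Deg φ 0) :
    ∃ l : ℂ → ℂ, ContinuousOn l A ∧ ∀ z ∈ A, exp (l z) = φ z := by
  obtain ⟨L, hL, hLe, hLm⟩ := h
  have hk : ∀ (w : ℝ × ℝ) (k : ℤ), L (w.1 + k, w.2) = L w := by
    intro w k
    induction k using Int.induction_on with
    | zero => simp
    | succ n ih =>
      have := hLm (w.1 + n, w.2)
      simp only [T_apply, Int.cast_zero, zero_mul, add_zero] at this
      push_cast at ih ⊢
      rw [← add_assoc, this]
      exact ih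
    | pred n ih =>
      have := hLm (w.1 + (-n - 1), w.2)
      simp only [T_apply, Int.cast_zero, zero_mul, add_zero] at this
      push_cast at ih ⊢
      rw [← this, ← ih]
      congr 2
      ring
  have hinv : ∀ w w', Q.P w = Q.P w' → L w = L w' := by
    intro w w' h
    obtain ⟨k, hk'⟩ := Q.inj _ _ h
    rw [hk', hk]
  choose! s hs using Q.surj
  have hl : ∀ w, L (s (Q.P w)) = L w := fun w => hinv _ _ (hs _ (Q.mem w))
  refine ⟨fun z => L (s z), ?_, fun z hz => by rw [hLe, hs z hz]⟩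
  intro z hz
  obtain ⟨w, rfl⟩ := Q.surj z hz
  refine ContinuousAt.continuousWithinAt ?_
  rw [ContinuousAt, hl w]
  intro U hU
  rw [Filter.mem_map]
  have h1 : L ⁻¹' U ∈ 𝓝 w := hL.continuousAt hU
  have h2 := Q.opn.image_mem_nhds h1
  refine Filter.mem_of_superset h2 ?_
  rintro _ ⟨v, hv, rfl⟩
  show L (s (Q.P v)) ∈ U
  rw [hl v]
  exact hv

end Ann

end Pool.Agent.Lib.MP9fa4ca
end
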