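import Pool.Agent.Lib.MP_9fa4ca_an.Spec

/-!
# Module ORD: the order lemma
-/

set_option autoImplicit false

open Set Topology Filter

namespace Pool.Agent.Lib.MP9fa4ca

namespace ORDAux

theorem iter {θ : ℝ × ℝ → ℝ} (h : ∀ w, θ (T w) = θ w + 1) (w : ℝ × ℝ) (k : ℤ) :
    θ (w.1 + k, w.2) = θ w + k := by
  induction k using Int.induction_on with
  | zero => simp
  | succ n ih =>
    have := h (w.1 + n, w.2)
    simp only [T_apply] at this
    push_cast at ih ⊢
    rw [← add_assoc, this, ih]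
    ring
  | pred n ih =>
    have := h (w.1 + (-n - 1), w.2)
    simp only [T_apply] at this
    push_cast at ih ⊢
    have e : w.1 + (-(n : ℝ) - 1) + 1 = w.1 + -n := by ring
    rw [e, ih] at this
    linarith

theorem iterG {G : ℝ × ℝ → ℝ × ℝ} (h : ∀ w, G (T w) = T (G w)) (w : ℝ × ℝ) (k : ℤ) :
    G (w.1 + k, w.2) = ((G w).1 + k, (G w).2) := by
  induction k using Int.induction_on with
  | zero => simp
  | succ n ih =>
    have := h (w.1 + n, w.2)
    simp only [T_apply] at this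
    push_cast at ih ⊢
    rw [← add_assoc, this, ih]
    simp only
    rw [add_assoc]
  | pred n ih =>
    have := h (w.1 + (-n - 1), w.2)
    simp only [T_apply] at this
    push_cast at ih ⊢
    have e : w.1 + (-(n : ℝ) - 1) + 1 = w.1 + -n := by ring
    rw [e, ih] at this
    have h1 := congrArg Prod.fst this
    have h2 := congrArg Prod.snd this
    simp only at h1 h2
    refine Prod.ext ?_ h2.symm
    simp only
    linarith

/-- the zero set is not empty -/
theorem exists_zero {θ : ℝ × ℝ → ℝ} (h : Cut θ) : ∃ w, θ w = 0 := by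
  have h1 := iter h.eqv (0, 0) ⌈-θ (0, 0)⌉
  have h2 := iter h.eqv (0, 0) ⌊-θ (0, 0)⌋
  have hpre : IsPreconnected (range θ) := by
    rw [← image_univ]
    exact isPreconnected_univ.image _ h.cont.continuousOn
  refine hpre.ordConnected.out ⟨((0 : ℝ) + ⌊-θ (0, 0)⌋, (0 : ℝ)), rfl⟩
    ⟨((0 : ℝ) + ⌈-θ (0, 0)⌉, (0 : ℝ)), rfl⟩ ⟨?_, ?_⟩
  · simp only at h2
    rw [h2]
    have := Int.floor_le (-θ (0, 0))
    linarith
  · simp only at h1
    rw [h1]
    have := Int.le_ceil (-θ (0, 0))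
    linarith

/-- the closed half is connected -/
theorem conn_le {θ : ℝ × ℝ → ℝ} (h : Cut θ) : IsPreconnected {w | θ w ≤ 0} := by
  have hcl : IsClosed {w | θ w ≤ 0} := isClosed_le h.cont continuous_const
  obtain ⟨w₀, hw₀⟩ := exists_zero h
  -- a closed piece which misses the zero set is empty
  have key : ∀ B C : Set (ℝ × ℝ), IsClosed B → IsClosed C → {w | θ w ≤ 0} ⊆ B ∪ C →
      {w | θ w ≤ 0} ∩ (B ∩ C) = ∅ → {w | θ w = 0} ⊆ B → {w | θ w ≤ 0} ∩ C = ∅ := by
    intro B C hB hC hcov hdis hZ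
    have hclo : IsClosed ({w | θ w ≤ 0} ∩ C) := hcl.inter hC
    have hop : IsOpen ({w | θ w ≤ 0} ∩ C) := by
      have : {w | θ w ≤ 0} ∩ C = {w | θ w < 0} ∩ Bᶜ := by
        ext w
        constructor
        · rintro ⟨h1, h2⟩
          have hwB : w ∉ B := fun h3 => by
            have : w ∈ {w | θ w ≤ 0} ∩ (B ∩ C) := ⟨h1, h3, h2⟩
            rw [hdis] at this
            exact this
          exact ⟨lt_of_le_of_ne h1 fun h3 => hwB (hZ h3), hwB⟩
        · rintro ⟨h1, h2⟩
          have h3 : θ w ≤ 0 := le_of_lt h1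
          exact ⟨h3, (hcov h3).resolve_left h2⟩
      rw [this]
      exact (isOpen_lt h.cont continuous_const).inter hB.isOpen_compl
    rcases isClopen_iff.1 ⟨hclo, hop⟩ with h1 | h1
    · exact h1
    · exfalso
      have h2 : T w₀ ∈ {w | θ w ≤ 0} ∩ C := by rw [h1]; trivial
      have h3 : θ (T w₀) ≤ 0 := h2.1
      rw [h.eqv, hw₀] at h3
      linarith
  rw [isPreconnected_closed_iff]
  intro B C hB hC hcov hneB hneC
  by_contra hdis
  rw [not_nonempty_iff_eq_empty] at hdis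
  -- the zero set lies in `B` or in `C`
  by_cases h1 : ({w | θ w = 0} ∩ B).Nonempty
  · by_cases h2 : ({w | θ w = 0} ∩ C).Nonempty
    · obtain ⟨w, hw, hw'⟩ := isPreconnected_closed_iff.1 h.conn B C hB hC
        (fun w hw => hcov (le_of_eq hw : θ w ≤ 0)) h1 h2
      have : w ∈ {w | θ w ≤ 0} ∩ (B ∩ C) := ⟨le_of_eq hw, hw'⟩
      rw [hdis] at this
      exact this
    · have hZ : {w | θ w = 0} ⊆ B := fun w hw =>
        (hcov (le_of_eq hw : θ w ≤ 0)).resolve_right fun h3 => h2 ⟨w, hw, h3⟩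
      have := key B C hB hC hcov hdis hZ
      rw [this] at hneC
      exact not_nonempty_empty hneC
  · have hZ : {w | θ w = 0} ⊆ C := fun w hw =>
      (hcov (le_of_eq hw : θ w ≤ 0)).resolve_left fun h3 => h1 ⟨w, hw, h3⟩
    have := key C B hC hB (by rwa [union_comm]) (by rwa [inter_comm C B]) hZ
    rw [this] at hneB
    exact not_nonempty_empty hneB

/-- the reflection -/
def S : ℝ × ℝ ≃ₜ ℝ × ℝ where
  toFun w := (-w.1, w.2)
  invFun w := (-w.1, w.2)
  left_inv w := by simp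
  right_inv w := by simp
  continuous_toFun := by fun_prop
  continuous_invFun := by fun_prop

@[simp] theorem S_apply (w : ℝ × ℝ) : S w = (-w.1, w.2) := rfl

theorem refl {θ : ℝ × ℝ → ℝ} (h : Cut θ) : Cut fun w => -θ (S w) where
  cont := (h.cont.comp S.continuous).neg
  eqv w := by
    have h1 := iter h.eqv (S w) (-1)
    simp only [S_apply, T_apply] at h1 ⊢
    rw [show -(w.1 + 1) = -w.1 + ((-1 : ℤ) : ℝ) by push_cast; ring, h1]
    push_cast
    ring
  conn := by
    have : {w | -θ (S w) = 0} = S '' {w | θ w = 0} := by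
      ext w
      constructor
      · intro hw
        exact ⟨S w, neg_eq_zero.1 hw, by simp⟩
      · rintro ⟨v, hv, rfl⟩
        show -θ (S (S v)) = 0
        rw [show S (S v) = v by simp, show θ v = 0 from hv, neg_zero]
    rw [this]
    exact h.conn.image _ S.continuous.continuousOn

theorem conn_ge {θ : ℝ × ℝ → ℝ} (h : Cut θ) : IsPreconnected {w | 0 ≤ θ w} := by
  have h1 := conn_le (refl h)
  have : {w | 0 ≤ θ w} = S '' {w | -θ (S w) ≤ 0} := by
    ext w
    constructor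
    · intro hw
      refine ⟨S w, ?_, by simp⟩
      show -θ (S (S w)) ≤ 0
      rw [show S (S w) = w by simp]
      exact neg_nonpos.2 hw
    · rintro ⟨v, hv, rfl⟩
      exact neg_nonpos.1 (show -θ (S v) ≤ 0 from hv)
  rw [this]
  exact h1.image _ S.continuous.continuousOn

end ORDAux

open ORDAux in
theorem specOrd : SpecOrd := by
  intro θ hθ G hG hd
  obtain ⟨w₀, hw₀⟩ := exists_zero hθ
  have hle := conn_le hθ
  have hge := conn_ge hθ
  have hc : Continuous fun w => θ (G w) := hθ.cont.comp G.continuous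
  -- a connected set on which `θ ∘ G` does not vanish
  have hsign : ∀ D : Set (ℝ × ℝ), IsPreconnected D → (∀ w ∈ D, θ (G w) ≠ 0) → ∀ v ∈ D, ∀ v' ∈ D,
      0 < θ (G v) → 0 < θ (G v') := by
    intro D hD hne v hv v' hv' hpos
    by_contra hcon
    have h1 : (0 : ℝ) ∈ (fun w => θ (G w)) '' D :=
      (hD.image _ hc.continuousOn).ordConnected.out ⟨v', hv', rfl⟩ ⟨v, hv, rfl⟩
        ⟨not_lt.1 hcon, hpos.le⟩
    obtain ⟨u, hu, hu'⟩ := h1
    exact hne u hu hu'
  have hGinv : ∀ u, θ (G u) = 0 → θ u ≠ 0 := fun u h1 h2 => hd u h2 h1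
  -- the set `G⁻¹ Z` is connected
  have hZ' : IsPreconnected {w | θ (G w) = 0} := by
    have : {w | θ (G w) = 0} = G.symm '' {w | θ w = 0} := by
      ext w
      constructor
      · intro hw
        exact ⟨G w, hw, by simp⟩
      · rintro ⟨v, hv, rfl⟩
        show θ (G (G.symm v)) = 0
        rw [Homeomorph.apply_symm_apply]
        exact hv
    rw [this]
    exact hθ.conn.image _ G.symm.continuous.continuousOn
  have hside : (∀ u, θ (G u) = 0 → θ u < 0) ∨ (∀ u, θ (G u) = 0 → 0 < θ u) := by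
    by_cases h1 : ∃ u, θ (G u) = 0 ∧ 0 < θ u
    · right
      obtain ⟨u, hu, hu'⟩ := h1
      intro v hv
      by_contra hcon
      have h1 : (0 : ℝ) ∈ θ '' {w | θ (G w) = 0} :=
        (hZ'.image _ hθ.cont.continuousOn).ordConnected.out ⟨v, hv, rfl⟩ ⟨u, hu, rfl⟩
          ⟨not_lt.1 hcon, hu'.le⟩
      obtain ⟨x, hx, hx'⟩ := h1
      exact hGinv x hx hx'
    · left
      intro v hv
      push Not at h1
      exact lt_of_le_of_ne (h1 v hv) (hGinv v hv)
  rcases lt_or_gt_of_ne (hd w₀ hw₀) with hneg | hpos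
  · -- `G Z` is on the left
    right
    have hle' : ∀ u, θ u ≤ 0 → θ (G u) ≠ 0 → (∀ v, θ (G v) = 0 → 0 < θ v) → θ (G u) < 0 := by
      intro u hu hne hs
      by_contra hcon
      have h1 : 0 < θ (G u) := lt_of_le_of_ne (not_lt.1 hcon) (Ne.symm hne)
      have h2 := hsign {w | θ w ≤ 0} hle (fun w hw h => absurd (hs w h) (not_lt.2 hw)) u hu w₀
        (le_of_eq hw₀) h1
      linarith
    rcases hside with hs | hs
    · -- impossible
      exfalso
      have h1 : ∀ w, 0 ≤ θ w → θ (G w) ≠ 0 := fun w hw h => absurd (hs w h) (not_lt.2 hw)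
      have h2 := iterG hG w₀ (⌈-θ (G w₀)⌉ + 1)
      have h3 := iter hθ.eqv (G w₀) (⌈-θ (G w₀)⌉ + 1)
      have h4 := iter hθ.eqv w₀ (⌈-θ (G w₀)⌉ + 1)
      have h5 := Int.le_ceil (-θ (G w₀))
      have h6 : (0 : ℝ) < ((⌈-θ (G w₀)⌉ + 1 : ℤ) : ℝ) := by
        push_cast
        linarith
      have h7 := hsign {w | 0 ≤ θ w} hge h1 (w₀.1 + ((⌈-θ (G w₀)⌉ + 1 : ℤ) : ℝ), w₀.2)
        (by show 0 ≤ θ _; rw [h4, hw₀, zero_add]; exact h6.le) w₀ (ge_of_eq hw₀)
        (by rw [h2, h3]; push_cast; linarith)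
      linarith
    · intro w hw
      exact hle' w hw (fun h => absurd (hs w h) (not_lt.2 hw)) hs
  · -- `G Z` is on the right
    left
    rcases hside with hs | hs
    · intro w hw
      exact hsign {w | 0 ≤ θ w} hge (fun v hv h => absurd (hs v h) (not_lt.2 hv)) w₀
        (ge_of_eq hw₀) w hw hpos
    · exfalso
      have h1 : ∀ w, θ w ≤ 0 → θ (G w) ≠ 0 := fun w hw h => absurd (hs w h) (not_lt.2 hw)
      have h2 := iterG hG w₀ (-(⌈θ (G w₀)⌉ + 1))
      have h3 := iter hθ.eqv (G w₀) (-(⌈θ (G w₀)⌉ + 1))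
      have h4 := iter hθ.eqv w₀ (-(⌈θ (G w₀)⌉ + 1))
      have h5 := Int.le_ceil (θ (G w₀))
      have h6 : ((-(⌈θ (G w₀)⌉ + 1) : ℤ) : ℝ) < 0 := by
        push_cast
        linarith
      have h7 := hsign {w | θ w ≤ 0} hle h1 w₀ (le_of_eq hw₀)
        (w₀.1 + ((-(⌈θ (G w₀)⌉ + 1) : ℤ) : ℝ), w₀.2)
        (by show θ _ ≤ 0; rw [h4, hw₀, zero_add]; exact h6.le) hpos
      rw [h2, h3] at h7
      push_cast at h7
      linarith

end Pool.Agent.Lib.MP9fa4ca
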