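import Pool.Agent.Lib.MP_9fa4ca_an.SpecC

/-!
# MP_9fa4ca_an : irrational locking, uniqueness of the rotation number, the corollary
-/

set_option autoImplicit false

open Set Topology Filter Complex MeasureTheory

namespace Pool.Agent.Lib.MP9fa4ca

/-- `A` is an annular rotation domain of `hen p 1`. -/
structure IsARD (p : ℝ → ℝ) (A : Set ℂ) : Prop where
  opn : IsOpen A
  bdd : Bornology.IsBounded A
  inv : ∀ z, hen p 1 z ∈ A ↔ z ∈ A
  per : ∀ z ∈ A, ∀ n : ℕ, 0 < n → (hen p 1)^[n] z ≠ z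

/-- SEM. Every annular rotation domain has an irrational rotation number. -/
def SpecSem : Prop :=
  ∀ (p : ℝ → ℝ), Continuous p → ∀ A : Set ℂ, IsARD p A →
    ∀ e : ↥A ≃ₜ (Circle × ↥(Ioo (0 : ℝ) 1)), ∃ α, Irrational α ∧ HasRot p A e α

/-- UNI. The rotation number is unique modulo `1`. Proof: `v = u' - u` satisfies
`v (f z) = v z + 2 π (α' - α) + 2 π k` on `A` with an integer `k`, constant since `A` is connected
(`e`); a small open set on which `v` varies by less than `|2 π (α' - α + k)|` is visited again by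
one of its points (Poincaré recurrence; `hen_mp`), infinitely often, contradiction unless
`α' - α + k = 0`. -/
def SpecUni : Prop :=
  ∀ (p : ℝ → ℝ), Continuous p → ∀ A : Set ℂ, IsARD p A →
    ∀ e : ↥A ≃ₜ (Circle × ↥(Ioo (0 : ℝ) 1)), ∀ α α', HasRot p A e α → HasRot p A e α' →
      ∃ k : ℤ, α' = α + k

/-- COR. Locking; from BAI and SEM, by Baire's theorem. -/
def SpecCor : Prop :=
  ∀ d : ℕ, 2 ≤ d → ∀ U : Set (Fin (d + 1) → ℝ), IsOpen U → U.Nonempty →
    (∀ c ∈ U, c (Fin.last d) ≠ 0 ∧ ∃ A : Set ℂ, IsARD (pol c) A ∧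
      Nonempty (↥A ≃ₜ (Circle × ↥(Ioo (0 : ℝ) 1)))) →
    ∃ (V : Set (Fin (d + 1) → ℝ)) (α : ℝ), IsOpen V ∧ V.Nonempty ∧ V ⊆ U ∧ Irrational α ∧
      V ⊆ closure {c | c ∈ V ∧ ∃ (A : Set ℂ) (e : ↥A ≃ₜ (Circle × ↥(Ioo (0 : ℝ) 1))),
        IsARD (pol c) A ∧ HasRot (pol c) A e α}

end Pool.Agent.Lib.MP9fa4ca
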