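import Pool.Agent.Lib.MP_9fa4ca_an.Minus
import Pool.Agent.Lib.MP_9fa4ca_an.SpecD
import Pool.Agent.Lib.MP_9fa4ca_an.ORD

section
/-!
# Module FRQ: the frequency of the sign changes and the rotation number
-/
set_option autoImplicit false

open Set Topology Filter Complex MeasureTheory

namespace Pool.Agent.Lib.MP9fa4ca

namespace FRQAux

/-- A continuous periodic function on the line is bounded. -/
theorem bdd_periodic (g : ℝ → ℝ) (hg : Continuous g) (hp : ∀ x, g (x + 1) = g x) :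
    ∃ M : ℝ, ∀ x, |g x| ≤ M := by
  obtain ⟨x₀, -, hx₀⟩ := (isCompact_Icc (a := (0 : ℝ)) (b := 1)).exists_isMaxOn
    (nonempty_Icc.2 zero_le_one) hg.abs.continuousOn
  refine ⟨|g x₀|, fun x => ?_⟩
  have hper : Function.Periodic g 1 := hp
  have h1 : g x = g (Int.fract x) := by
    have h2 := hper.int_mul ⌊x⌋ (Int.fract x)
    rw [mul_one, Int.fract_add_floor] at h2
    exact h2
  rw [h1]
  exact hx₀ (show Int.fract x ∈ Icc (0 : ℝ) 1 from ⟨Int.fract_nonneg x, (Int.fract_lt_one x).le⟩)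

/-- The floor of a function which has no integer value is constant on a connected set. -/
theorem floor_const {X : Type*} [TopologicalSpace X] {S : Set X} (hS : IsPreconnected S)
    {g : X → ℝ} (hg : ContinuousOn g S) (h : ∀ w ∈ S, ∀ k : ℤ, g w ≠ k) :
    ∀ w ∈ S, ∀ w' ∈ S, ⌊g w⌋ = ⌊g w'⌋ := by
  have key : ∀ w ∈ S, ∀ w' ∈ S, ¬ ⌊g w⌋ < ⌊g w'⌋ := by
    intro w hw w' hw' hlt
    have h1 : ((⌊g w'⌋ : ℤ) : ℝ) ∈ g '' S := by
      refine (hS.image _ hg).ordConnected.out ⟨w, hw, rfl⟩ ⟨w', hw', rfl⟩ ⟨?_, Int.floor_le _⟩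
      have h2 := Int.lt_floor_add_one (g w)
      have h3 : (⌊g w⌋ : ℝ) + 1 ≤ ⌊g w'⌋ := by exact_mod_cast hlt
      linarith
    obtain ⟨v, hv, hv'⟩ := h1
    exact h v hv _ hv'
  intro w hw w' hw'
  rcases lt_trichotomy ⌊g w⌋ ⌊g w'⌋ with h1 | h1 | h1
  · exact absurd h1 (key w hw w' hw')
  · exact h1
  · exact absurd h1 (key w' hw' w hw)

theorem sin_pos_iff {y : ℝ} (hy : Real.sin y ≠ 0) : 0 < Real.sin y ↔ Even ⌊y / Real.pi⌋ := by
  have hpi := Real.pi_pos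
  set k : ℤ := ⌊y / Real.pi⌋ with hk
  have h1 : (k : ℝ) * Real.pi ≤ y := by
    rw [← le_div_iff₀ hpi]
    exact Int.floor_le _
  have h2 : y < (k + 1) * Real.pi := by
    rw [← div_lt_iff₀ hpi]
    exact Int.lt_floor_add_one _
  have h3 : Real.sin y = (-1) ^ k * Real.sin (y - k * Real.pi) := by
    rw [Real.sin_sub_int_mul_pi, ← mul_assoc, ← zpow_add₀ (by norm_num : (-1 : ℝ) ≠ 0)]
    have : ((-1 : ℝ)) ^ (k + k) = 1 := Even.neg_one_zpow ⟨k, rfl⟩
    rw [this, one_mul]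
  have h4 : 0 ≤ Real.sin (y - k * Real.pi) :=
    Real.sin_nonneg_of_nonneg_of_le_pi (by linarith) (by linarith)
  have h5 : Real.sin (y - k * Real.pi) ≠ 0 := fun h => hy (by rw [h3, h, mul_zero])
  have h6 : 0 < Real.sin (y - k * Real.pi) := lt_of_le_of_ne h4 (Ne.symm h5)
  constructor
  · intro h
    by_contra hodd
    rw [Int.not_even_iff_odd] at hodd
    rw [h3, hodd.neg_one_zpow] at h
    linarith
  · intro h
    rw [h3, h.neg_one_zpow, one_mul]
    exact h6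

theorem floor_half (y : ℝ) : ⌊y + 1 / 2⌋ = ⌊y⌋ ∨ ⌊y + 1 / 2⌋ = ⌊y⌋ + 1 := by
  have h1 := Int.floor_le y
  have h2 := Int.lt_floor_add_one y
  have h3 := Int.floor_le (y + 1 / 2)
  have h4 := Int.lt_floor_add_one (y + 1 / 2)
  have h5 : (⌊y⌋ : ℤ) < ⌊y + 1 / 2⌋ + 1 := by
    have : (⌊y⌋ : ℝ) < ⌊y + 1 / 2⌋ + 1 := by linarith
    exact_mod_cast this
  have h6 : ⌊y + 1 / 2⌋ < ⌊y⌋ + 2 := by
    have : (⌊y + 1 / 2⌋ : ℝ) < ⌊y⌋ + 2 := by linarith
    exact_mod_cast this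
  omega

/-- The sum of the steps. -/
theorem count (u : ℕ → ℝ) (a : ℕ → ℤ) (j : ℤ) (hpar : ∀ i, 0 < u i ↔ Even (a i))
    (hstep : ∀ i, a (i + 1) = a i + 2 * j ∨ a (i + 1) = a i + 1 + 2 * j) (n : ℕ) :
    (sc u n : ℤ) = a n - a 0 - 2 * j * n := by
  classical
  induction n with
  | zero => simp [sc]
  | succ n ih =>
    have h1 : (sc u (n + 1) : ℤ) = sc u n + if ¬ (0 < u n ↔ 0 < u (n + 1)) then 1 else 0 := by
      unfold sc
      rw [Finset.range_add_one, Finset.filter_insert]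
      by_cases h : (0 < u n ↔ 0 < u (n + 1))
      · rw [if_neg (not_not.2 h), if_neg (not_not.2 h), add_zero]
      · rw [if_pos h, if_pos h, Finset.card_insert_of_notMem (by simp)]
        push_cast
        rfl
    rw [h1, ih]
    rcases hstep n with h | h
    · have h2 : (0 < u n ↔ 0 < u (n + 1)) := by
        rw [hpar, hpar, h]
        constructor
        · intro h3
          exact h3.add ⟨j, by ring⟩
        · intro h3
          have h4 : Even (2 * j) := ⟨j, by ring⟩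
          rcases Int.even_or_odd (a n) with h5 | h5
          · exact h5
          · exact absurd h3 (Int.not_even_iff_odd.2 (h5.add_even h4))
      rw [if_neg (not_not.2 h2), h]
      push_cast
      ring
    · have h2 : ¬ (0 < u n ↔ 0 < u (n + 1)) := by
        rw [hpar, hpar, h]
        intro h3
        rcases Int.even_or_odd (a n) with h5 | h5
        · have h6 := h3.1 h5
          have h7 : Odd (a n + 1 + 2 * j) := (h5.add_one).add_even ⟨j, by ring⟩
          exact (Int.not_even_iff_odd.2 h7) h6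
        · have h6 : Even (a n + 1 + 2 * j) := (h5.add_one).add ⟨j, by ring⟩
          exact (Int.not_even_iff_odd.2 h5) (h3.2 h6)
      rw [if_pos h2, h]
      push_cast
      ring

end FRQAux

open FRQAux

section

variable {p : ℝ → ℝ} {A : Set ℂ} {e : ↥A ≃ₜ (Circle × ↥(Ioo (0 : ℝ) 1))}

theorem Core.hasRot (C : Core p A e) : HasRot p A e C.α := by
  have hinv' : ∀ w w', C.Q.P w = C.Q.P w' → C.h w - w.1 = C.h w' - w'.1 := by
    intro w w' he
    obtain ⟨k, hk'⟩ := C.Q.inj _ _ he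
    rw [hk', iterFun C.hT]
    simp only
    ring
  have hsurj := C.Q.surj
  choose! s hs using hsurj
  have hu : ∀ w, C.h (s (C.Q.P w)) - (s (C.Q.P w)).1 = C.h w - w.1 := fun w =>
    hinv' _ _ (hs _ (C.Q.mem w))
  have hmain : ∀ w (hw : C.Q.P w ∈ A), (e ⟨C.Q.P w, hw⟩).1 *
      Circle.exp (2 * Real.pi * (C.h (s (C.Q.P w)) - (s (C.Q.P w)).1)) =
        Circle.exp (2 * Real.pi * C.h w) := by
    intro w hw
    rw [C.he, hu, ← Circle.exp_add]
    congr 1
    ring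
  refine ⟨fun z => 2 * Real.pi * (C.h (s z) - (s z).1), ?_, ?_⟩
  · intro z hz
    obtain ⟨w, rfl⟩ := C.Q.surj z hz
    refine ContinuousAt.continuousWithinAt ?_
    have hc : Continuous fun w : ℝ × ℝ => 2 * Real.pi * (C.h w - w.1) := by
      have := C.cont
      fun_prop
    rw [ContinuousAt, hu w]
    intro U hU
    rw [Filter.mem_map]
    have h6 : (fun w : ℝ × ℝ => 2 * Real.pi * (C.h w - w.1)) ⁻¹' U ∈ 𝓝 w := hc.continuousAt hU
    refine Filter.mem_of_superset (C.Q.opn.image_mem_nhds h6) ?_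
    rintro _ ⟨v, hv, rfl⟩
    show 2 * Real.pi * (C.h (s (C.Q.P v)) - (s (C.Q.P v)).1) ∈ U
    rw [hu v]
    exact hv
  · intro z hz hz'
    obtain ⟨w, rfl⟩ := C.Q.surj z hz
    have h6 := hmain (C.F w) (C.Q.mem _)
    have h7 := hmain w hz
    have h8 : (⟨C.Q.P (C.F w), C.Q.mem (C.F w)⟩ : A) = ⟨hen p 1 (C.Q.P w), hz'⟩ :=
      Subtype.ext (C.lft w)
    rw [h8, C.lft w, C.hF] at h6
    beta_reduce
    rw [h6, h7, ← Circle.exp_add]
    congr 1
    ring

theorem Core.iter_lft (C : Core p A e) (n : ℕ) (w : ℝ × ℝ) :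
    C.Q.P (C.F^[n] w) = (hen p 1)^[n] (C.Q.P w) :=
  iterate_lift C.Q (hen p 1) C.F C.lft n w

theorem Core.iter_nu (C : Core p A e) (hinv : ∀ z, hen p 1 z ∈ A ↔ z ∈ A) {w : ℂ} (hw : w ∉ A)
    (n : ℕ) : (hen p 1)^[n] w ∉ A ∧ C.Q.nu ((hen p 1)^[n] w) = C.Q.nu w := by
  induction n with
  | zero => exact ⟨hw, rfl⟩
  | succ n ih =>
    rw [Function.iterate_succ_apply']
    refine ⟨fun h => ih.1 ((hinv _).1 h), ?_⟩
    rw [← C.rel _ ih.1, ih.2]

/-- A parametrization of the zero set through a given point, with its ends. -/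
theorem Core.exists_par (C : Core p A e) (w₀ : ℝ × ℝ) (hw₀ : C.θ w₀ = 0) :
    ∃ (σ : ℝ → ℝ × ℝ) (ρ : ℝ → ℝ), Continuous σ ∧ Continuous ρ ∧
      (∀ s, C.Q.P (σ s) = 0 + ρ s * (1 + I)) ∧ (∀ s, C.θ (σ s) = 0) ∧
      Tendsto ρ atBot (𝓝 C.s₀) ∧ Tendsto ρ atTop (𝓝 C.s₁) := by
  have hlt := C.lt
  let ρ : ℝ → ℝ := fun s => C.s₀ + (C.s₁ - C.s₀) * (1 + Real.exp (-s))⁻¹
  have hρc : Continuous ρ := by
    refine continuous_const.add (continuous_const.mul (Continuous.inv₀ (by fun_prop) fun s => ?_))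
    have := Real.exp_pos (-s)
    positivity
  have hρ0 : ∀ s, C.s₀ < ρ s ∧ ρ s < C.s₁ := by
    intro s
    have h1 : 0 < (1 + Real.exp (-s))⁻¹ := (kap s).2.1
    have h2 : (1 + Real.exp (-s))⁻¹ < 1 := (kap s).2.2
    simp only [ρ]
    constructor
    · nlinarith
    · nlinarith
  obtain ⟨s', h0, h1, h2⟩ := (C.int w₀).1 ⟨0, by rw [hw₀]; simp⟩
  obtain ⟨x, hx⟩ : ∃ x, ρ x = s' := by
    obtain ⟨x, hx⟩ := kap.surjective ⟨(s' - C.s₀) / (C.s₁ - C.s₀),
      div_pos (by linarith) (by linarith), (div_lt_one (by linarith)).2 (by linarith)⟩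
    refine ⟨x, ?_⟩
    have h2 : (1 + Real.exp (-x))⁻¹ = (s' - C.s₀) / (C.s₁ - C.s₀) := congrArg Subtype.val hx
    simp only [ρ]
    rw [h2]
    have : C.s₁ - C.s₀ ≠ 0 := by linarith
    field_simp
    ring
  obtain ⟨σ, hσ, hσ0, hσP⟩ := C.Q.lift ℝ (fun s => 0 + ρ s * (1 + I))
    (by have := hρc; fun_prop) (fun s => C.seg _ (hρ0 s).1 (hρ0 s).2) x w₀ (by rw [h2, hx])
  obtain ⟨j, hj⟩ := int_const (fun s => C.θ (σ s)) (C.cut.cont.comp hσ)
    (fun s => (C.int _).2 ⟨ρ s, (hρ0 s).1, (hρ0 s).2, hσP s⟩)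
  have hj0 : (j : ℝ) = 0 := by rw [← hj x, hσ0, hw₀]
  refine ⟨σ, ρ, hσ, hρc, hσP, fun s => by rw [hj, hj0], ?_, ?_⟩
  · have h3 : Tendsto (fun s : ℝ => 1 + Real.exp (-s)) atBot atTop :=
      tendsto_atTop_add_const_left _ _ (Real.tendsto_exp_atTop.comp tendsto_neg_atBot_atTop)
    have h4 : Tendsto (fun s : ℝ => (1 + Real.exp (-s))⁻¹) atBot (𝓝 0) :=
      tendsto_inv_atTop_zero.comp h3
    have h5 : Tendsto ρ atBot (𝓝 (C.s₀ + (C.s₁ - C.s₀) * 0)) :=
      tendsto_const_nhds.add (tendsto_const_nhds.mul h4)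
    rwa [mul_zero, add_zero] at h5
  · have h3 : Tendsto (fun s : ℝ => 1 + Real.exp (-s)) atTop (𝓝 (1 + 0)) :=
      tendsto_const_nhds.add (Real.tendsto_exp_neg_atTop_nhds_zero)
    have h4 : Tendsto (fun s : ℝ => (1 + Real.exp (-s))⁻¹) atTop (𝓝 (1 + 0)⁻¹) :=
      h3.inv₀ (by norm_num)
    have h5 : Tendsto ρ atTop (𝓝 (C.s₀ + (C.s₁ - C.s₀) * (1 + 0)⁻¹)) :=
      tendsto_const_nhds.add (tendsto_const_nhds.mul h4)
    convert h5 using 2
    ring

/-- Every image of the zero set meets the core line. -/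
theorem Core.meets (C : Core p A e) (hp : Continuous p) (hM : SpecMet)
    (hinv : ∀ z, hen p 1 z ∈ A ↔ z ∈ A) (n : ℕ) (w₀ : ℝ × ℝ) (hw₀ : C.θ w₀ = 0) :
    ∃ w, C.θ w = 0 ∧ (C.F^[n] w).2 = 0 := by
  obtain ⟨σ, ρ, hσ, hρ, hσP, hσZ, hbot, htop⟩ := C.exists_par w₀ hw₀
  have hfc : Continuous ((hen p 1)^[n]) := (henH p hp 1 one_ne_zero).continuous.iterate n
  have hl : Continuous fun s : ℝ => (hen p 1)^[n] (0 + (s : ℂ) * (1 + I)) :=
    hfc.comp (by fun_prop)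
  obtain ⟨s, hs⟩ := hM A C.Q (fun s => C.F^[n] (σ s)) ((C.F.continuous.iterate n).comp hσ)
    ((hen p 1)^[n] (0 + C.s₀ * (1 + I))) ((hen p 1)^[n] (0 + C.s₁ * (1 + I)))
    (C.iter_nu hinv C.notMem₀ n).1 (C.iter_nu hinv C.notMem₁ n).1 (by
      have h1 := (hl.tendsto C.s₀).comp hbot
      refine h1.congr fun s => ?_
      simp only [Function.comp]
      rw [C.iter_lft, hσP]) (by
      have h1 := (hl.tendsto C.s₁).comp htop
      refine h1.congr fun s => ?_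
      simp only [Function.comp]
      rw [C.iter_lft, hσP]) (by
      rw [(C.iter_nu hinv C.notMem₀ n).2, (C.iter_nu hinv C.notMem₁ n).2, C.nu₁]
      exact C.nu₀) 0
  exact ⟨σ s, hσZ s, hs⟩

end

/-- FRQ. -/
theorem specFrq (hC : ∀ (p : ℝ → ℝ), Continuous p → ∀ (A : Set ℂ), IsOpen A →
      Bornology.IsBounded A → ∀ (e : ↥A ≃ₜ (Circle × ↥(Ioo (0 : ℝ) 1))),
      (∀ z, hen p 1 z ∈ A ↔ z ∈ A) → (∀ z ∈ A, ∀ n : ℕ, 0 < n → (hen p 1)^[n] z ≠ z) →
      Nonempty (Core p A e)) (hN : SpecNat) (hD : SpecDeg) (hM : SpecMet) (hU : SpecUni) :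
    SpecFrq := by
  intro p hp A hA hb e hinv hper
  obtain ⟨C⟩ := hC p hp A hA hb e hinv hper
  have hpi := Real.pi_pos
  have hfix : ∀ z ∈ A, hen p 1 z ≠ z := fun z hz => hper z hz 1 one_pos
  have hVc : Continuous fun z => hen p 1 z - z :=
    ((henH p hp 1 one_ne_zero).continuous).sub continuous_id
  obtain ⟨d, L, hL, hLe, hLT⟩ := C.Q.exists_deg (fun z => hen p 1 z - z) hVc.continuousOn
    fun z hz => sub_ne_zero.2 (hfix z hz)
  have hd : d ≠ 0 := by
    rintro rfl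
    exact hD A C.Q hA hb p hp hinv hfix C.F C.lft ⟨L, hL, hLe, hLT⟩
  obtain ⟨j, hj⟩ := hN A C.Q p hp hinv hfix C.F C.F.continuous C.lft L hL hLe
  have hdiag0 : ∀ x : ℝ, (⟨x, x⟩ : ℂ) = 0 + x * (1 + I) := fun x => by
    apply Complex.ext <;> simp
  refine ⟨C.s₀, C.s₁, C.lt, fun x h0 h1 n => ?_, fun α hα => ?_⟩
  · unfold ud
    rw [hdiag0]
    exact sub_ne_zero.2 (C.diag x h0 h1 (n + 1) (by omega))
  obtain ⟨k, hk⟩ := hU p hp A ⟨hA, hb, hinv, hper⟩ e α C.α hα C.hasRot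
  refine ⟨d, j - d * k, hd, fun x h0 h1 => ?_⟩
  -- the imaginary part of `V` along the orbits of the zero set
  have hVim : ∀ w, (hen p 1 (C.Q.P w) - C.Q.P w).im = Real.exp (L w).re * Real.sin (L w).im := by
    intro w
    have : hen p 1 (C.Q.P w) - C.Q.P w = exp (L w) := (hLe w).symm
    rw [this, exp_im]
  have hVim' : ∀ z : ℂ, (hen p 1 z - z).im = z.re - z.im := fun z => by simp
  have hsin : ∀ w, C.θ w = 0 → ∀ n : ℕ, 0 < n → Real.sin (L (C.F^[n] w)).im ≠ 0 := by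
    intro w hw n hn h
    have h2 := hVim (C.F^[n] w)
    rw [h, mul_zero, hVim', sub_eq_zero, C.iter_lft] at h2
    obtain ⟨s, hs0, hs1, hs⟩ := (C.int w).1 ⟨0, by rw [hw]; simp⟩
    rw [hs] at h2
    exact C.diag s hs0 hs1 n hn h2
  have hnint : ∀ y : ℝ, Real.sin y ≠ 0 → ∀ k : ℤ, y / Real.pi ≠ k := by
    intro y hy k hk
    apply hy
    rw [div_eq_iff hpi.ne'] at hk
    rw [hk]
    exact Real.sin_int_mul_pi k
  -- bounds on the core line
  obtain ⟨M₁, hM₁⟩ := bdd_periodic (fun x => C.θ (x, 0) - x) (by have := C.cut.cont; fun_prop)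
    (fun x => by
      have := C.cut.eqv (x, 0)
      simp only [T_apply] at this
      rw [this]
      ring)
  obtain ⟨M₂, hM₂⟩ := bdd_periodic (fun x => (L (x, 0)).im / Real.pi - 2 * d * x) (by fun_prop)
    (fun x => by
      have := hLT (x, 0)
      simp only [T_apply] at this
      rw [this]
      have h2 : (L (x, 0) + d * (2 * Real.pi * I)).im = (L (x, 0)).im + d * (2 * Real.pi) := by simp
      rw [h2]
      field_simp
      ring)
  obtain ⟨w₀, hw₀, hPw₀⟩ : ∃ w, C.θ w = 0 ∧ C.Q.P w = 0 + x * (1 + I) := by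
    obtain ⟨w, hw⟩ := C.Q.surj _ (C.seg x h0 h1)
    obtain ⟨n, hn⟩ := (C.int w).2 ⟨x, h0, h1, hw⟩
    refine ⟨(w.1 + ((-n : ℤ) : ℝ), w.2), ?_, ?_⟩
    · rw [iterFun C.cut.eqv, hn]
      push_cast
      ring
    · rw [C.Q.perk, hw]
  let a : ℕ → ℤ := fun n => ⌊(L (C.F^[n] w₀)).im / Real.pi⌋
  have hbound : ∃ M : ℝ, ∀ n : ℕ, 0 < n → |(a n : ℝ) - 2 * d * (n * C.α)| ≤ M := by
    refine ⟨M₂ + 2 * |(d : ℝ)| * (M₁ + 1) + 1, fun n hn => ?_⟩
    obtain ⟨w, hw, hw2⟩ := C.meets hp hM hinv n w₀ hw₀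
    have h3 : ⌊(L (C.F^[n] w₀)).im / Real.pi⌋ = ⌊(L (C.F^[n] w)).im / Real.pi⌋ := by
      refine floor_const (g := fun w => (L (C.F^[n] w)).im / Real.pi) C.cut.conn ?_
        (fun v hv => hnint _ (hsin v hv n hn)) w₀ hw₀ w hw
      have h4 : Continuous (C.F^[n]) := C.F.continuous.iterate n
      have h5 : Continuous fun w => (L (C.F^[n] w)).im / Real.pi := by fun_prop
      exact h5.continuousOn
    have h4 := C.bound w hw n
    set v : ℝ × ℝ := C.F^[n] w with hv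
    have hv0 : v = (v.1, 0) := Prod.ext rfl hw2
    rw [hv0] at h4 h3
    have h5 := hM₁ v.1
    have h6 := hM₂ v.1
    have h7 := Int.floor_le ((L (v.1, 0)).im / Real.pi)
    have h8 := Int.lt_floor_add_one ((L (v.1, 0)).im / Real.pi)
    have h9 : |v.1 - n * C.α| ≤ M₁ + 1 := by
      have e1 : v.1 - n * C.α = (C.θ (v.1, 0) - n * C.α) - (C.θ (v.1, 0) - v.1) := by ring
      rw [e1]
      exact (abs_sub _ _).trans (by linarith)
    have h10 : |2 * (d : ℝ) * (v.1 - n * C.α)| ≤ 2 * |(d : ℝ)| * (M₁ + 1) := by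
      rw [abs_mul, abs_mul, abs_two]
      exact mul_le_mul_of_nonneg_left h9 (by positivity)
    show |((⌊(L (C.F^[n] w₀)).im / Real.pi⌋ : ℤ) : ℝ) - 2 * d * (n * C.α)| ≤ _
    rw [h3]
    rw [abs_le] at h6 h10 ⊢
    constructor <;> linarith [h6.1, h6.2, h10.1, h10.2]
  -- the count
  have hud : ∀ i, ud p x i = Real.exp (L (C.F^[i + 1] w₀)).re * Real.sin (L (C.F^[i + 1] w₀)).im := by
    intro i
    rw [← hVim, hVim', C.iter_lft, hPw₀]
    unfold ud
    rw [hdiag0]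
  have hcount : ∀ n, (sc (ud p x) n : ℤ) = a (n + 1) - a 1 - 2 * j * n := by
    refine count (ud p x) (fun i => a (i + 1)) j (fun i => ?_) (fun i => ?_)
    · rw [hud]
      have hs := hsin w₀ hw₀ (i + 1) (by omega)
      rw [← sin_pos_iff hs]
      exact mul_pos_iff_of_pos_left (Real.exp_pos _)
    · have h3 := hj (C.F^[i + 1] w₀)
      rw [← Function.iterate_succ_apply' (C.F : ℝ × ℝ → ℝ × ℝ)] at h3
      show ⌊(L (C.F^[i + 1 + 1] w₀)).im / Real.pi⌋ = _ ∨ ⌊(L (C.F^[i + 1 + 1] w₀)).im / Real.pi⌋ = _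
      rw [h3]
      rcases floor_half ((L (C.F^[i + 1] w₀)).im / Real.pi) with h4 | h4
      · left
        rw [h4]
      · right
        rw [h4]
  obtain ⟨M, hM'⟩ := hbound
  have hlim : Tendsto (fun n : ℕ => ((a (n + 1) : ℝ) - 2 * d * ((n + 1 : ℕ) * C.α)) / n) atTop
      (𝓝 0) := by
    have h3 : Tendsto (fun n : ℕ => M / (n : ℝ)) atTop (𝓝 0) :=
      tendsto_const_div_atTop_nhds_zero_nat M
    refine squeeze_zero_norm (fun n => ?_) h3
    rw [norm_div, Real.norm_eq_abs, Real.norm_natCast]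
    exact div_le_div_of_nonneg_right (hM' (n + 1) (by omega)) (Nat.cast_nonneg n)
  have hlim2 : Tendsto (fun n : ℕ => (2 * d * C.α - a 1 : ℝ) / n) atTop (𝓝 0) :=
    tendsto_const_div_atTop_nhds_zero_nat _
  have hlim3 : Tendsto (fun _ : ℕ => (2 * d * C.α - 2 * j : ℝ)) atTop
      (𝓝 (2 * d * C.α - 2 * j)) := tendsto_const_nhds
  have hlim4 := (hlim.add hlim2).add hlim3
  rw [zero_add, zero_add] at hlim4
  have htarget : (2 * (d * α - ((j - d * k : ℤ) : ℝ)) : ℝ) = 2 * d * C.α - 2 * j := by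
    rw [hk]
    push_cast
    ring
  rw [htarget]
  refine hlim4.congr' ?_
  filter_upwards [eventually_gt_atTop 0] with n hn
  have hn' : (n : ℝ) ≠ 0 := by
    have : (0 : ℝ) < n := by exact_mod_cast hn
    exact this.ne'
  have h3 : (sc (ud p x) n : ℝ) = a (n + 1) - a 1 - 2 * j * n := by exact_mod_cast hcount n
  rw [h3]
  push_cast
  field_simp
  ring

end Pool.Agent.Lib.MP9fa4ca
end

section
/-!
# MP_9fa4ca_an : assembly
-/
set_option autoImplicit false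

open Set Topology Filter Complex MeasureTheory

namespace Pool.Agent.Lib.MP9fa4ca

theorem specRot2 : SpecRot2 := fun θ hθ F hF hd hr => by
  obtain ⟨α, h, h1, h2, h3, h4, h5⟩ := specRot' specOrd θ hθ F hF hd hr
  exact ⟨α, h, h1, h2, h3, h4, h5⟩

theorem coreAll (p : ℝ → ℝ) (hp : Continuous p) (A : Set ℂ) (hA : IsOpen A)
    (hb : Bornology.IsBounded A) (e : ↥A ≃ₜ (Circle × ↥(Ioo (0 : ℝ) 1)))
    (hf : ∀ z, hen p 1 z ∈ A ↔ z ∈ A) (hper : ∀ z ∈ A, ∀ n : ℕ, 0 < n → (hen p 1)^[n] z ≠ z) :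
    Nonempty (Core p A e) :=
  exists_core specLoc specFar specHne (specHcp specLoc specFar) (specCrs specLoc specFar) specCut
    specRot2 p hp A hA hb e hf hper

theorem specSem : SpecSem := fun p hp A hA e => by
  obtain ⟨C⟩ := coreAll p hp A hA.opn hA.bdd e hA.inv hA.per
  exact ⟨C.α, C.irr, C.hasRot⟩

/-- From the plane `ℝ × ℝ` to the complex plane. -/
noncomputable def cplx : ℂ ≃ₜ ℝ × ℝ := Complex.equivRealProdCLM.toHomeomorph

theorem cplx_apply (z : ℂ) : cplx z = (z.re, z.im) := rfl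

theorem cplx_hen (p : ℝ → ℝ) (z : ℂ) :
    cplx (hen p 1 z) = (fun q : ℝ × ℝ => (p q.1 - q.2, q.1)) (cplx z) := by
  simp [cplx_apply]

theorem cplx_iter (p : ℝ → ℝ) (n : ℕ) (z : ℂ) :
    cplx ((hen p 1)^[n] z) = (fun q : ℝ × ℝ => (p q.1 - q.2, q.1))^[n] (cplx z) := by
  induction n generalizing z with
  | zero => rfl
  | succ n ih => rw [Function.iterate_succ_apply, Function.iterate_succ_apply, ih, cplx_hen]

theorem cplx_ard {p : ℝ → ℝ} {A : Set (ℝ × ℝ)} (hA : IsOpen A)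
    (hb : Bornology.IsBounded A) (hinv : (fun q : ℝ × ℝ => (p q.1 - q.2, q.1)) '' A = A)
    (hper : ∀ q ∈ A, ∀ n : ℕ, 1 ≤ n → (fun q : ℝ × ℝ => (p q.1 - q.2, q.1))^[n] q ≠ q) :
    IsARD p (cplx ⁻¹' A) where
  opn := hA.preimage cplx.continuous
  bdd := by
    have h1 : cplx ⁻¹' A = cplx.symm '' A := (cplx.symm.toEquiv.image_eq_preimage_symm A).symm
    rw [h1]
    exact (Complex.equivRealProdCLM.symm.lipschitz.isBounded_image hb)
  inv z := by
    have hinj : Function.Injective fun q : ℝ × ℝ => (p q.1 - q.2, q.1) := by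
      intro q q' h
      have h1 := congrArg Prod.fst h
      have h2 := congrArg Prod.snd h
      simp only at h1 h2
      refine Prod.ext h2 ?_
      rw [h2] at h1
      linarith
    rw [mem_preimage, mem_preimage, cplx_hen]
    constructor
    · intro h
      rw [← hinv] at h
      obtain ⟨q, hq, hq'⟩ := h
      rw [← hinj hq']
      exact hq
    · intro h
      rw [← hinv]
      exact ⟨_, h, rfl⟩
  per z hz n hn h := hper (cplx z) hz n hn (by rw [← cplx_iter, h])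

end Pool.Agent.Lib.MP9fa4ca
end
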