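import Pool.Agent.Lib.MP_9fa4ca_an.SpecC

section
/-!
# MP_9fa4ca_an : BAI
-/
set_option autoImplicit false

open Set Topology Filter Complex MeasureTheory

namespace Pool.Agent.Lib.MP9fa4ca

namespace BAIAux

/-- the parameters with no sign change on `[a, b]` -/
def EE (d : ℕ) (a b : ℝ) : Set (Fin (d + 1) → ℝ) :=
  {c | c (Fin.last d) ≠ 0 ∧ ∀ x ∈ Icc a b, ∀ n, ud (pol c) x n ≠ 0}

/-- the balls -/
noncomputable def BB (d : ℕ) (m : ℕ) (r : ℚ) : Set (Fin (d + 1) → ℝ) :=
  Metric.ball (TopologicalSpace.denseSeq (Fin (d + 1) → ℝ) m) (r : ℝ)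

theorem exists_BB (d : ℕ) {U : Set (Fin (d + 1) → ℝ)} (hU : IsOpen U) {c : Fin (d + 1) → ℝ}
    (hc : c ∈ U) : ∃ m r, c ∈ BB d m r ∧ BB d m r ⊆ U := by
  obtain ⟨ε, hε, hball⟩ := Metric.isOpen_iff.1 hU c hc
  obtain ⟨m, hm⟩ := (TopologicalSpace.denseRange_denseSeq (Fin (d + 1) → ℝ)).exists_mem_open
    (Metric.isOpen_ball (x := c) (ε := ε / 4)) ⟨c, Metric.mem_ball_self (by linarith)⟩
  obtain ⟨r, hr1, hr2⟩ := exists_rat_btwn (by linarith : ε / 4 < ε / 2)
  refine ⟨m, r, ?_, ?_⟩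
  · unfold BB
    rw [Metric.mem_ball]
    rw [Metric.mem_ball, dist_comm] at hm
    linarith
  · intro y hy
    apply hball
    unfold BB at hy
    rw [Metric.mem_ball] at hy hm ⊢
    have := dist_triangle y (TopologicalSpace.denseSeq (Fin (d + 1) → ℝ) m) c
    linarith

/-- the exceptional set of parameters -/
def NN (d : ℕ) : Set (Fin (d + 1) → ℝ) :=
  ⋃ q : ℚ × ℚ, (EE d q.1 q.2 \ interior (closure (EE d q.1 q.2)))

theorem NN_meagre (d : ℕ) : IsMeagre (NN d) := by
  apply isMeagre_iUnion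
  intro q
  set E := EE d q.1 q.2
  have h1 : IsClosed (closure E \ interior (closure E)) := by
    rw [sdiff_eq]
    exact isClosed_closure.inter isOpen_interior.isClosed_compl
  have h2 : IsNowhereDense (closure E \ interior (closure E)) := by
    rw [h1.isNowhereDense_iff]
    apply eq_empty_of_forall_notMem
    intro x hx
    have h3 : interior (closure E \ interior (closure E)) ⊆ interior (closure E) :=
      interior_mono sdiff_subset
    exact (interior_subset hx).2 (h3 hx)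
  exact h2.isMeagre.mono (sdiff_subset_sdiff_left subset_closure)

/-- the exceptional set of rotation numbers, with given parameters -/
def RR (d : ℕ) (a b : ℚ) (m : ℕ) (r : ℚ) (k j : ℤ) : Set ℝ :=
  {α | a < b ∧ k ≠ 0 ∧ BB d m r ⊆ closure (EE d a b) ∧ (∀ c ∈ BB d m r, c (Fin.last d) ≠ 0) ∧
    ∃ c ∈ EE d a b ∩ BB d m r,
      Tendsto (fun n : ℕ => (sc (ud (pol c) (a : ℝ)) n : ℝ) / n) atTop (𝓝 (2 * (k * α - j)))}

theorem RR_subsingleton (hS : SpecSgn) {d : ℕ} (hd : 2 ≤ d) (a b : ℚ) (m : ℕ) (r : ℚ)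
    (k j : ℤ) : (RR d a b m r k j).Subsingleton := by
  rintro α ⟨hab, hk, hcl, h0, c, hc, hα⟩ β ⟨_, _, _, _, c', hc', hβ⟩
  have hab' : (a : ℝ) < b := by exact_mod_cast hab
  have hsgn := hS d hd (BB d m r) (EE d a b) Metric.isOpen_ball
    (convex_ball _ _).isPreconnected hcl h0 a b hab' (fun c hc => hc.2)
  have ha : (a : ℝ) ∈ Icc (a : ℝ) b := ⟨le_rfl, hab'.le⟩
  have hsc : ∀ n, sc (ud (pol c) (a : ℝ)) n = sc (ud (pol c') (a : ℝ)) n := by
    intro n
    unfold sc
    congr 1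
    apply Finset.filter_congr
    intro i _
    rw [hsgn i c hc c' hc' a ha a ha, hsgn (i + 1) c hc c' hc' a ha a ha]
  have h1 : (fun n : ℕ => (sc (ud (pol c) (a : ℝ)) n : ℝ) / n) =
      fun n : ℕ => (sc (ud (pol c') (a : ℝ)) n : ℝ) / n := by
    funext n
    rw [hsc n]
  rw [h1] at hα
  have h2 := tendsto_nhds_unique hα hβ
  have h3 : (k : ℝ) ≠ 0 := by exact_mod_cast hk
  have h4 : (k : ℝ) * α = k * β := by linarith
  exact mul_left_cancel₀ h3 h4

theorem continuous_pol' {d : ℕ} (c : Fin (d + 1) → ℝ) : Continuous (pol c) := by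
  unfold pol
  fun_prop

end BAIAux

open BAIAux in
theorem specBai (hS : SpecSgn) (hF : SpecFrq) : SpecBai := by
  intro d hd
  refine ⟨⋃ i : (ℚ × ℚ) × (ℕ × ℚ) × (ℤ × ℤ),
    RR d i.1.1 i.1.2 i.2.1.1 i.2.1.2 i.2.2.1 i.2.2.2, NN d, ?_, NN_meagre d, ?_⟩
  · exact countable_iUnion fun i => (RR_subsingleton hS hd _ _ _ _ _ _).countable
  · intro c hcN hc0 A hAo hAb e hinv haper α hrot
    obtain ⟨a₀, b₀, hab₀, hud, hfr⟩ := hF (pol c) (continuous_pol' c) A hAo hAb e hinv haper
    obtain ⟨k, j, hk, htend⟩ := hfr α hrot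
    obtain ⟨a, ha1, ha2⟩ := exists_rat_btwn hab₀
    obtain ⟨b, hb1, hb2⟩ := exists_rat_btwn ha2
    have hab : a < b := by exact_mod_cast hb1
    have hcE : c ∈ EE d a b := by
      refine ⟨hc0, fun x hx n => hud x ?_ ?_ n⟩
      · exact ha1.trans_le hx.1
      · exact lt_of_le_of_lt hx.2 hb2
    have hcint : c ∈ interior (closure (EE d a b)) := by
      by_contra hcon
      exact hcN (mem_iUnion.2 ⟨(a, b), hcE, hcon⟩)
    have hopen : IsOpen (interior (closure (EE d a b)) ∩ {c | c (Fin.last d) ≠ 0}) :=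
      isOpen_interior.inter (isOpen_ne_fun (continuous_apply _) continuous_const)
    obtain ⟨m, r, h1, h2⟩ := exists_BB d hopen ⟨hcint, hc0⟩
    refine mem_iUnion.2 ⟨((a, b), (m, r), (k, j)), hab, hk, ?_, ?_, c, ⟨hcE, h1⟩, ?_⟩
    · exact fun y hy => interior_subset (h2 hy).1
    · exact fun y hy => (h2 hy).2
    · exact htend a ha1 ha2

end Pool.Agent.Lib.MP9fa4ca
end

section
/-!
# MP_9fa4ca_an : PLY
-/
set_option autoImplicit false

open Set Topology Filter Complex MeasureTheory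

namespace Pool.Agent.Lib.MP9fa4ca

namespace PLYAux

open Polynomial in
/-- the polynomial with the coefficients `c` -/
noncomputable def PP {d : ℕ} (c : Fin (d + 1) → ℝ) : ℝ[X] :=
  ∑ i : Fin (d + 1), Polynomial.monomial (i : ℕ) (c i)

theorem PP_coeff {d : ℕ} (c : Fin (d + 1) → ℝ) (i : Fin (d + 1)) : (PP c).coeff i = c i := by
  unfold PP
  rw [Polynomial.finsetSum_coeff, Finset.sum_eq_single i]
  · rw [Polynomial.coeff_monomial, if_pos rfl]
  · intro j _ hj
    rw [Polynomial.coeff_monomial, if_neg]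
    intro h
    exact hj (Fin.ext h)
  · intro h
    exact absurd (Finset.mem_univ i) h

theorem PP_natDegree {d : ℕ} (c : Fin (d + 1) → ℝ) (h : c (Fin.last d) ≠ 0) :
    (PP c).natDegree = d := by
  apply le_antisymm
  · unfold PP
    apply Polynomial.natDegree_sum_le_of_forall_le
    intro i _
    exact (Polynomial.natDegree_monomial_le _).trans (Nat.lt_succ_iff.1 i.2)
  · apply Polynomial.le_natDegree_of_ne_zero
    have := PP_coeff c (Fin.last d)
    rw [Fin.val_last] at this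
    rw [this]
    exact h

theorem PP_eval {d : ℕ} (c : Fin (d + 1) → ℝ) (x : ℝ) : (PP c).eval x = pol c x := by
  unfold PP pol
  rw [Polynomial.eval_finsetSum]
  apply Finset.sum_congr rfl
  intro i _
  rw [Polynomial.eval_monomial]

open Polynomial in
/-- the polynomials of the orbit of the diagonal -/
noncomputable def QQ {d : ℕ} (c : Fin (d + 1) → ℝ) : ℕ → ℝ[X] × ℝ[X]
  | 0 => (Polynomial.X, Polynomial.X)
  | n + 1 => ((PP c).comp (QQ c n).1 - (QQ c n).2, (QQ c n).1)

theorem QQ_deg {d : ℕ} (hd : 2 ≤ d) (c : Fin (d + 1) → ℝ) (h : c (Fin.last d) ≠ 0) (n : ℕ) :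
    (QQ c n).1.natDegree = d ^ n ∧ (QQ c n).2.natDegree ≤ d ^ n := by
  induction n with
  | zero => simp [QQ]
  | succ n ih =>
    have h1 : d ^ n < d ^ (n + 1) := Nat.pow_lt_pow_right (by omega) (Nat.lt_succ_self n)
    have h2 : ((PP c).comp (QQ c n).1).natDegree = d ^ (n + 1) := by
      rw [Polynomial.natDegree_comp, PP_natDegree c h, ih.1, pow_succ']
    refine ⟨?_, ?_⟩
    · show ((PP c).comp (QQ c n).1 - (QQ c n).2).natDegree = _
      rw [Polynomial.natDegree_sub_eq_left_of_natDegree_lt, h2]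
      rw [h2]
      exact ih.2.trans_lt h1
    · show (QQ c n).1.natDegree ≤ _
      rw [ih.1]
      exact h1.le

theorem QQ_eval {d : ℕ} (c : Fin (d + 1) → ℝ) (x : ℝ) (n : ℕ) :
    (hen (pol c) 1)^[n] ⟨x, x⟩ = ⟨(QQ c n).1.eval x, (QQ c n).2.eval x⟩ := by
  induction n with
  | zero => simp [QQ]
  | succ n ih =>
    rw [Function.iterate_succ_apply', ih]
    apply Complex.ext
    · simp only [hen_re, one_mul, QQ, Polynomial.eval_sub, Polynomial.eval_comp, PP_eval]
    · simp only [hen_im, QQ]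

end PLYAux

open PLYAux in
theorem specPly : SpecPly := by
  intro d hd c hc a b hab n
  by_contra hcon
  push Not at hcon
  have h1 := (QQ_deg hd c hc n).1
  have h2 := (QQ_deg hd c hc (n + 1)).1
  have hlt : d ^ n < d ^ (n + 1) := Nat.pow_lt_pow_right (by omega) (Nat.lt_succ_self n)
  have h3 : ((QQ c (n + 1)).1 - (QQ c (n + 1)).2).natDegree = d ^ (n + 1) := by
    rw [Polynomial.natDegree_sub_eq_left_of_natDegree_lt, h2]
    rw [h2]
    show (QQ c n).1.natDegree < _
    rw [h1]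
    exact hlt
  have h4 : (QQ c (n + 1)).1 - (QQ c (n + 1)).2 ≠ 0 := by
    intro h0
    rw [h0, Polynomial.natDegree_zero] at h3
    have : 0 < d ^ (n + 1) := by positivity
    omega
  apply h4
  apply Polynomial.eq_zero_of_infinite_isRoot
  apply (Icc_infinite hab).mono
  intro x hx
  have h5 := hcon x hx
  unfold ud at h5
  rw [QQ_eval] at h5
  show Polynomial.eval x _ = 0
  rw [Polynomial.eval_sub]
  exact h5

end Pool.Agent.Lib.MP9fa4ca
end

section
/-!
# MP_9fa4ca_an : SGN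
-/
set_option autoImplicit false

open Set Topology Filter Complex MeasureTheory

namespace Pool.Agent.Lib.MP9fa4ca

namespace SGNAux

theorem continuous_pol {d : ℕ} :
    Continuous fun q : (Fin (d + 1) → ℝ) × ℝ => pol q.1 q.2 := by
  unfold pol
  fun_prop

theorem continuous_iter {d : ℕ} (n : ℕ) :
    Continuous fun q : (Fin (d + 1) → ℝ) × ℝ => (hen (pol q.1) 1)^[n] ⟨q.2, q.2⟩ := by
  induction n with
  | zero =>
    simp only [Function.iterate_zero, id]
    exact continuous_mk continuous_snd continuous_snd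
  | succ n ih =>
    simp only [Function.iterate_succ_apply']
    have h1 : Continuous fun q : (Fin (d + 1) → ℝ) × ℝ =>
        pol q.1 ((hen (pol q.1) 1)^[n] ⟨q.2, q.2⟩).re :=
      continuous_pol.comp (continuous_fst.prodMk (Complex.continuous_re.comp ih))
    unfold hen at h1 ih ⊢
    exact continuous_mk (h1.sub (continuous_const.mul (Complex.continuous_im.comp ih)))
      (Complex.continuous_re.comp ih)

theorem continuous_ud {d : ℕ} (n : ℕ) :
    Continuous fun q : (Fin (d + 1) → ℝ) × ℝ => ud (pol q.1) q.2 n := by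
  unfold ud
  exact (Complex.continuous_re.comp (continuous_iter (n + 1))).sub
    (Complex.continuous_im.comp (continuous_iter (n + 1)))

theorem continuous_ud_left {d : ℕ} (x : ℝ) (n : ℕ) :
    Continuous fun c : Fin (d + 1) → ℝ => ud (pol c) x n :=
  (continuous_ud n).comp (continuous_id.prodMk continuous_const)

theorem continuous_ud_right {d : ℕ} (c : Fin (d + 1) → ℝ) (n : ℕ) :
    Continuous fun x : ℝ => ud (pol c) x n :=
  (continuous_ud n).comp (continuous_const.prodMk continuous_id)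

end SGNAux

open SGNAux in
theorem specSgn (hP : SpecPly) : SpecSgn := by
  intro d hd C E hCo hCp hCE hC0 a b hab hE n
  set U : Set (Fin (d + 1) → ℝ) := {c | ∃ x ∈ Icc a b, 0 < ud (pol c) x n} with hU
  set W : Set (Fin (d + 1) → ℝ) := {c | ∃ x ∈ Icc a b, ud (pol c) x n < 0} with hW
  have hUo : IsOpen U := by
    have : U = ⋃ x ∈ Icc a b, {c | 0 < ud (pol c) x n} := by
      ext c
      simp [hU]
    rw [this]
    exact isOpen_biUnion fun x _ => isOpen_lt continuous_const (continuous_ud_left x n)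
  have hWo : IsOpen W := by
    have : W = ⋃ x ∈ Icc a b, {c | ud (pol c) x n < 0} := by
      ext c
      simp [hW]
    rw [this]
    exact isOpen_biUnion fun x _ => isOpen_lt (continuous_ud_left x n) continuous_const
  -- no point of `E` is in both sets
  have hno : ∀ c ∈ E, c ∈ U → c ∈ W → False := by
    rintro c hc ⟨x, hx, h1⟩ ⟨y, hy, h2⟩
    have hcont : ContinuousOn (fun x : ℝ => ud (pol c) x n) (Icc a b) :=
      (continuous_ud_right c n).continuousOn
    have hpre : IsPreconnected (Icc a b) := isPreconnected_Icc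
    obtain ⟨z, hz, hz0⟩ := hpre.intermediate_value hy hx hcont
      (show (0 : ℝ) ∈ Icc (ud (pol c) y n) (ud (pol c) x n) from ⟨h2.le, h1.le⟩)
    exact hE c hc z hz n hz0
  have hcover : C ⊆ U ∪ W := by
    intro c hc
    obtain ⟨x, hx, hne⟩ := hP d hd c (hC0 c hc) a b hab n
    rcases lt_or_gt_of_ne hne with h | h
    · exact Or.inr ⟨x, hx, h⟩
    · exact Or.inl ⟨x, hx, h⟩
  have hbad : (C ∩ U).Nonempty → (C ∩ W).Nonempty → False := by
    intro h1 h2
    obtain ⟨c, hc, hcU, hcW⟩ := hCp U W hUo hWo hcover h1 h2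
    have hopen : IsOpen (C ∩ (U ∩ W)) := hCo.inter (hUo.inter hWo)
    have hcl : c ∈ closure E := hCE hc
    obtain ⟨e, he1, he2⟩ := mem_closure_iff.1 hcl _ hopen ⟨hc, hcU, hcW⟩
    exact hno e he2 he1.2.1 he1.2.2
  have key : ∀ c ∈ E ∩ C, ∀ c' ∈ E ∩ C, ∀ x ∈ Icc a b, ∀ x' ∈ Icc a b,
      0 < ud (pol c) x n → 0 < ud (pol c') x' n := by
    intro c hc c' hc' x hx x' hx' h
    by_contra hcon
    have h3 : ud (pol c') x' n < 0 := lt_of_le_of_ne (not_lt.1 hcon) (hE c' hc'.1 x' hx' n)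
    exact hbad ⟨c, hc.2, x, hx, h⟩ ⟨c', hc'.2, x', hx', h3⟩
  intro c hc c' hc' x hx x' hx'
  exact ⟨key c hc c' hc' x hx x' hx', key c' hc' c hc x' hx' x hx⟩

end Pool.Agent.Lib.MP9fa4ca
end

section
/-!
# MP_9fa4ca_an : the degree of `f z - z` is not zero
-/
set_option autoImplicit false

open Set Topology Filter Complex MeasureTheory

namespace Pool.Agent.Lib.MP9fa4ca

namespace DEGAux

/-- sign of the sine from the floor -/
theorem sin_nonneg_of_floor {x : ℝ} {k : ℤ} (h : ⌊x / Real.pi⌋ = k) :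
    0 ≤ (-1 : ℝ) ^ k * Real.sin x := by
  have hpi := Real.pi_pos
  rw [Int.floor_eq_iff, le_div_iff₀ hpi, div_lt_iff₀ hpi] at h
  rw [← Real.sin_sub_int_mul_pi]
  exact Real.sin_nonneg_of_nonneg_of_le_pi (by linarith) (by linarith)

theorem not_int_of_sin {x : ℝ} (h : Real.sin x ≠ 0) (k : ℤ) : x ≠ k * Real.pi := by
  rintro rfl
  exact h (Real.sin_int_mul_pi k)

/-- A monotone bounded real sequence has small differences. -/
theorem small_diff (x : ℕ → ℝ) (hm : Monotone x) (hb : ∃ B, ∀ n, x n ≤ B) {δ : ℝ} (hδ : 0 < δ) :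
    ∀ᶠ n in atTop, x (n + 1) - x n < δ := by
  obtain ⟨B, hB⟩ := hb
  have h1 : Tendsto x atTop (𝓝 (⨆ n, x n)) :=
    tendsto_atTop_ciSup hm ⟨B, by rintro _ ⟨n, rfl⟩; exact hB n⟩
  have h2 : Tendsto (fun n => x (n + 1) - x n) atTop (𝓝 0) := by
    have := (h1.comp (tendsto_add_atTop_nat 1)).sub h1
    simpa using this
  exact h2.eventually (gt_mem_nhds hδ)

theorem int_seq {K : ℕ → ℤ} {j k₀ : ℤ} (h : ∀ n, K (n + 1) = K n + 2 * j ∨
    K (n + 1) = K n + 2 * j + 1) (h0 : K 0 = k₀) (hf : ∃ᶠ n in atTop, K n = k₀) :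
    j = 0 ∧ ∀ n, K n = k₀ := by
  have hf' : ∀ m, ∃ n, m ≤ n ∧ K n = k₀ := by
    intro m
    obtain ⟨n, hn, hn'⟩ := (frequently_atTop.1 hf) m
    exact ⟨n, hn, hn'⟩
  have hj : j = 0 := by
    rcases lt_trichotomy j 0 with hj | hj | hj
    · exfalso
      have : ∀ n : ℕ, K n ≤ k₀ - n := by
        intro n
        induction n with
        | zero => simp [h0]
        | succ n ih =>
          push_cast
          rcases h n with h | h <;> omega
      obtain ⟨n, hn, hn'⟩ := hf' 1
      have := this n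
      omega
    · exact hj
    · exfalso
      have : ∀ n : ℕ, k₀ + n ≤ K n := by
        intro n
        induction n with
        | zero => simp [h0]
        | succ n ih =>
          push_cast
          rcases h n with h | h <;> omega
      obtain ⟨n, hn, hn'⟩ := hf' 1
      have := this n
      omega
  refine ⟨hj, ?_⟩
  subst hj
  have hm : Monotone K := monotone_nat_of_le_succ fun n => by
    rcases h n with h | h <;> omega
  intro n
  obtain ⟨m, hm', hK⟩ := hf' n
  have h1 := hm hm'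
  have h2 := hm (Nat.zero_le n)
  omega

end DEGAux

theorem specDeg (hN : SpecNat) (hR : SpecRec) : SpecDeg := by
  intro A Q hA hbd p hp hf hfix F hFP hdeg
  obtain ⟨L, hL, hLe, hLT⟩ := hdeg
  have hpi := Real.pi_pos
  obtain ⟨j, hj⟩ := hN A Q p hp hf hfix F F.continuous hFP L hL hLe
  replace hLe : ∀ w, exp (L w) = hen p 1 (Q.P w) - Q.P w := hLe
  have hLT' : ∀ w, L (T w) = L w := by
    intro w
    rw [hLT]
    simp
  -- the imaginary part of `f z - z`
  have hVim : ∀ w, (hen p 1 (Q.P w) - Q.P w).im = (Q.P w).re - (Q.P w).im := by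
    intro w
    simp
  have hVs : ∀ w, (Q.P w).re - (Q.P w).im = Real.exp (L w).re * Real.sin (L w).im := by
    intro w
    rw [← hVim, ← hLe, exp_im]
  -- a point off the diagonal
  obtain ⟨w₀, hw₀⟩ : ∃ w, (Q.P w).re - (Q.P w).im ≠ 0 := by
    by_contra hcon
    push Not at hcon
    obtain ⟨ε, hε, hball⟩ := Metric.isOpen_iff.1 hA (Q.P 0) (Q.mem 0)
    have h1 : Q.P 0 + ((ε / 2 : ℝ) : ℂ) ∈ A := by
      apply hball
      rw [Metric.mem_ball, dist_eq_norm, add_sub_cancel_left, norm_real, Real.norm_eq_abs,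
        abs_of_pos (by linarith)]
      linarith
    obtain ⟨w, hw⟩ := Q.surj _ h1
    have h2 := hcon w
    have h3 := hcon 0
    rw [hw] at h2
    simp only [add_re, ofReal_re, add_im, ofReal_im] at h2
    linarith
  have hsin₀ : Real.sin (L w₀).im ≠ 0 := by
    intro h
    apply hw₀
    rw [hVs, h, mul_zero]
  set k₀ : ℤ := ⌊(L w₀).im / Real.pi⌋ with hk₀
  set δ : ℝ := |(Q.P w₀).re - (Q.P w₀).im| / 2 with hδdef
  have hδ : 0 < δ := by
    have := abs_pos.2 hw₀
    positivity
  let U : Set (ℝ × ℝ) := {w | k₀ * Real.pi < (L w).im ∧ (L w).im < (k₀ + 1) * Real.pi ∧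
    δ < |(Q.P w).re - (Q.P w).im|}
  have hPc := Q.cP
  have hU : IsOpen U := by
    have h1 : IsOpen {w | k₀ * Real.pi < (L w).im} :=
      isOpen_lt continuous_const (continuous_im.comp hL)
    have h2 : IsOpen {w | (L w).im < (k₀ + 1) * Real.pi} :=
      isOpen_lt (continuous_im.comp hL) continuous_const
    have h3 : IsOpen {w | δ < |(Q.P w).re - (Q.P w).im|} :=
      isOpen_lt continuous_const
        (((continuous_re.comp hPc).sub (continuous_im.comp hPc)).abs)
    exact h1.inter (h2.inter h3)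
  have hw₀U : w₀ ∈ U := by
    have h1 : (k₀ : ℝ) ≤ (L w₀).im / Real.pi := Int.floor_le _
    have h2 : (L w₀).im / Real.pi < k₀ + 1 := Int.lt_floor_add_one _
    rw [le_div_iff₀ hpi] at h1
    rw [div_lt_iff₀ hpi] at h2
    refine ⟨lt_of_le_of_ne h1 (Ne.symm (DEGAux.not_int_of_sin hsin₀ k₀)), h2, ?_⟩
    rw [hδdef]
    have := abs_pos.2 hw₀
    linarith
  have hUT : ∀ w, w ∈ U ↔ T w ∈ U := by
    intro w
    show (_ ∧ _ ∧ _) ↔ (_ ∧ _ ∧ _)
    rw [hLT', Q.per]
  obtain ⟨w, hwU, hwf⟩ := hR A Q hA hbd (henH p hp 1 one_ne_zero) (hen_mp p hp 1 (Or.inl rfl)) hf F hFP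
    1 U hU ⟨w₀, hw₀U⟩ hUT
  rw [Function.iterate_one] at hwf
  have hfloorU : ∀ v ∈ U, ⌊(L v).im / Real.pi⌋ = k₀ := by
    intro v hv
    rw [Int.floor_eq_iff, le_div_iff₀ hpi, div_lt_iff₀ hpi]
    exact ⟨hv.1.le, hv.2.1⟩
  obtain ⟨hj0, hK⟩ := DEGAux.int_seq (K := fun n => ⌊(L (F^[n] w)).im / Real.pi⌋) (j := j) (k₀ := k₀)
    (fun n => by
      rw [Function.iterate_succ_apply', hj]
      have h1 : ⌊(L (F^[n] w)).im / Real.pi + 1 / 2⌋ = ⌊(L (F^[n] w)).im / Real.pi⌋ ∨
          ⌊(L (F^[n] w)).im / Real.pi + 1 / 2⌋ = ⌊(L (F^[n] w)).im / Real.pi⌋ + 1 := by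
        set y := (L (F^[n] w)).im / Real.pi
        have h2 := Int.floor_le y
        have h3 := Int.lt_floor_add_one y
        by_cases h4 : y + 1 / 2 < ⌊y⌋ + 1
        · left
          rw [Int.floor_eq_iff]
          exact ⟨by linarith, h4⟩
        · right
          rw [Int.floor_eq_iff]
          push_cast
          exact ⟨by linarith, by linarith⟩
      rcases h1 with h1 | h1
      · left
        rw [h1]
      · right
        rw [h1]
        ring)
    (hfloorU w hwU) (hwf.mono fun n hn => hfloorU _ hn)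
  -- the first coordinates
  have hre : ∀ n, (Q.P (F^[n + 1] w)).im = (Q.P (F^[n] w)).re := by
    intro n
    rw [Function.iterate_succ_apply', hFP]
    simp
  have hsgn : ∀ n, 0 ≤ (-1 : ℝ) ^ k₀ * ((Q.P (F^[n + 1] w)).re - (Q.P (F^[n] w)).re) := by
    intro n
    have h1 := DEGAux.sin_nonneg_of_floor (hK (n + 1))
    rw [← hre n, hVs]
    have h2 := Real.exp_pos (L (F^[n + 1] w)).re
    have : 0 ≤ Real.exp (L (F^[n + 1] w)).re * ((-1 : ℝ) ^ k₀ * Real.sin (L (F^[n + 1] w)).im) :=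
      mul_nonneg h2.le h1
    linarith
  have habs : |(-1 : ℝ) ^ k₀| = 1 := by
    rw [abs_zpow, abs_neg, abs_one, one_zpow]
  have hmono : Monotone fun n => (-1 : ℝ) ^ k₀ * (Q.P (F^[n] w)).re := by
    refine monotone_nat_of_le_succ fun n => ?_
    have := hsgn n
    linarith
  obtain ⟨B, hB⟩ := hbd.exists_norm_le
  have hbound : ∃ B, ∀ n, (-1 : ℝ) ^ k₀ * (Q.P (F^[n] w)).re ≤ B := by
    refine ⟨B, fun n => (le_abs_self _).trans ?_⟩
    rw [abs_mul, habs, one_mul]
    exact (abs_re_le_norm _).trans (hB _ (Q.mem _))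
  have hsmall := DEGAux.small_diff _ hmono hbound hδ
  have hfreq : ∃ᶠ n in atTop, F^[n + 1] w ∈ U := by
    rw [frequently_atTop] at hwf ⊢
    intro a
    obtain ⟨b, hb, hb'⟩ := hwf (a + 1)
    exact ⟨b - 1, by omega, by rwa [Nat.sub_add_cancel (by omega)]⟩
  obtain ⟨n, hn, hn'⟩ := (hfreq.and_eventually hsmall).exists
  have h5 := hn.2.2
  rw [hre] at h5
  have h6 : |(Q.P (F^[n + 1] w)).re - (Q.P (F^[n] w)).re| =
      (-1 : ℝ) ^ k₀ * ((Q.P (F^[n + 1] w)).re - (Q.P (F^[n] w)).re) := by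
    rw [← abs_of_nonneg (hsgn n), abs_mul, habs, one_mul]
  rw [h6] at h5
  linarith

end Pool.Agent.Lib.MP9fa4ca
end

section
/-!
# MP_9fa4ca_an : the natural rotation of `f z - z`
-/
set_option autoImplicit false

open Set Topology Filter Complex MeasureTheory

namespace Pool.Agent.Lib.MP9fa4ca

namespace NATAux

/-- The real lemma: `s` is the old argument plus `π / 2`, `s + a` the new one. -/
theorem floor_eq {s a : ℝ} {r r' : ℝ} (hr : 0 < r) (hr' : 0 < r') (ha : -Real.pi < a)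
    (ha' : a < Real.pi) (h : r' * Real.sin (s + a) = r * Real.sin s)
    (h0 : Real.sin s = 0 → a = 0) :
    ⌊(s + a) / Real.pi⌋ = ⌊s / Real.pi⌋ := by
  have hpi := Real.pi_pos
  set k : ℤ := ⌊s / Real.pi⌋ with hk
  have h1 : (k : ℝ) ≤ s / Real.pi := Int.floor_le _
  have h2 : s / Real.pi < k + 1 := Int.lt_floor_add_one _
  rw [le_div_iff₀ hpi] at h1
  rw [div_lt_iff₀ hpi] at h2
  rw [Int.floor_eq_iff, le_div_iff₀ hpi, div_lt_iff₀ hpi]
  by_cases hs : Real.sin s = 0
  · rw [h0 hs, add_zero]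
    exact ⟨h1, h2⟩
  · have h3 : s - k * Real.pi ≠ 0 := by
      intro h4
      apply hs
      rw [show s = k * Real.pi by linarith]
      exact Real.sin_int_mul_pi k
    have h5 : 0 < s - k * Real.pi := lt_of_le_of_ne (by linarith) (Ne.symm h3)
    have h6 : 0 < Real.sin (s - k * Real.pi) := Real.sin_pos_of_pos_of_lt_pi h5 (by linarith)
    have h7 : r' * Real.sin (s + a - k * Real.pi) = r * Real.sin (s - k * Real.pi) := by
      rw [Real.sin_sub_int_mul_pi, Real.sin_sub_int_mul_pi]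
      linear_combination ((-1 : ℝ) ^ k) * h
    have h8 : 0 < Real.sin (s + a - k * Real.pi) := by
      have : 0 < r' * Real.sin (s + a - k * Real.pi) := by
        rw [h7]
        exact mul_pos hr h6
      exact pos_of_mul_pos_right this hr'.le
    constructor
    · by_contra hlt
      push Not at hlt
      have h9 : Real.sin (s + a - k * Real.pi) ≤ 0 := by
        apply Real.sin_nonpos_of_nonpos_of_neg_pi_le
        · linarith
        · linarith
      linarith
    · by_contra hge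
      push Not at hge
      have h9 : Real.sin (s + a - k * Real.pi) ≤ 0 := by
        rw [← Real.sin_sub_two_pi]
        apply Real.sin_nonpos_of_nonpos_of_neg_pi_le
        · linarith
        · linarith
      linarith

end NATAux

theorem specNat : SpecNat := by
  intro A Q p hp hf hfix F hF hFP L hL hLe
  have hpi := Real.pi_pos
  have hne : ∀ z ∈ A, hen p 1 z - z ≠ 0 := fun z hz h => hfix z hz (sub_eq_zero.1 h)
  have hcont : Continuous (hen p 1) := continuous_mk (by fun_prop) (by fun_prop)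
  -- the ratio
  let r : ℝ × ℝ → ℂ := fun w =>
    (hen p 1 (hen p 1 (Q.P w)) - hen p 1 (Q.P w)) / (I * (hen p 1 (Q.P w) - Q.P w))
  have hbne : ∀ w, I * (hen p 1 (Q.P w) - Q.P w) ≠ 0 := fun w =>
    mul_ne_zero I_ne_zero (hne _ (Q.mem w))
  have hmem' : ∀ w, hen p 1 (Q.P w) ∈ A := fun w => (hf _).2 (Q.mem w)
  have hane : ∀ w, hen p 1 (hen p 1 (Q.P w)) - hen p 1 (Q.P w) ≠ 0 := fun w => hne _ (hmem' w)
  have him : ∀ w, (hen p 1 (hen p 1 (Q.P w)) - hen p 1 (Q.P w)).im =
      (I * (hen p 1 (Q.P w) - Q.P w)).im := by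
    intro w
    simp
  have heq : ∀ w, (I * (hen p 1 (Q.P w) - Q.P w)).im = 0 →
      hen p 1 (hen p 1 (Q.P w)) - hen p 1 (Q.P w) = I * (hen p 1 (Q.P w) - Q.P w) := by
    intro w h
    apply Complex.ext
    · simp at h ⊢
      have h1 : p (Q.P w).re - (Q.P w).im = (Q.P w).re := by linarith
      rw [h1]
      linarith
    · exact him w
  have hslit : ∀ w, r w ∈ slitPlane := fun w => div_slit_of_im (hbne w) (him w) (heq w)
  have hPc := Q.cP
  have hrc : Continuous r := by
    refine Continuous.div ?_ ?_ hbne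
    · exact (hcont.comp (hcont.comp hPc)).sub (hcont.comp hPc)
    · exact continuous_const.mul ((hcont.comp hPc).sub hPc)
  obtain ⟨j, hj⟩ := log_unique (fun w => L (F w)) (fun w => L w + Real.pi / 2 * I + log (r w))
    (hL.comp hF) (by
      refine (hL.add continuous_const).add ?_
      exact hrc.clog hslit) (by
      intro w
      rw [hLe, hFP, exp_add, exp_add, hLe, exp_pi_div_two_mul_I, exp_log (slitPlane_ne_zero (hslit w))]
      show _ = _ * ((hen p 1 (hen p 1 (Q.P w)) - hen p 1 (Q.P w)) / (I * (hen p 1 (Q.P w) - Q.P w)))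
      rw [mul_comm (hen p 1 (Q.P w) - Q.P w) I, mul_div_cancel₀ _ (hbne w)])
  refine ⟨j, fun w => ?_⟩
  have h1 : (L (F w)).im = (L w).im + Real.pi / 2 + (r w).arg + 2 * Real.pi * j := by
    have := congrArg Complex.im (hj w)
    rw [this]
    simp [log_im]
    ring
  have hL1 : (L (F w)).im / Real.pi = ((L w).im + Real.pi / 2 + (r w).arg) / Real.pi + ((2 * j : ℤ) : ℝ) := by
    rw [h1]
    push_cast
    field_simp
  have hL2 : (L w).im / Real.pi + 1 / 2 = ((L w).im + Real.pi / 2) / Real.pi := by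
    field_simp
  rw [hL1, Int.floor_add_intCast, hL2]
  congr 1
  -- imaginary parts
  have e1 : (hen p 1 (hen p 1 (Q.P w)) - hen p 1 (Q.P w)).im =
      Real.exp (L (F w)).re * Real.sin ((L w).im + Real.pi / 2 + (r w).arg) := by
    rw [← hFP, ← hLe, exp_im, h1]
    congr 1
    rw [show (L w).im + Real.pi / 2 + (r w).arg + 2 * Real.pi * j =
      (L w).im + Real.pi / 2 + (r w).arg + j * (2 * Real.pi) by ring]
    exact Real.sin_add_int_mul_two_pi _ _
  have e2 : (I * (hen p 1 (Q.P w) - Q.P w)).im =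
      Real.exp (L w).re * Real.sin ((L w).im + Real.pi / 2) := by
    rw [Real.sin_add_pi_div_two, ← exp_re, hLe]
    simp
  refine NATAux.floor_eq (Real.exp_pos _) (Real.exp_pos _) (neg_pi_lt_arg _)
    (arg_lt_pi_iff.2 ?_) (by rw [← e1, ← e2, him]) ?_
  · rcases mem_slitPlane_iff.1 (hslit w) with h | h
    · exact Or.inl h.le
    · exact Or.inr h
  · intro h0
    have h3 : (I * (hen p 1 (Q.P w) - Q.P w)).im = 0 := by rw [e2, h0, mul_zero]
    have h4 : r w = 1 := by
      show (hen p 1 (hen p 1 (Q.P w)) - hen p 1 (Q.P w)) / (I * (hen p 1 (Q.P w) - Q.P w)) = 1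
      rw [heq w h3, div_self (hbne w)]
    rw [h4]
    exact arg_one

end Pool.Agent.Lib.MP9fa4ca
end
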