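import Pool.Agent.Lib.MP_9fa4ca_an.SpecD

/-!
# MP_9fa4ca_an : irrational locking in arbitrary continuous families
-/

set_option autoImplicit false

open Set Topology Filter Complex MeasureTheory

namespace Pool.Agent.Lib.MP9fa4ca

universe u

/-- SGF. As SGN, for a family `c : X → (Fin (d + 1) → ℝ)`. -/
def SpecSgf : Prop :=
  ∀ (X : Type u) [TopologicalSpace X] (d : ℕ), 2 ≤ d → ∀ c : X → Fin (d + 1) → ℝ, Continuous c →
    (∀ t, c t (Fin.last d) ≠ 0) → ∀ C E : Set X, IsOpen C → IsPreconnected C → C ⊆ closure E →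
    ∀ a b : ℝ, a < b → (∀ t ∈ E, ∀ x ∈ Icc a b, ∀ n, ud (pol (c t)) x n ≠ 0) →
    ∀ n, ∀ t ∈ E ∩ C, ∀ t' ∈ E ∩ C, ∀ x ∈ Icc a b, ∀ x' ∈ Icc a b,
      (0 < ud (pol (c t)) x n ↔ 0 < ud (pol (c t')) x' n)

/-- FAB. As BAI, for a family. The sets `C` are now the connected components of the members of a
countable basis: an open set of a second countable locally connected space has countably many
components, they are open. -/
def SpecFab : Prop :=
  ∀ (X : Type u) [TopologicalSpace X] [SecondCountableTopology X] [LocallyConnectedSpace X]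
    (d : ℕ), 2 ≤ d → ∀ c : X → Fin (d + 1) → ℝ, Continuous c → (∀ t, c t (Fin.last d) ≠ 0) →
    ∃ (R : Set ℝ) (N : Set X), R.Countable ∧ IsMeagre N ∧ ∀ t ∉ N, ∀ A : Set ℂ,
      IsARD (pol (c t)) A → ∀ (e : ↥A ≃ₜ (Circle × ↥(Ioo (0 : ℝ) 1))) (α : ℝ),
        HasRot (pol (c t)) A e α → α ∈ R

/-- FAC. As COR, for a family. -/
def SpecFac : Prop :=
  ∀ (X : Type u) [TopologicalSpace X] [SecondCountableTopology X] [LocallyConnectedSpace X]
    [BaireSpace X] (d : ℕ), 2 ≤ d → ∀ c : X → Fin (d + 1) → ℝ, Continuous c →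
    (∀ t, c t (Fin.last d) ≠ 0) → ∀ U : Set X, IsOpen U → U.Nonempty →
    (∀ t ∈ U, ∃ A : Set ℂ, IsARD (pol (c t)) A ∧
      Nonempty (↥A ≃ₜ (Circle × ↥(Ioo (0 : ℝ) 1)))) →
    ∃ (V : Set X) (α : ℝ), IsOpen V ∧ V.Nonempty ∧ V ⊆ U ∧ Irrational α ∧
      V ⊆ closure {t | t ∈ V ∧ ∃ (A : Set ℂ) (e : ↥A ≃ₜ (Circle × ↥(Ioo (0 : ℝ) 1))),
        IsARD (pol (c t)) A ∧ HasRot (pol (c t)) A e α}

end Pool.Agent.Lib.MP9fa4ca
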