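import Pool.Agent.Lib.MP_9fa4ca_an.SpecD
import Pool.Agent.Lib.MP_9fa4ca_an.SpecF
import Pool.Agent.Lib.MP_9fa4ca_an.NAT

section
/-!
# MP_9fa4ca_an : COR, locking of the rotation number, by Baire's theorem
-/
set_option autoImplicit false

open Set Topology Filter Complex MeasureTheory

namespace Pool.Agent.Lib.MP9fa4ca

theorem pol_continuous {d : ℕ} (c : Fin (d + 1) → ℝ) : Continuous (pol c) := by
  unfold pol
  fun_prop

theorem specCor (hB : SpecBai) (hS : SpecSem) : SpecCor := by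
  intro d hd U hU hUne hUA
  obtain ⟨R, N, hR, hN, hRN⟩ := hB d hd
  let S : ℝ → Set (Fin (d + 1) → ℝ) := fun α => {c | c ∈ U ∧ Irrational α ∧
    ∃ (A : Set ℂ) (e : ↥A ≃ₜ (Circle × ↥(Ioo (0 : ℝ) 1))),
      IsARD (pol c) A ∧ HasRot (pol c) A e α}
  have hcov : U ⊆ N ∪ ⋃ α ∈ R, S α := by
    intro c hc
    by_cases hcN : c ∈ N
    · exact Or.inl hcN
    · right
      obtain ⟨hlast, A, hA, ⟨e⟩⟩ := hUA c hc
      obtain ⟨α, hα, hrot⟩ := hS (pol c) (pol_continuous c) A hA e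
      have hαR : α ∈ R := hRN c hcN hlast A hA.opn hA.bdd e hA.inv hA.per α hrot
      exact mem_biUnion hαR ⟨hc, hα, A, e, hA, hrot⟩
  have hnot : ¬ IsMeagre (⋃ α ∈ R, S α) := by
    intro h
    exact not_isMeagre_of_isOpen hU hUne ((hN.union h).mono hcov)
  obtain ⟨α, -, hα⟩ := exists_of_not_isMeagre_biUnion hR hnot
  have hint : (interior (closure (S α))).Nonempty := by
    rw [nonempty_iff_ne_empty]
    intro h
    exact hα (IsNowhereDense.isMeagre h)
  have hmeet : ∀ O : Set (Fin (d + 1) → ℝ), IsOpen O → ∀ c ∈ O, c ∈ closure (S α) →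
      (O ∩ S α).Nonempty := fun O hO c hcO hc => mem_closure_iff.1 hc O hO hcO
  obtain ⟨c₀, hc₀⟩ := hint
  obtain ⟨c₁, hc₁, hc₁S⟩ := hmeet _ isOpen_interior c₀ hc₀ (interior_subset hc₀)
  refine ⟨interior (closure (S α)) ∩ U, α, isOpen_interior.inter hU, ⟨c₁, hc₁, hc₁S.1⟩,
    inter_subset_right, hc₁S.2.1, ?_⟩
  intro c hc
  rw [mem_closure_iff]
  intro O hO hcO
  obtain ⟨c', hc', hc'S⟩ := hmeet (O ∩ (interior (closure (S α)) ∩ U))
    (hO.inter (isOpen_interior.inter hU)) c ⟨hcO, hc⟩ (interior_subset hc.1)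
  exact ⟨c', hc'.1, hc'.2, hc'S.2.2⟩

end Pool.Agent.Lib.MP9fa4ca
end

section
/-!
# MP_9fa4ca_an : locking in continuous families
-/
set_option autoImplicit false

open Set Topology Filter Complex MeasureTheory

namespace Pool.Agent.Lib.MP9fa4ca

universe u

open SGNAux in
theorem specSgf (hP : SpecPly) : SpecSgf.{u} := by
  intro X _ d hd c hc hlast C E hCo hCp hCE a b hab hE n
  have hcl : ∀ x : ℝ, Continuous fun t => ud (pol (c t)) x n := fun x =>
    (continuous_ud_left x n).comp hc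
  set U : Set X := {t | ∃ x ∈ Icc a b, 0 < ud (pol (c t)) x n} with hU
  set W : Set X := {t | ∃ x ∈ Icc a b, ud (pol (c t)) x n < 0} with hW
  have hUo : IsOpen U := by
    have : U = ⋃ x ∈ Icc a b, {t | 0 < ud (pol (c t)) x n} := by
      ext t
      simp [hU]
    rw [this]
    exact isOpen_biUnion fun x _ => isOpen_lt continuous_const (hcl x)
  have hWo : IsOpen W := by
    have : W = ⋃ x ∈ Icc a b, {t | ud (pol (c t)) x n < 0} := by
      ext t
      simp [hW]
    rw [this]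
    exact isOpen_biUnion fun x _ => isOpen_lt (hcl x) continuous_const
  have hno : ∀ t ∈ E, t ∈ U → t ∈ W → False := by
    rintro t ht ⟨x, hx, h1⟩ ⟨y, hy, h2⟩
    have hcont : ContinuousOn (fun x : ℝ => ud (pol (c t)) x n) (Icc a b) :=
      (continuous_ud_right (c t) n).continuousOn
    have hpre : IsPreconnected (Icc a b) := isPreconnected_Icc
    obtain ⟨z, hz, hz0⟩ := hpre.intermediate_value hy hx hcont
      (show (0 : ℝ) ∈ Icc (ud (pol (c t)) y n) (ud (pol (c t)) x n) from ⟨h2.le, h1.le⟩)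
    exact hE t ht z hz n hz0
  have hcover : C ⊆ U ∪ W := by
    intro t _
    obtain ⟨x, hx, hne⟩ := hP d hd (c t) (hlast t) a b hab n
    rcases lt_or_gt_of_ne hne with h | h
    · exact Or.inr ⟨x, hx, h⟩
    · exact Or.inl ⟨x, hx, h⟩
  -- `C` does not meet both sets
  have hone : ¬ ((C ∩ U).Nonempty ∧ (C ∩ W).Nonempty) := by
    rintro ⟨h1, h2⟩
    obtain ⟨t, htC, htU, htW⟩ := hCp U W hUo hWo hcover h1 h2
    obtain ⟨t', ⟨ht'U, ht'W⟩, ht'E⟩ := mem_closure_iff.1 (hCE htC) (U ∩ W) (hUo.inter hWo)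
      ⟨htU, htW⟩
    exact hno t' ht'E ht'U ht'W
  have hpos : ∀ t ∈ E ∩ C, ∀ x ∈ Icc a b, ∀ t' ∈ E ∩ C, ∀ x' ∈ Icc a b,
      0 < ud (pol (c t)) x n → 0 < ud (pol (c t')) x' n := by
    intro t ht x hx t' ht' x' hx' h
    by_contra hcon
    have h1 : ud (pol (c t')) x' n < 0 :=
      lt_of_le_of_ne (not_lt.1 hcon) (hE t' ht'.1 x' hx' n)
    exact hone ⟨⟨t, ht.2, x, hx, h⟩, ⟨t', ht'.2, x', hx', h1⟩⟩
  intro t ht t' ht' x hx x' hx'
  exact ⟨hpos t ht x hx t' ht' x' hx', hpos t' ht' x' hx' t ht x hx⟩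

namespace FAMAux

variable {X : Type u} [TopologicalSpace X] {d : ℕ}

/-- the parameters with no sign change on `[a, b]` -/
def EF (c : X → Fin (d + 1) → ℝ) (a b : ℝ) : Set X :=
  {t | ∀ x ∈ Icc a b, ∀ n, ud (pol (c t)) x n ≠ 0}

/-- the exceptional set of parameters -/
def NF (c : X → Fin (d + 1) → ℝ) : Set X :=
  ⋃ q : ℚ × ℚ, (EF c q.1 q.2 \ interior (closure (EF c q.1 q.2)))

theorem NF_meagre (c : X → Fin (d + 1) → ℝ) : IsMeagre (NF c) := by
  apply isMeagre_iUnion
  intro q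
  set E := EF c q.1 q.2
  have h1 : IsClosed (closure E \ interior (closure E)) := by
    rw [sdiff_eq]
    exact isClosed_closure.inter isOpen_interior.isClosed_compl
  have h2 : IsNowhereDense (closure E \ interior (closure E)) := by
    rw [h1.isNowhereDense_iff]
    apply eq_empty_of_forall_notMem
    intro x hx
    have h3 : interior (closure E \ interior (closure E)) ⊆ interior (closure E) :=
      interior_mono sdiff_subset
    exact (interior_subset hx).2 (h3 hx)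
  exact h2.isMeagre.mono (sdiff_subset_sdiff_left subset_closure)

/-- the exceptional rotation numbers, with given data -/
def RF (c : X → Fin (d + 1) → ℝ) (a b : ℚ) (s : X) (k j : ℤ) : Set ℝ :=
  {α | a < b ∧ k ≠ 0 ∧
    ∃ t ∈ EF c a b ∩ connectedComponentIn (interior (closure (EF c a b))) s,
      Tendsto (fun n : ℕ => (sc (ud (pol (c t)) (a : ℝ)) n : ℝ) / n) atTop (𝓝 (2 * (k * α - j)))}

theorem RF_subsingleton [LocallyConnectedSpace X] (hS : SpecSgf.{u}) (hd : 2 ≤ d)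
    {c : X → Fin (d + 1) → ℝ} (hc : Continuous c) (hlast : ∀ t, c t (Fin.last d) ≠ 0)
    (a b : ℚ) (s : X) (k j : ℤ) : (RF c a b s k j).Subsingleton := by
  rintro α ⟨hab, hk, t, ht, hα⟩ β ⟨_, _, t', ht', hβ⟩
  have hab' : (a : ℝ) < b := by exact_mod_cast hab
  have hsgn := hS X d hd c hc hlast (connectedComponentIn (interior (closure (EF c a b))) s)
    (EF c a b) isOpen_interior.connectedComponentIn isPreconnected_connectedComponentIn
    ((connectedComponentIn_subset _ _).trans interior_subset) a b hab' (fun t ht => ht)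
  have ha : (a : ℝ) ∈ Icc (a : ℝ) b := ⟨le_rfl, hab'.le⟩
  have hsc : ∀ n, sc (ud (pol (c t)) (a : ℝ)) n = sc (ud (pol (c t')) (a : ℝ)) n := by
    intro n
    unfold sc
    congr 1
    apply Finset.filter_congr
    intro i _
    rw [hsgn i t ht t' ht' a ha a ha, hsgn (i + 1) t ht t' ht' a ha a ha]
  have h1 : (fun n : ℕ => (sc (ud (pol (c t)) (a : ℝ)) n : ℝ) / n) =
      fun n : ℕ => (sc (ud (pol (c t')) (a : ℝ)) n : ℝ) / n := by
    funext n
    rw [hsc n]
  rw [h1] at hα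
  have h2 := tendsto_nhds_unique hα hβ
  have h3 : (k : ℝ) ≠ 0 := by exact_mod_cast hk
  have h4 : (k : ℝ) * α = k * β := by linarith
  exact mul_left_cancel₀ h3 h4

end FAMAux

open FAMAux in
theorem specFab (hS : SpecSgf.{u}) (hF : SpecFrq) : SpecFab.{u} := by
  intro X _ _ _ d hd c hc hlast
  obtain ⟨D, hDc, hD⟩ := TopologicalSpace.exists_countable_dense X
  refine ⟨⋃ q : ℚ × ℚ, ⋃ s ∈ D, ⋃ m : ℤ × ℤ, RF c q.1 q.2 s m.1 m.2, NF c, ?_, NF_meagre c, ?_⟩
  · exact countable_iUnion fun q => hDc.biUnion fun s _ => countable_iUnion fun m =>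
      (RF_subsingleton hS hd hc hlast _ _ _ _ _).countable
  · intro t htN A hA e α hrot
    obtain ⟨a₀, b₀, hab₀, hud, hfr⟩ := hF (pol (c t)) (pol_continuous _) A hA.opn hA.bdd e hA.inv
      hA.per
    obtain ⟨k, j, hk, htend⟩ := hfr α hrot
    obtain ⟨a, ha1, ha2⟩ := exists_rat_btwn hab₀
    obtain ⟨b, hb1, hb2⟩ := exists_rat_btwn ha2
    have hab : a < b := by exact_mod_cast hb1
    have htE : t ∈ EF c a b := fun x hx n => hud x (ha1.trans_le hx.1) (lt_of_le_of_lt hx.2 hb2) n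
    have htint : t ∈ interior (closure (EF c a b)) := by
      by_contra hcon
      exact htN (mem_iUnion.2 ⟨(a, b), htE, hcon⟩)
    have hcomp : IsOpen (connectedComponentIn (interior (closure (EF c a b))) t) :=
      isOpen_interior.connectedComponentIn
    obtain ⟨s, hsC, hsD⟩ := hD.exists_mem_open hcomp ⟨t, mem_connectedComponentIn htint⟩
    have heq : connectedComponentIn (interior (closure (EF c a b))) s =
        connectedComponentIn (interior (closure (EF c a b))) t :=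
      (connectedComponentIn_eq hsD).symm
    refine mem_iUnion.2 ⟨(a, b), mem_iUnion₂.2 ⟨s, hsC, mem_iUnion.2 ⟨(k, j), hab, hk, t,
      ⟨htE, ?_⟩, ?_⟩⟩⟩
    · show t ∈ connectedComponentIn (interior (closure (EF c a b))) s
      rw [heq]
      exact mem_connectedComponentIn htint
    · exact htend a ha1 ha2

theorem specFac (hB : SpecFab.{u}) (hS : SpecSem) : SpecFac.{u} := by
  intro X _ _ _ _ d hd c hc hlast U hU hUne hUA
  obtain ⟨R, N, hR, hN, hRN⟩ := hB X d hd c hc hlast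
  let S : ℝ → Set X := fun α => {t | t ∈ U ∧ Irrational α ∧
    ∃ (A : Set ℂ) (e : ↥A ≃ₜ (Circle × ↥(Ioo (0 : ℝ) 1))),
      IsARD (pol (c t)) A ∧ HasRot (pol (c t)) A e α}
  have hcov : U ⊆ N ∪ ⋃ α ∈ R, S α := by
    intro t ht
    by_cases htN : t ∈ N
    · exact Or.inl htN
    · right
      obtain ⟨A, hA, ⟨e⟩⟩ := hUA t ht
      obtain ⟨α, hα, hrot⟩ := hS (pol (c t)) (pol_continuous _) A hA e
      exact mem_biUnion (hRN t htN A hA e α hrot) ⟨ht, hα, A, e, hA, hrot⟩
  have hnot : ¬ IsMeagre (⋃ α ∈ R, S α) := by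
    intro h
    exact not_isMeagre_of_isOpen hU hUne ((hN.union h).mono hcov)
  obtain ⟨α, -, hα⟩ := exists_of_not_isMeagre_biUnion hR hnot
  have hint : (interior (closure (S α))).Nonempty := by
    rw [nonempty_iff_ne_empty]
    intro h
    exact hα (IsNowhereDense.isMeagre h)
  have hmeet : ∀ O : Set X, IsOpen O → ∀ t ∈ O, t ∈ closure (S α) →
      (O ∩ S α).Nonempty := fun O hO t htO ht => mem_closure_iff.1 ht O hO htO
  obtain ⟨c₀, hc₀⟩ := hint
  obtain ⟨c₁, hc₁, hc₁S⟩ := hmeet _ isOpen_interior c₀ hc₀ (interior_subset hc₀)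
  refine ⟨interior (closure (S α)) ∩ U, α, isOpen_interior.inter hU, ⟨c₁, hc₁, hc₁S.1⟩,
    inter_subset_right, hc₁S.2.1, ?_⟩
  intro t ht
  rw [mem_closure_iff]
  intro O hO htO
  obtain ⟨t', ht', ht'S⟩ := hmeet (O ∩ (interior (closure (S α)) ∩ U))
    (hO.inter (isOpen_interior.inter hU)) t ⟨htO, ht⟩ (interior_subset ht.1)
  exact ⟨t', ht'.1, ht'.2, ht'S.2.2⟩

end Pool.Agent.Lib.MP9fa4ca
end
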