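import Pool.Agent.Lib.MP_9fa4ca_an.Spec

section
/-!
# MP_9fa4ca_an : conservative Hénon maps on the complex plane, area, lifts
-/
set_option autoImplicit false

open Set Topology Filter Complex MeasureTheory

namespace Pool.Agent.Lib.MP9fa4ca

/-- The map `(x, y) ↦ (p x - b y, x)` in the coordinate `z = x + i y`. -/
def hen (p : ℝ → ℝ) (b : ℝ) (z : ℂ) : ℂ := ⟨p z.re - b * z.im, z.re⟩

@[simp] theorem hen_re (p : ℝ → ℝ) (b : ℝ) (z : ℂ) : (hen p b z).re = p z.re - b * z.im := rfl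

@[simp] theorem hen_im (p : ℝ → ℝ) (b : ℝ) (z : ℂ) : (hen p b z).im = z.re := rfl

theorem continuous_mk {X : Type*} [TopologicalSpace X] {a b : X → ℝ} (ha : Continuous a)
    (hb : Continuous b) : Continuous fun x => (⟨a x, b x⟩ : ℂ) := by
  have : (fun x => (⟨a x, b x⟩ : ℂ)) = fun x => (a x : ℂ) + b x * I := by
    funext x
    apply Complex.ext <;> simp
  rw [this]
  fun_prop

/-- The Hénon map as a homeomorphism. -/
noncomputable def henH (p : ℝ → ℝ) (hp : Continuous p) (b : ℝ) (hb : b ≠ 0) : ℂ ≃ₜ ℂ where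
  toFun := hen p b
  invFun z := ⟨z.im, (p z.im - z.re) / b⟩
  left_inv z := by
    apply Complex.ext
    · simp
    · simp
      field_simp
  right_inv z := by
    apply Complex.ext
    · simp
      field_simp
      ring
    · simp
  continuous_toFun := continuous_mk (by fun_prop) (by fun_prop)
  continuous_invFun := continuous_mk (by fun_prop) (by fun_prop)

@[simp] theorem henH_apply (p : ℝ → ℝ) (hp : Continuous p) (b : ℝ) (hb : b ≠ 0) (z : ℂ) :
    henH p hp b hb z = hen p b z := rfl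

theorem hen_mp (p : ℝ → ℝ) (hp : Continuous p) (b : ℝ) (hb : b = 1 ∨ b = -1) :
    MeasurePreserving (hen p b) volume volume := by
  have h1 : MeasurePreserving (fun q : ℝ × ℝ => (q.1, p q.1 - b * q.2)) (volume.prod volume)
      (volume.prod volume) := by
    refine (MeasurePreserving.id volume).skew_product (g := fun x y => p x - b * y) ?_ ?_
    · exact Continuous.measurable (by fun_prop)
    · refine Filter.Eventually.of_forall fun x => ?_
      rcases hb with rfl | rfl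
      · have := (Measure.measurePreserving_sub_left (volume : Measure ℝ) (p x)).map_eq
        simpa using this
      · have := (measurePreserving_add_left (volume : Measure ℝ) (p x)).map_eq
        simpa using this
  have h2 := (Measure.measurePreserving_swap (μ := (volume : Measure ℝ))
    (ν := (volume : Measure ℝ))).comp h1
  have h3 : MeasurePreserving (fun q : ℝ × ℝ => (p q.1 - b * q.2, q.1)) volume volume := h2
  have h4 := (Complex.volume_preserving_equiv_real_prod.symm).comp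
    (h3.comp Complex.volume_preserving_equiv_real_prod)
  exact h4

theorem volume_image (p : ℝ → ℝ) (hp : Continuous p) (b : ℝ) (hb : b = 1 ∨ b = -1) (hb0 : b ≠ 0)
    (U : Set ℂ) (hU : IsOpen U) : volume (henH p hp b hb0 '' U) = volume U := by
  have h := (hen_mp p hp b hb).measure_preimage
    ((henH p hp b hb0).isOpenMap U hU).measurableSet.nullMeasurableSet
  rw [← h]
  congr 1
  exact (preimage_image_eq U (henH p hp b hb0).injective)

/-- two numbers with the same imaginary part -/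
theorem div_slit_of_im {a b : ℂ} (hb : b ≠ 0) (him : a.im = b.im) (h : b.im = 0 → a = b) :
    a / b ∈ slitPlane := by
  by_cases hb0 : b.im = 0
  · rw [h hb0, div_self hb]
    exact one_mem_slitPlane
  · rw [mem_slitPlane_iff]
    by_cases hi : (a / b).im = 0
    · left
      have h1 : a / b = (a / b).re := Complex.ext (by simp) (by simp [hi])
      have h2 : a = (a / b).re * b := by
        rw [← h1, div_mul_cancel₀ _ hb]
      have h3 : a.im = (a / b).re * b.im := by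
        conv_lhs => rw [h2]
        simp
      rw [him] at h3
      have h4 : (a / b).re = 1 := by
        have : ((a / b).re - 1) * b.im = 0 := by linarith
        rcases mul_eq_zero.1 this with h | h
        · linarith
        · exact absurd h hb0
      rw [h4]
      norm_num
    · right
      exact hi

namespace Ann

variable {A : Set ℂ} (Q : Ann A)

/-- Lifts of homeomorphisms. -/
theorem exists_lift (f : ℂ ≃ₜ ℂ) (hf : ∀ z, f z ∈ A ↔ z ∈ A) :
    ∃ F : ℝ × ℝ ≃ₜ ℝ × ℝ, (∀ w, Q.P (F w) = f (Q.P w)) ∧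
      ∃ k : ℤ, ∀ w, F (T w) = ((F w).1 + k, (F w).2) := by
  have hf' : ∀ z ∈ A, f.symm z ∈ A := fun z hz => by
    rw [← hf, Homeomorph.apply_symm_apply]
    exact hz
  obtain ⟨v₀, hv₀⟩ := Q.surj (f (Q.P 0)) ((hf _).2 (Q.mem _))
  obtain ⟨F, hF, hF0, hFP⟩ := Q.lift (ℝ × ℝ) (fun w => f (Q.P w)) (f.continuous.comp Q.cP)
    (fun w => (hf _).2 (Q.mem w)) 0 v₀ hv₀
  obtain ⟨G, hG, hG0, hGP⟩ := Q.lift (ℝ × ℝ) (fun w => f.symm (Q.P w))
    (f.symm.continuous.comp Q.cP) (fun w => hf' _ (Q.mem w)) v₀ 0 (by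
      rw [hv₀, Homeomorph.symm_apply_apply])
  have h1 : (fun w => G (F w)) = id := by
    refine Q.lift_unique _ _ (hG.comp hF) continuous_id (fun w => ?_) 0 ?_
    · rw [hGP, hFP, Homeomorph.symm_apply_apply, id]
    · rw [hF0, hG0, id]
  have h2 : (fun w => F (G w)) = id := by
    refine Q.lift_unique _ _ (hF.comp hG) continuous_id (fun w => ?_) v₀ ?_
    · rw [hFP, hGP, Homeomorph.apply_symm_apply, id]
    · rw [hG0, hF0, id]
  refine ⟨{ toFun := F, invFun := G, left_inv := congrFun h1, right_inv := congrFun h2,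
            continuous_toFun := hF, continuous_invFun := hG }, hFP, ?_⟩
  have h3 : ∀ w, ∃ k : ℤ, (F (T w)).1 - (F w).1 = k := by
    intro w
    obtain ⟨k, hk⟩ := Q.inj (F w) (F (T w)) (by rw [hFP, hFP, Q.per])
    exact ⟨k, by rw [hk]; simp⟩
  obtain ⟨k, hk⟩ := int_const (fun w => (F (T w)).1 - (F w).1)
    (((hF.comp T.continuous).fst).sub hF.fst) h3
  refine ⟨k, fun w => ?_⟩
  obtain ⟨j, hj⟩ := Q.inj (F w) (F (T w)) (by rw [hFP, hFP, Q.per])
  have := hk w
  show F (T w) = _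
  rw [hj] at this ⊢
  simp only [add_sub_cancel_left] at this
  rw [this]
  rfl

end Ann

end Pool.Agent.Lib.MP9fa4ca
end

section
/-!
# Module CUT: a crosscut gives a cut
-/
set_option autoImplicit false

open Set Topology Filter Complex

namespace Pool.Agent.Lib.MP9fa4ca

namespace CUTAux

/-- the integer values of `ψ` with integer steps -/
theorem iter {ψ : ℝ × ℝ → ℝ} {m : ℤ} (h : ∀ w, ψ (T w) = ψ w + m) (w : ℝ × ℝ) (k : ℤ) :
    ψ (w.1 + k, w.2) = ψ w + k * m := by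
  induction k using Int.induction_on with
  | zero => simp
  | succ n ih =>
    have := h (w.1 + n, w.2)
    simp only [T_apply] at this
    push_cast at ih ⊢
    rw [← add_assoc, this, ih]
    ring
  | pred n ih =>
    have := h (w.1 + (-n - 1), w.2)
    simp only [T_apply] at this
    push_cast at ih ⊢
    have e : w.1 + (-(n : ℝ) - 1) + 1 = w.1 + -n := by ring
    rw [e, ih] at this
    linarith

end CUTAux

theorem specCut : SpecCut := by
  intro A Q c d s₀ s₁ hd hlt hz₀ hnu₀ hz₁ hnu₁ hseg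
  have hpi := Real.pi_pos
  -- the function `g`
  have hg : Q.Deg (fun z => (z - (c + s₀ * d)) * (z - (c + s₁ * d))⁻¹) (Q.nu (c + s₀ * d)) := by
    have h1 := (Ann.nu_deg (Q := Q) hz₀).mul (Ann.nu_deg (Q := Q) hz₁).inv
    rw [hnu₁, neg_zero, add_zero] at h1
    exact h1
  set m : ℤ := Q.nu (c + s₀ * d) with hm
  obtain ⟨L, hL, hLe, hLm⟩ := hg
  -- `g` is negative exactly on the segment
  have hneg : ∀ z ∈ A, (∃ r : ℝ, r < 0 ∧ (z - (c + s₀ * d)) * (z - (c + s₁ * d))⁻¹ = r) ↔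
      ∃ s : ℝ, s₀ < s ∧ s < s₁ ∧ z = c + s * d := by
    intro z hz
    have hz1 : z - (c + s₁ * d) ≠ 0 := fun h => hz₁ (by rwa [← sub_eq_zero.1 h])
    constructor
    · rintro ⟨r, hr, h⟩
      have h1 : z - (c + s₀ * d) = r * (z - (c + s₁ * d)) := by
        rw [← h, mul_assoc, inv_mul_cancel₀ hz1, mul_one]
      have hr1 : (1 - r : ℝ) ≠ 0 := by linarith
      have hr1' : (1 - r : ℂ) ≠ 0 := by exact_mod_cast hr1
      refine ⟨(s₀ - r * s₁) / (1 - r), ?_, ?_, ?_⟩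
      · rw [lt_div_iff₀ (by linarith)]
        nlinarith
      · rw [div_lt_iff₀ (by linarith)]
        nlinarith
      · push_cast
        field_simp
        linear_combination h1
    · rintro ⟨s, h0, h1, rfl⟩
      refine ⟨(s - s₀) / (s - s₁), div_neg_of_pos_of_neg (by linarith) (by linarith), ?_⟩
      have h2 : (s : ℂ) - s₁ ≠ 0 := by
        have : s - s₁ ≠ 0 := by linarith
        exact_mod_cast this
      rw [← div_eq_mul_inv]
      push_cast
      have e1 : c + (s : ℂ) * d - (c + s₀ * d) = (s - s₀) * d := by ring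
      have e2 : c + (s : ℂ) * d - (c + s₁ * d) = (s - s₁) * d := by ring
      rw [e1, e2, mul_div_mul_right _ _ hd]
  -- the angle
  let ψ : ℝ × ℝ → ℝ := fun w => (L w).im / (2 * Real.pi) - 1 / 2
  have hψ : Continuous ψ := by fun_prop
  have hψT : ∀ w, ψ (T w) = ψ w + m := by
    intro w
    simp only [ψ]
    rw [hLm]
    have : (L w + m * (2 * Real.pi * I)).im = (L w).im + m * (2 * Real.pi) := by simp
    rw [this]
    field_simp
    ring
  have hψint : ∀ w, (∃ n : ℤ, ψ w = n) ↔ ∃ s : ℝ, s₀ < s ∧ s < s₁ ∧ Q.P w = c + s * d := by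
    intro w
    have hLe' : exp (L w) = (Q.P w - (c + s₀ * d)) * (Q.P w - (c + s₁ * d))⁻¹ := hLe w
    rw [← hneg _ (Q.mem w), ← hLe']
    constructor
    · rintro ⟨n, hn⟩
      refine ⟨-Real.exp (L w).re, neg_neg_of_pos (Real.exp_pos _), ?_⟩
      have h1 : (L w).im = Real.pi + n * (2 * Real.pi) := by
        simp only [ψ] at hn
        field_simp at hn
        linarith
      have h2 : L w = (L w).re + Real.pi * I + n * (2 * Real.pi * I) := by
        apply Complex.ext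
        · simp
        · simp [h1]
      rw [h2, exp_add, exp_add, exp_pi_mul_I, exp_int_mul, exp_two_pi_mul_I]
      simp
    · rintro ⟨r, hr, h⟩
      have h1 : exp (L w) = exp ((Real.log (-r) : ℝ) + Real.pi * I) := by
        rw [h, exp_add, exp_pi_mul_I, ← ofReal_exp, Real.exp_log (by linarith)]
        push_cast
        ring
      obtain ⟨n, hn⟩ := exp_eq_exp_iff_exists_int.1 h1
      refine ⟨n, ?_⟩
      simp only [ψ]
      rw [hn]
      simp
      field_simp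
      ring
  -- the lift of the segment
  let ρ : ℝ → ℝ := fun s => s₀ + (s₁ - s₀) * (1 + Real.exp (-s))⁻¹
  have hρc : Continuous ρ := by
    refine continuous_const.add (continuous_const.mul (Continuous.inv₀ (by fun_prop) fun s => ?_))
    have := Real.exp_pos (-s)
    positivity
  have hρ0 : ∀ s, s₀ < ρ s ∧ ρ s < s₁ := by
    intro s
    have h1 : 0 < (1 + Real.exp (-s))⁻¹ := (kap s).2.1
    have h2 : (1 + Real.exp (-s))⁻¹ < 1 := (kap s).2.2
    simp only [ρ]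
    constructor
    · nlinarith
    · nlinarith
  have hρs : ∀ s, s₀ < s → s < s₁ → ∃ x, ρ x = s := by
    intro s h0 h1
    obtain ⟨x, hx⟩ := kap.surjective ⟨(s - s₀) / (s₁ - s₀), div_pos (by linarith) (by linarith),
      (div_lt_one (by linarith)).2 (by linarith)⟩
    refine ⟨x, ?_⟩
    have h2 : (1 + Real.exp (-x))⁻¹ = (s - s₀) / (s₁ - s₀) := congrArg Subtype.val hx
    simp only [ρ]
    rw [h2]
    have : s₁ - s₀ ≠ 0 := by linarith
    field_simp
    ring
  obtain ⟨v₀, hv₀⟩ := Q.surj (c + ρ 0 * d) (hseg _ (hρ0 0).1 (hρ0 0).2)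
  obtain ⟨σ, hσ, hσ0, hσP⟩ := Q.lift ℝ (fun s => c + ρ s * d)
    (by have := hρc; fun_prop) (fun s => hseg _ (hρ0 s).1 (hρ0 s).2) 0 v₀ hv₀
  obtain ⟨j, hj⟩ := int_const (fun s => ψ (σ s)) (hψ.comp hσ)
    (fun s => (hψint _).2 ⟨ρ s, (hρ0 s).1, (hρ0 s).2, hσP s⟩)
  -- all integer values of `ψ`
  have hval : ∀ w, (∃ n : ℤ, ψ w = n) → ∃ (k : ℤ) (s : ℝ), w = ((σ s).1 + k, (σ s).2) := by
    intro w hw
    obtain ⟨s, h0, h1, h⟩ := (hψint w).1 hw
    obtain ⟨x, hx⟩ := hρs s h0 h1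
    have h2 : Q.P (σ x) = Q.P w := by rw [hσP, h, hx]
    obtain ⟨k, hk⟩ := Q.inj _ _ h2
    exact ⟨k, x, hk⟩
  have hval' : ∀ w, (∃ n : ℤ, ψ w = n) → ∃ k : ℤ, ψ w = j + k * m := by
    intro w hw
    obtain ⟨k, s, h⟩ := hval w hw
    refine ⟨k, ?_⟩
    rw [h, CUTAux.iter hψT, hj]
  -- `m = ±1`
  have hsurj : ∃ w, ψ w = j + 1 := by
    have hm' : m ≠ 0 := hnu₀
    have h1 : ψ (σ 0) = j := hj 0
    have h2 := CUTAux.iter hψT (σ 0) m
    have h3 : (1 : ℝ) ≤ (m : ℝ) * m := by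
      have : (1 : ℤ) ≤ m * m := by
        rcases lt_or_gt_of_ne hm' with h | h <;> nlinarith
      exact_mod_cast this
    have h4 : (j : ℝ) + 1 ∈ range ψ := by
      have hpre : IsPreconnected (range ψ) := by
        rw [← image_univ]
        exact isPreconnected_univ.image _ hψ.continuousOn
      exact hpre.ordConnected.out ⟨_, rfl⟩ ⟨_, rfl⟩ ⟨by rw [h1]; linarith, by
        rw [h2, h1]; linarith⟩
    exact h4
  have hmm : (m : ℝ) * m = 1 := by
    obtain ⟨w, hw⟩ := hsurj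
    obtain ⟨k, hk⟩ := hval' w ⟨j + 1, by rw [hw]; push_cast; ring⟩
    have h1 : (k : ℝ) * m = 1 := by linarith
    have h2 : k * m = 1 := by exact_mod_cast h1
    rcases Int.eq_one_or_neg_one_of_mul_eq_one' h2 with ⟨-, h⟩ | ⟨-, h⟩ <;> rw [h] <;> norm_num
  have hm0 : (m : ℝ) ≠ 0 := fun h => by rw [h] at hmm; norm_num at hmm
  refine ⟨fun w => m * (ψ w - j), ⟨by fun_prop, fun w => ?_, ?_⟩, fun w => ?_⟩
  · rw [hψT]
    linear_combination hmm
  · have : {w | (m : ℝ) * (ψ w - j) = 0} = range σ := by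
      ext w
      simp only [mem_ofPred_eq, mem_range]
      constructor
      · intro h
        have h1 : ψ w = j := by
          rcases mul_eq_zero.1 h with h | h
          · exact absurd h hm0
          · linarith
        obtain ⟨k, s, h2⟩ := hval w ⟨j, h1⟩
        have h3 := CUTAux.iter hψT (σ s) k
        rw [← h2, h1, hj s] at h3
        have h4 : (k : ℝ) * m = 0 := by linarith
        have h5 : (k : ℝ) = 0 := (mul_eq_zero.1 h4).resolve_right hm0
        refine ⟨s, ?_⟩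
        rw [h2, h5]
        simp
      · rintro ⟨s, rfl⟩
        rw [hj]
        simp
    rw [this, ← image_univ]
    exact isPreconnected_univ.image _ hσ.continuousOn
  · rw [← hψint]
    constructor
    · rintro ⟨n, hn⟩
      refine ⟨j + m * n, ?_⟩
      push_cast
      linear_combination m * hn - (ψ w - j) * hmm
    · rintro ⟨n, hn⟩
      refine ⟨m * (n - j), ?_⟩
      beta_reduce
      rw [hn]
      push_cast
      ring

end Pool.Agent.Lib.MP9fa4ca
end

section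
/-!
# Module CRS: a line which meets the hole contains a crosscut
-/
set_option autoImplicit false

open Set Topology Filter Complex

namespace Pool.Agent.Lib.MP9fa4ca

theorem specCrs (hL : SpecLoc) (hF : SpecFar) : SpecCrs := by
  intro A Q hA hb c d hd hne
  have hline : Continuous fun s : ℝ => c + s * d := by fun_prop
  obtain ⟨R, hR⟩ := hF A Q hb
  have hbig : ∃ B : ℝ, ∀ s : ℝ, B < |s| → R ≤ ‖c + s * d‖ := by
    have hd' : 0 < ‖d‖ := norm_pos_iff.2 hd
    refine ⟨(|R| + ‖c‖) / ‖d‖, fun s hs => ?_⟩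
    rw [div_lt_iff₀ hd'] at hs
    have h1 : ‖(s : ℂ) * d‖ = |s| * ‖d‖ := by rw [norm_mul, Complex.norm_real, Real.norm_eq_abs]
    have h2 : ‖(s : ℂ) * d‖ ≤ ‖c + s * d‖ + ‖c‖ := by
      have h3 := norm_sub_le (c + s * d) c
      rwa [add_sub_cancel_left] at h3
    have h4 := le_abs_self R
    linarith
  obtain ⟨B, hB⟩ := hbig
  let S : Set ℝ := {s | c + s * d ∉ A ∧ Q.nu (c + s * d) ≠ 0}
  have hloc : ∀ s : ℝ, c + s * d ∉ A → ∃ ε : ℝ, 0 < ε ∧ ∀ s' : ℝ, |s' - s| < ε →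
      c + s' * d ∉ A → Q.nu (c + s' * d) = Q.nu (c + s * d) := by
    intro s hs
    obtain ⟨ε, hε, h⟩ := hL A Q _ hs
    have h1 : ∀ᶠ s' : ℝ in 𝓝 s, ‖(c + s' * d) - (c + s * d)‖ < ε := by
      have h2 : Tendsto (fun s' : ℝ => ‖(c + s' * d) - (c + s * d)‖) (𝓝 s) (𝓝 0) := by
        have h3 : Continuous fun s' : ℝ => ‖(c + s' * d) - (c + s * d)‖ := by fun_prop
        have h4 := h3.tendsto s
        simpa using h4
      exact h2.eventually (gt_mem_nhds hε)
    obtain ⟨η, hη, h5⟩ := Metric.eventually_nhds_iff.1 h1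
    refine ⟨η, hη, fun s' hs' hA' => h _ hA' (h5 ?_)⟩
    rwa [Real.dist_eq]
  have hScl : IsClosed S := by
    rw [← isOpen_compl_iff, isOpen_iff_mem_nhds]
    intro s hs
    by_cases hsA : c + s * d ∈ A
    · have h1 : ∀ᶠ s' : ℝ in 𝓝 s, c + s' * d ∈ A := hline.continuousAt (hA.mem_nhds hsA)
      exact h1.mono fun s' hs' h => h.1 hs'
    · have h0 : Q.nu (c + s * d) = 0 := by
        by_contra h
        exact hs ⟨hsA, h⟩
      obtain ⟨ε, hε, h⟩ := hloc s hsA
      refine Filter.mem_of_superset (Metric.ball_mem_nhds s hε) fun s' hs' h' => h'.2 ?_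
      rw [h s' (by rwa [Metric.mem_ball, Real.dist_eq] at hs') h'.1, h0]
  have hSbd : ∀ s ∈ S, |s| ≤ B := fun s hs => by
    by_contra h
    exact hs.2 (hR _ (hB s (not_le.1 h))).2
  have hSbdd : BddAbove S := ⟨B, fun s hs => (le_abs_self s).trans (hSbd s hs)⟩
  have hSne : S.Nonempty := hne
  have hs₀ : sSup S ∈ S := hScl.csSup_mem hSne hSbdd
  obtain ⟨ε, hε, hloc0⟩ := hloc (sSup S) hs₀.1
  have hgt : ∀ s, sSup S < s → s ∉ S := fun s hs h => absurd (le_csSup hSbdd h) (not_le.2 hs)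
  have hnear : ∀ s : ℝ, sSup S < s → s < sSup S + ε → c + s * d ∈ A := by
    intro s h1 h2
    by_contra h
    have h3 := hloc0 s (by rw [abs_of_pos (sub_pos.2 h1)]; linarith) h
    exact hgt s h1 ⟨h, by rw [h3]; exact hs₀.2⟩
  let S₁ : Set ℝ := {s | sSup S + ε / 2 ≤ s ∧ c + s * d ∉ A}
  have hS₁cl : IsClosed S₁ :=
    isClosed_Ici.inter (hA.isClosed_compl.preimage hline)
  have hS₁ne : S₁.Nonempty := by
    refine ⟨max (sSup S + ε / 2) (|B| + 1), le_max_left _ _, ?_⟩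
    refine (hR _ (hB _ ?_)).1
    have h1 := le_max_right (sSup S + ε / 2) (|B| + 1)
    have h2 := le_abs_self (max (sSup S + ε / 2) (|B| + 1))
    have h3 := le_abs_self B
    linarith
  have hS₁bd : BddBelow S₁ := ⟨sSup S + ε / 2, fun s hs => hs.1⟩
  have hs₁ : sInf S₁ ∈ S₁ := hS₁cl.csInf_mem hS₁ne hS₁bd
  have hlt : sSup S < sInf S₁ := by
    have := hs₁.1
    linarith
  refine ⟨sSup S, sInf S₁, hlt, hs₀.1, hs₀.2, hs₁.2, ?_, fun s h1 h2 => ?_⟩
  · by_contra h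
    exact hgt _ hlt ⟨hs₁.2, h⟩
  · by_contra h
    by_cases h3 : sSup S + ε / 2 ≤ s
    · exact absurd (csInf_le hS₁bd ⟨h3, h⟩) (not_le.2 h2)
    · exact h (hnear s h1 (by linarith))

end Pool.Agent.Lib.MP9fa4ca
end

section
/-!
# MP_9fa4ca_an : the hole is invariant; it meets a line of zeros of `p`, or the diagonal
-/
set_option autoImplicit false

open Set Topology Filter Complex MeasureTheory

namespace Pool.Agent.Lib.MP9fa4ca

/-- HCP. The hole is connected. -/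
def SpecHcp : Prop :=
  ∀ (A : Set ℂ) (Q : Ann A), IsOpen A → Bornology.IsBounded A →
    IsPreconnected {w : ℂ | w ∉ A ∧ Q.nu w ≠ 0}

theorem iterC {L : ℝ × ℝ → ℂ} {m : ℂ} (h : ∀ w, L (T w) = L w + m) (w : ℝ × ℝ) (k : ℤ) :
    L (w.1 + k, w.2) = L w + k * m := by
  induction k using Int.induction_on with
  | zero => simp
  | succ n ih =>
    have := h (w.1 + n, w.2)
    simp only [T_apply] at this
    push_cast at ih ⊢
    rw [← add_assoc, this, ih]
    ring
  | pred n ih =>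
    have := h (w.1 + (-n - 1), w.2)
    simp only [T_apply] at this
    push_cast at ih ⊢
    have e : w.1 + (-(n : ℝ) - 1) + 1 = w.1 + -n := by ring
    rw [e, ih] at this
    linear_combination -this

namespace Ann

variable {A : Set ℂ} (Q : Ann A)

theorem deg_const {c : ℂ} (hc : c ≠ 0) : Q.Deg (fun _ => c) 0 :=
  ⟨fun _ => log c, continuous_const, fun _ => exp_log hc, fun _ => by simp⟩

/-- the hole -/
def hole : Set ℂ := {w | w ∉ A ∧ Q.nu w ≠ 0}

variable {Q}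

theorem isClosed_hole (hL : SpecLoc) (hA : IsOpen A) : IsClosed Q.hole := by
  rw [← isOpen_compl_iff, isOpen_iff_mem_nhds]
  intro w hw
  by_cases hwA : w ∈ A
  · exact Filter.mem_of_superset (hA.mem_nhds hwA) fun z hz h => h.1 hz
  · have h0 : Q.nu w = 0 := by
      by_contra h
      exact hw ⟨hwA, h⟩
    obtain ⟨ε, hε, h⟩ := hL A Q w hwA
    refine Filter.mem_of_superset (Metric.ball_mem_nhds w hε) fun z hz h' => h'.2 ?_
    rw [h z h'.1 (by rwa [Metric.mem_ball, dist_eq_norm] at hz), h0]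

theorem isCompact_hole (hL : SpecLoc) (hF : SpecFar) (hA : IsOpen A)
    (hb : Bornology.IsBounded A) : IsCompact Q.hole := by
  refine Metric.isCompact_of_isClosed_isBounded (isClosed_hole hL hA) ?_
  obtain ⟨R, hR⟩ := hF A Q hb
  refine (Metric.isBounded_ball (x := (0 : ℂ)) (r := R)).subset fun w hw => ?_
  rw [mem_ball_zero_iff]
  by_contra h
  exact hw.2 (hR w (not_lt.1 h)).2

theorem deg_comp (f : ℂ ≃ₜ ℂ) (F : ℝ × ℝ ≃ₜ ℝ × ℝ) (hFP : ∀ w, Q.P (F w) = f (Q.P w)) {k : ℤ}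
    (hk : ∀ w, F (T w) = ((F w).1 + k, (F w).2)) {φ : ℂ → ℂ} {m : ℤ} (h : Q.Deg φ m) :
    Q.Deg (fun z => φ (f z)) (k * m) := by
  obtain ⟨L, hL, hLe, hLm⟩ := h
  refine ⟨fun w => L (F w), hL.comp F.continuous, fun w => by rw [hLe, hFP], fun w => ?_⟩
  beta_reduce
  rw [hk, iterC hLm]
  push_cast
  ring

/-- The degrees of `f z - f w`. -/
theorem nu_rel {p : ℝ → ℝ} (hp : Continuous p) {σ : ℤ} (hσ : σ = 1 ∨ σ = -1) (hσ0 : (σ : ℝ) ≠ 0)
    (hf : ∀ z, henH p hp σ hσ0 z ∈ A ↔ z ∈ A) (F : ℝ × ℝ ≃ₜ ℝ × ℝ)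
    (hFP : ∀ w, Q.P (F w) = henH p hp σ hσ0 (Q.P w)) {k : ℤ}
    (hk : ∀ w, F (T w) = ((F w).1 + k, (F w).2)) (w : ℂ) (hw : w ∉ A) :
    σ * Q.nu w = k * Q.nu (henH p hp σ hσ0 w) := by
  have hfw : henH p hp σ hσ0 w ∉ A := fun h => hw ((hf w).1 h)
  have h1 := deg_comp _ F hFP hk (nu_deg (Q := Q) hfw)
  refine Deg.unique (Q := Q) ?_ h1
  have hne : ∀ z ∈ A, z - w ≠ 0 := fun z hz h => hw (by rwa [sub_eq_zero.1 h] at hz)
  have hcont : ContinuousOn (fun z => henH p hp σ hσ0 z - henH p hp σ hσ0 w) A :=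
    ((henH p hp σ hσ0).continuous.sub continuous_const).continuousOn
  rcases hσ with rfl | rfl
  · -- b = 1
    have hI : Q.Deg (fun z => I * (z - w)) (0 + Q.nu w) := (Q.deg_const I_ne_zero).mul (nu_deg hw)
    have hne' : ∀ z ∈ A, I * (z - w) ≠ 0 := fun z hz => mul_ne_zero I_ne_zero (hne z hz)
    have h2 : Q.Deg (fun z => (henH p hp ((1 : ℤ) : ℝ) hσ0 z - henH p hp ((1 : ℤ) : ℝ) hσ0 w) /
        (I * (z - w))) 0 := by
      refine deg_of_slit (hcont.div (by fun_prop) hne') fun z hz => ?_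
      refine div_slit_of_im (hne' z hz) (by simp) fun h => ?_
      have h3 : z.re = w.re := by
        have : z.re - w.re = 0 := by simpa using h
        linarith
      apply Complex.ext
      · simp [h3]
      · simp
    have h3 := h2.mul hI
    rw [show (1 : ℤ) * Q.nu w = 0 + (0 + Q.nu w) by ring]
    exact h3.congr fun z hz => div_mul_cancel₀ _ (hne' z hz)
  · -- b = -1
    have hI : Q.Deg (fun z => I * (starRingEnd ℂ) (z - w)) (0 + -Q.nu w) :=
      (Q.deg_const I_ne_zero).mul (nu_deg hw).conj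
    have hne' : ∀ z ∈ A, I * (starRingEnd ℂ) (z - w) ≠ 0 := fun z hz =>
      mul_ne_zero I_ne_zero ((map_ne_zero _).2 (hne z hz))
    have h2 : Q.Deg (fun z => (henH p hp ((-1 : ℤ) : ℝ) hσ0 z - henH p hp ((-1 : ℤ) : ℝ) hσ0 w) /
        (I * (starRingEnd ℂ) (z - w))) 0 := by
      refine deg_of_slit (hcont.div (Continuous.continuousOn ?_) hne') fun z hz => ?_
      · exact continuous_const.mul (continuous_conj.comp (by fun_prop))
      refine div_slit_of_im (hne' z hz) (by simp) fun h => ?_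
      have h3 : z.re = w.re := by
        have : z.re - w.re = 0 := by simpa using h
        linarith
      apply Complex.ext
      · simp [h3]
        ring
      · simp
    have h3 := h2.mul hI
    rw [show (-1 : ℤ) * Q.nu w = 0 + (0 + -Q.nu w) by ring]
    exact h3.congr fun z hz => div_mul_cancel₀ _ (hne' z hz)

end Ann

theorem hcn_of_hcp (hP : SpecHcp) (hL : SpecLoc) : SpecHcn := by
  intro A Q hA hb w w' hw hw' hn hn'
  refine (hP A Q hA hb).constant (f := Q.nu) ?_ ⟨hw, hn⟩ ⟨hw', hn'⟩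
  intro z hz
  obtain ⟨ε, hε, h⟩ := hL A Q z hz.1
  refine ContinuousWithinAt.congr_of_eventuallyEq (f := fun _ => Q.nu z)
    continuousWithinAt_const ?_ rfl
  refine Filter.mem_of_superset (inter_mem_nhdsWithin _ (Metric.ball_mem_nhds z hε)) ?_
  rintro v ⟨hv, hv'⟩
  exact h v hv.1 (by rwa [Metric.mem_ball, dist_eq_norm] at hv')

namespace Ann

variable {A : Set ℂ} {Q : Ann A}

/-- The hole is invariant, and the lift commutes with `T` as the sign says. -/
theorem hole_inv (hH : SpecHne) (hC : SpecHcn) {p : ℝ → ℝ} (hp : Continuous p) {σ : ℤ}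
    (hσ : σ = 1 ∨ σ = -1) (hσ0 : (σ : ℝ) ≠ 0) (hA : IsOpen A) (hb : Bornology.IsBounded A)
    (hf : ∀ z, henH p hp σ hσ0 z ∈ A ↔ z ∈ A) (F : ℝ × ℝ ≃ₜ ℝ × ℝ)
    (hFP : ∀ w, Q.P (F w) = henH p hp σ hσ0 (Q.P w)) {k : ℤ}
    (hk : ∀ w, F (T w) = ((F w).1 + k, (F w).2)) :
    k = σ ∧ Q.hole.Nonempty ∧ ∀ w ∈ Q.hole, henH p hp σ hσ0 w ∈ Q.hole := by
  have hσ' : σ ≠ 0 := by rcases hσ with rfl | rfl <;> norm_num
  have hinv : ∀ w ∈ Q.hole, henH p hp σ hσ0 w ∈ Q.hole := by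
    intro w hw
    refine ⟨fun h => hw.1 ((hf w).1 h), fun h => ?_⟩
    have h1 := nu_rel hp hσ hσ0 hf F hFP hk w hw.1
    rw [h, mul_zero] at h1
    exact (mul_ne_zero hσ' hw.2) h1
  obtain ⟨w, hw⟩ := hH A Q hA hb
  have h1 := nu_rel hp hσ hσ0 hf F hFP hk w hw.1
  have h2 := hinv w hw
  rw [← hC A Q hA hb w _ hw.1 h2.1 hw.2 h2.2] at h1
  exact ⟨(mul_right_cancel₀ hw.2 h1).symm, ⟨w, hw⟩, hinv⟩

end Ann

/-- A compact connected invariant set has a point where the displacement is zero. -/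
theorem exists_zero {K : Set ℂ} (hK : IsCompact K) (hpre : IsPreconnected K) (hne : K.Nonempty)
    (φ : ℂ → ℂ) (hφ : ∀ z ∈ K, φ z ∈ K) (y g : ℂ → ℝ) (hy : Continuous y) (hg : Continuous g)
    (h : ∀ z ∈ K, y (φ z) = y z + g z) : ∃ z ∈ K, g z = 0 := by
  have key : ∀ (y g : ℂ → ℝ), Continuous y → Continuous g → (∀ z ∈ K, y (φ z) = y z + g z) →
      ¬ ∀ z ∈ K, 0 < g z := by
    intro y g hy hg h hpos
    obtain ⟨z₀, hz₀, hmin⟩ := hK.exists_isMinOn hne hg.continuousOn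
    obtain ⟨z₁, hz₁, hmax⟩ := hK.exists_isMaxOn hne hy.continuousOn
    have hit : ∀ n : ℕ, φ^[n] z₀ ∈ K ∧ y z₀ + n * g z₀ ≤ y (φ^[n] z₀) := by
      intro n
      induction n with
      | zero => simpa using hz₀
      | succ n ih =>
        rw [Function.iterate_succ_apply']
        refine ⟨hφ _ ih.1, ?_⟩
        rw [h _ ih.1]
        have h2 : g z₀ ≤ g (φ^[n] z₀) := hmin ih.1
        push_cast
        linarith [ih.2]
    obtain ⟨n, hn⟩ := exists_nat_gt ((y z₁ - y z₀) / g z₀)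
    rw [div_lt_iff₀ (hpos _ hz₀)] at hn
    have h1 : y (φ^[n] z₀) ≤ y z₁ := hmax (hit n).1
    linarith [(hit n).2]
  by_contra hcon
  push Not at hcon
  obtain ⟨z₀, hz₀⟩ := hne
  have hord : (g '' K).OrdConnected := (hpre.image g hg.continuousOn).ordConnected
  rcases lt_or_gt_of_ne (hcon z₀ hz₀) with hlt | hlt
  · refine key (fun z => -y z) (fun z => -g z) hy.neg hg.neg (fun z hz => by
      rw [h z hz]; ring) fun z hz => ?_
    by_contra hz'
    have h1 : (0 : ℝ) ∈ g '' K :=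
      hord.out ⟨z₀, hz₀, rfl⟩ ⟨z, hz, rfl⟩ ⟨hlt.le, by linarith⟩
    obtain ⟨v, hv, hv'⟩ := h1
    exact hcon v hv hv'
  · refine key y g hy hg h fun z hz => ?_
    by_contra hz'
    have h1 : (0 : ℝ) ∈ g '' K :=
      hord.out ⟨z, hz, rfl⟩ ⟨z₀, hz₀, rfl⟩ ⟨by linarith, hlt.le⟩
    obtain ⟨v, hv, hv'⟩ := h1
    exact hcon v hv hv'

end Pool.Agent.Lib.MP9fa4ca
end

section
/-!
# MP_9fa4ca_an : the semiconjugacy to an irrational rotation, for `b = 1`
-/
set_option autoImplicit false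

open Set Topology Filter Complex MeasureTheory

namespace Pool.Agent.Lib.MP9fa4ca

/-- the reflection at the diagonal -/
def refl (z : ℂ) : ℂ := ⟨z.im, z.re⟩

theorem hen_refl (p : ℝ → ℝ) (z : ℂ) : hen p 1 (refl (hen p 1 z)) = refl z := by
  apply Complex.ext
  · simp [refl]
  · simp [refl]

theorem iterate_refl (p : ℝ → ℝ) (z : ℂ) (n : ℕ) :
    (hen p 1)^[n] (refl ((hen p 1)^[n] z)) = refl z := by
  induction n with
  | zero => rfl
  | succ n ih =>
    rw [Function.iterate_succ_apply' (hen p 1) n z, Function.iterate_succ_apply, hen_refl, ih]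

theorem iterate_lift {A : Set ℂ} (Q : Ann A) (f : ℂ → ℂ) (F : ℝ × ℝ → ℝ × ℝ)
    (hFP : ∀ w, Q.P (F w) = f (Q.P w)) (n : ℕ) (w : ℝ × ℝ) : Q.P (F^[n] w) = f^[n] (Q.P w) := by
  induction n generalizing w with
  | zero => rfl
  | succ n ih => rw [Function.iterate_succ_apply, Function.iterate_succ_apply, ih, hFP]

theorem mem_shift {U : Set (ℝ × ℝ)} (hT : ∀ w, w ∈ U ↔ T w ∈ U) (w : ℝ × ℝ) (k : ℤ) :
    (w.1 + k, w.2) ∈ U ↔ w ∈ U := by
  induction k using Int.induction_on with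
  | zero => simp
  | succ n ih =>
    rw [← ih, hT (w.1 + ((n : ℤ) : ℝ), w.2)]
    simp only [T_apply]
    push_cast
    rw [add_assoc]
  | pred n ih =>
    rw [← ih, hT (w.1 + ((-(n : ℤ) - 1 : ℤ) : ℝ), w.2)]
    simp only [T_apply]
    push_cast
    rw [show w.1 + (-(n : ℝ) - 1) + 1 = w.1 + -n by ring]

/-- Recurrence. -/
theorem recur {A : Set ℂ} (Q : Ann A) (hA : IsOpen A) (hb : Bornology.IsBounded A) (f : ℂ ≃ₜ ℂ)
    (hmp : MeasurePreserving f volume volume) (hf : ∀ z, f z ∈ A ↔ z ∈ A)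
    (F : ℝ × ℝ ≃ₜ ℝ × ℝ) (hFP : ∀ w, Q.P (F w) = f (Q.P w)) (q : ℕ)
    (U : Set (ℝ × ℝ)) (hU : IsOpen U) (hne : U.Nonempty) (hT : ∀ w, w ∈ U ↔ T w ∈ U) :
    ∃ w ∈ U, ∃ᶠ n in atTop, (F^[q])^[n] w ∈ U := by
  have hVo : IsOpen (Q.P '' U) := Q.opn U hU
  have hVA : Q.P '' U ⊆ A := by
    rintro _ ⟨w, -, rfl⟩
    exact Q.mem w
  have h1 : MeasurePreserving f (volume.restrict A) (volume.restrict A) := by
    have h := hmp.restrict_preimage hA.measurableSet
    have h2 : f ⁻¹' A = A := by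
      ext z
      exact hf z
    rwa [h2] at h
  have h2 : MeasurePreserving (f^[q]) (volume.restrict A) (volume.restrict A) := h1.iterate q
  have : IsFiniteMeasure ((volume : Measure ℂ).restrict A) :=
    isFiniteMeasure_restrict.2 hb.measure_lt_top.ne
  have h3 : Conservative (f^[q]) ((volume : Measure ℂ).restrict A) := h2.conservative
  have h4 := h3.ae_mem_imp_frequently_image_mem hVo.measurableSet.nullMeasurableSet
  have h5 : ∃ z ∈ Q.P '' U, ∃ᶠ n in atTop, (f^[q])^[n] z ∈ Q.P '' U := by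
    by_contra hcon
    have h6 : (volume.restrict A) (Q.P '' U) = 0 := by
      refine measure_mono_null (fun z hz => ?_) h4
      intro h7
      exact hcon ⟨z, hz, h7 hz⟩
    rw [Measure.restrict_apply hVo.measurableSet, inter_eq_self_of_subset_left hVA] at h6
    exact (hVo.measure_pos volume (hne.image _)).ne' h6
  obtain ⟨z, ⟨w, hw, rfl⟩, h6⟩ := h5
  refine ⟨w, hw, h6.mono fun n hn => ?_⟩
  obtain ⟨v, hv, hv'⟩ := hn
  have h7 : Q.P v = Q.P ((F^[q])^[n] w) := by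
    rw [hv', iterate_lift Q (f^[q]) (F^[q]) (fun w => iterate_lift Q f F hFP q w)]
  obtain ⟨k, hk⟩ := Q.inj _ _ h7
  rw [hk]
  exact (mem_shift hT v k).2 hv

theorem iterFun {h : ℝ × ℝ → ℝ} (hT : ∀ w, h (T w) = h w + 1) (w : ℝ × ℝ) (k : ℤ) :
    h (w.1 + k, w.2) = h w + k := by
  induction k using Int.induction_on with
  | zero => simp
  | succ n ih =>
    have := hT (w.1 + n, w.2)
    simp only [T_apply] at this
    push_cast at ih ⊢
    rw [← add_assoc, this, ih]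
    ring
  | pred n ih =>
    have := hT (w.1 + (-n - 1), w.2)
    simp only [T_apply] at this
    push_cast at ih ⊢
    have e : w.1 + (-(n : ℝ) - 1) + 1 = w.1 + -n := by ring
    rw [e, ih] at this
    linarith

/-- The semiconjugacy. -/
theorem semiconj (hL : SpecLoc) (hF : SpecFar) (hH : SpecHne) (hP : SpecHcp) (hCr : SpecCrs)
    (hCu : SpecCut) (hR : SpecRot) (p : ℝ → ℝ) (hp : Continuous p) (A : Set ℂ) (hA : IsOpen A)
    (hb : Bornology.IsBounded A) (e : ↥A ≃ₜ (Circle × ↥(Ioo (0 : ℝ) 1)))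
    (hf : ∀ z, hen p 1 z ∈ A ↔ z ∈ A) (hper : ∀ z ∈ A, ∀ n : ℕ, 0 < n → (hen p 1)^[n] z ≠ z) :
    ∃ (α : ℝ) (u : ℂ → ℝ), Irrational α ∧ ContinuousOn u A ∧
      ∀ z (hz : z ∈ A) (hz' : hen p 1 z ∈ A),
        (e ⟨hen p 1 z, hz'⟩).1 * Circle.exp (u (hen p 1 z)) =
          Circle.exp (2 * Real.pi * α) * ((e ⟨z, hz⟩).1 * Circle.exp (u z)) := by
  obtain ⟨Q, hQ⟩ := exists_ann hA e
  have hσ0 : ((1 : ℤ) : ℝ) ≠ 0 := by norm_num
  have hf' : ∀ z, henH p hp ((1 : ℤ) : ℝ) hσ0 z ∈ A ↔ z ∈ A := fun z => by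
    rw [henH_apply]
    simpa using hf z
  obtain ⟨F, hFP, k, hk⟩ := Q.exists_lift (henH p hp ((1 : ℤ) : ℝ) hσ0) hf'
  have hFP' : ∀ w, Q.P (F w) = hen p 1 (Q.P w) := fun w => by
    rw [hFP, henH_apply]
    simp
  obtain ⟨hk1, hne, hinv⟩ := Ann.hole_inv (Q := Q) hH (hcn_of_hcp hP hL) hp (Or.inl rfl) hσ0 hA hb
    hf' F hFP hk
  have hFT : ∀ w, F (T w) = T (F w) := fun w => by
    rw [hk, hk1]
    simp
  -- the crosscut on the diagonal
  obtain ⟨z, hz, hz0⟩ := exists_zero (Ann.isCompact_hole hL hF hA hb) (hP A Q hA hb) hne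
    (henH p hp ((1 : ℤ) : ℝ) hσ0) hinv Complex.im (fun z => z.re - z.im) Complex.continuous_im
    (by fun_prop) (fun z _ => by simp)
  have hd : (1 + I : ℂ) ≠ 0 := fun h => by
    have := congrArg Complex.re h
    simp at this
  have hzd : (0 : ℂ) + (z.re : ℂ) * (1 + I) = z := by
    have : z.re = z.im := by linarith
    apply Complex.ext
    · simp
    · simp [this]
  obtain ⟨s₀, s₁, hlt, h1, h2, h3, h4, h5⟩ := hCr A Q hA hb 0 (1 + I) hd
    ⟨z.re, by rw [hzd]; exact hz⟩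
  obtain ⟨θ, hθ, hθi⟩ := hCu A Q 0 (1 + I) s₀ s₁ hd hlt h1 h2 h3 h4 h5
  obtain ⟨α, h, hα, hh, hhT, hhF⟩ := hR θ hθ F hFT
    (by
      intro n hn k w hw hk
      obtain ⟨s, -, -, hs⟩ := (hθi w).1 ⟨0, by rw [hw]; simp⟩
      obtain ⟨s', -, -, hs'⟩ := (hθi (F^[n] w)).1 ⟨k, hk⟩
      have hr : ∀ s : ℝ, refl (0 + s * (1 + I)) = 0 + s * (1 + I) := fun s => by
        apply Complex.ext <;> simp [refl]
      have h6 := iterate_refl p (Q.P w) n
      rw [← iterate_lift Q (hen p 1) F hFP' n w, hs', hr, ← hs',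
        iterate_lift Q (hen p 1) F hFP' n w, ← Function.iterate_add_apply, hs, hr, ← hs] at h6
      exact hper _ (Q.mem w) (n + n) (by omega) h6)
    (by
      intro q _ U hU hne hT
      refine recur Q hA hb (henH p hp ((1 : ℤ) : ℝ) hσ0) ?_ hf' F hFP q U hU hne hT
      have := hen_mp p hp ((1 : ℤ) : ℝ) (Or.inl (by norm_num))
      exact this)
  -- the function `u`
  have hinv' : ∀ w w', Q.P w = Q.P w' → h w - w.1 = h w' - w'.1 := by
    intro w w' he
    obtain ⟨k, hk'⟩ := Q.inj _ _ he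
    rw [hk', iterFun hhT]
    simp only
    ring
  choose! s hs using Q.surj
  have hu : ∀ w, h (s (Q.P w)) - (s (Q.P w)).1 = h w - w.1 := fun w =>
    hinv' _ _ (hs _ (Q.mem w))
  have hmain : ∀ w (hw : Q.P w ∈ A), (e ⟨Q.P w, hw⟩).1 *
      Circle.exp (2 * Real.pi * (h (s (Q.P w)) - (s (Q.P w)).1)) =
        Circle.exp (2 * Real.pi * h w) := by
    intro w hw
    rw [hQ, hu, ← Circle.exp_add]
    congr 1
    ring
  refine ⟨α, fun z => 2 * Real.pi * (h (s z) - (s z).1), hα, ?_, ?_⟩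
  · intro z hz
    obtain ⟨w, rfl⟩ := Q.surj z hz
    refine ContinuousAt.continuousWithinAt ?_
    have hc : Continuous fun w : ℝ × ℝ => 2 * Real.pi * (h w - w.1) := by fun_prop
    rw [ContinuousAt, hu w]
    intro U hU
    rw [Filter.mem_map]
    have h6 : (fun w : ℝ × ℝ => 2 * Real.pi * (h w - w.1)) ⁻¹' U ∈ 𝓝 w := hc.continuousAt hU
    refine Filter.mem_of_superset (Q.opn.image_mem_nhds h6) ?_
    rintro _ ⟨v, hv, rfl⟩
    show 2 * Real.pi * (h (s (Q.P v)) - (s (Q.P v)).1) ∈ U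
    rw [hu v]
    exact hv
  · intro z hz hz'
    obtain ⟨w, rfl⟩ := Q.surj z hz
    have h6 := hmain (F w) (Q.mem _)
    have h7 := hmain w hz
    have h8 : (⟨Q.P (F w), Q.mem (F w)⟩ : A) = ⟨hen p 1 (Q.P w), hz'⟩ :=
      Subtype.ext (hFP' w)
    rw [h8, hFP' w, hhF] at h6
    beta_reduce
    rw [h6, h7, ← Circle.exp_add]
    congr 1
    ring

end Pool.Agent.Lib.MP9fa4ca
end

section
/-!
# MP_9fa4ca_an : all the data of an annular rotation domain, for `b = 1`
-/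
set_option autoImplicit false

open Set Topology Filter Complex MeasureTheory

namespace Pool.Agent.Lib.MP9fa4ca

/-- ROT2. As ROT, with a bound. -/
def SpecRot2 : Prop :=
  ∀ (θ : ℝ × ℝ → ℝ), Cut θ → ∀ F : ℝ × ℝ ≃ₜ ℝ × ℝ, (∀ w, F (T w) = T (F w)) →
    (∀ n : ℕ, 0 < n → ∀ k : ℤ, ∀ w, θ w = 0 → θ (F^[n] w) ≠ k) →
    (∀ q : ℕ, 0 < q → ∀ U : Set (ℝ × ℝ), IsOpen U → U.Nonempty → (∀ w, w ∈ U ↔ T w ∈ U) →
      ∃ w ∈ U, ∃ᶠ n in atTop, (F^[q])^[n] w ∈ U) →
    ∃ (α : ℝ) (h : ℝ × ℝ → ℝ), Irrational α ∧ Continuous h ∧ (∀ w, h (T w) = h w + 1) ∧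
      (∀ w, h (F w) = h w + α) ∧ ∀ w, θ w = 0 → ∀ n : ℕ, |θ (F^[n] w) - n * α| ≤ 1

/-- The data of an annular rotation domain. -/
structure Core (p : ℝ → ℝ) (A : Set ℂ) (e : ↥A ≃ₜ (Circle × ↥(Ioo (0 : ℝ) 1))) where
  Q : Ann A
  F : ℝ × ℝ ≃ₜ ℝ × ℝ
  s₀ : ℝ
  s₁ : ℝ
  α : ℝ
  θ : ℝ × ℝ → ℝ
  h : ℝ × ℝ → ℝ
  he : ∀ w (h : Q.P w ∈ A), (e ⟨Q.P w, h⟩).1 = Circle.exp (2 * Real.pi * w.1)
  lft : ∀ w, Q.P (F w) = hen p 1 (Q.P w)
  comm : ∀ w, F (T w) = T (F w)
  lt : s₀ < s₁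
  notMem₀ : (0 : ℂ) + s₀ * (1 + I) ∉ A
  nu₀ : Q.nu (0 + s₀ * (1 + I)) ≠ 0
  notMem₁ : (0 : ℂ) + s₁ * (1 + I) ∉ A
  nu₁ : Q.nu (0 + s₁ * (1 + I)) = 0
  seg : ∀ s : ℝ, s₀ < s → s < s₁ → (0 : ℂ) + s * (1 + I) ∈ A
  cut : Cut θ
  int : ∀ w, (∃ n : ℤ, θ w = n) ↔ ∃ s : ℝ, s₀ < s ∧ s < s₁ ∧ Q.P w = 0 + s * (1 + I)
  irr : Irrational α
  cont : Continuous h
  hT : ∀ w, h (T w) = h w + 1
  hF : ∀ w, h (F w) = h w + α
  bound : ∀ w, θ w = 0 → ∀ n : ℕ, |θ (F^[n] w) - n * α| ≤ 1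
  rel : ∀ w, w ∉ A → Q.nu w = Q.nu (hen p 1 w)
  diag : ∀ s : ℝ, s₀ < s → s < s₁ → ∀ n : ℕ, 0 < n →
    ((hen p 1)^[n] (0 + s * (1 + I))).re ≠ ((hen p 1)^[n] (0 + s * (1 + I))).im

theorem exists_core (hL : SpecLoc) (hF : SpecFar) (hH : SpecHne) (hP : SpecHcp) (hCr : SpecCrs)
    (hCu : SpecCut) (hR : SpecRot2) (p : ℝ → ℝ) (hp : Continuous p) (A : Set ℂ) (hA : IsOpen A)
    (hb : Bornology.IsBounded A) (e : ↥A ≃ₜ (Circle × ↥(Ioo (0 : ℝ) 1)))
    (hf : ∀ z, hen p 1 z ∈ A ↔ z ∈ A) (hper : ∀ z ∈ A, ∀ n : ℕ, 0 < n → (hen p 1)^[n] z ≠ z) :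
    Nonempty (Core p A e) := by
  obtain ⟨Q, hQ⟩ := exists_ann hA e
  have hσ0 : ((1 : ℤ) : ℝ) ≠ 0 := by norm_num
  have hf' : ∀ z, henH p hp ((1 : ℤ) : ℝ) hσ0 z ∈ A ↔ z ∈ A := fun z => by
    rw [henH_apply]
    simpa using hf z
  obtain ⟨F, hFP, k, hk⟩ := Q.exists_lift (henH p hp ((1 : ℤ) : ℝ) hσ0) hf'
  have hFP' : ∀ w, Q.P (F w) = hen p 1 (Q.P w) := fun w => by
    rw [hFP, henH_apply]
    simp
  obtain ⟨hk1, hne, hinv⟩ := Ann.hole_inv (Q := Q) hH (hcn_of_hcp hP hL) hp (Or.inl rfl) hσ0 hA hb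
    hf' F hFP hk
  have hFT : ∀ w, F (T w) = T (F w) := fun w => by
    rw [hk, hk1]
    simp
  -- the crosscut on the diagonal
  obtain ⟨z, hz, hz0⟩ := exists_zero (Ann.isCompact_hole hL hF hA hb) (hP A Q hA hb) hne
    (henH p hp ((1 : ℤ) : ℝ) hσ0) hinv Complex.im (fun z => z.re - z.im) Complex.continuous_im
    (by fun_prop) (fun z _ => by simp)
  have hd : (1 + I : ℂ) ≠ 0 := fun h => by
    have := congrArg Complex.re h
    simp at this
  have hzd : (0 : ℂ) + (z.re : ℂ) * (1 + I) = z := by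
    have : z.re = z.im := by linarith
    apply Complex.ext
    · simp
    · simp [this]
  obtain ⟨s₀, s₁, hlt, h1, h2, h3, h4, h5⟩ := hCr A Q hA hb 0 (1 + I) hd
    ⟨z.re, by rw [hzd]; exact hz⟩
  obtain ⟨θ, hθ, hθi⟩ := hCu A Q 0 (1 + I) s₀ s₁ hd hlt h1 h2 h3 h4 h5
  have hr : ∀ s : ℝ, refl (0 + s * (1 + I)) = 0 + s * (1 + I) := fun s => by
    apply Complex.ext <;> simp [refl]
  have hdiag : ∀ s : ℝ, s₀ < s → s < s₁ → ∀ n : ℕ, 0 < n →
      ((hen p 1)^[n] (0 + s * (1 + I))).re ≠ ((hen p 1)^[n] (0 + s * (1 + I))).im := by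
    intro s hs0 hs1 n hn heq
    have h6 := iterate_refl p (0 + s * (1 + I)) n
    have h7 : refl ((hen p 1)^[n] (0 + s * (1 + I))) = (hen p 1)^[n] (0 + s * (1 + I)) := by
      apply Complex.ext
      · exact heq.symm
      · exact heq
    rw [h7, ← Function.iterate_add_apply, hr] at h6
    exact hper _ (h5 s hs0 hs1) (n + n) (by omega) h6
  obtain ⟨α, h, hα, hh, hhT, hhF, hbd⟩ := hR θ hθ F hFT
    (by
      intro n hn k w hw hk
      obtain ⟨s, hs0, hs1, hs⟩ := (hθi w).1 ⟨0, by rw [hw]; simp⟩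
      obtain ⟨s', -, -, hs'⟩ := (hθi (F^[n] w)).1 ⟨k, hk⟩
      have h6 := hdiag s hs0 hs1 n hn
      rw [← hs, ← iterate_lift Q (hen p 1) F hFP' n w, hs'] at h6
      exact h6 (by simp))
    (by
      intro q _ U hU hne hT
      refine recur Q hA hb (henH p hp ((1 : ℤ) : ℝ) hσ0) ?_ hf' F hFP q U hU hne hT
      have := hen_mp p hp ((1 : ℤ) : ℝ) (Or.inl (by norm_num))
      exact this)
  exact ⟨⟨Q, F, s₀, s₁, α, θ, h, hQ, hFP', hFT, hlt, h1, h2, h3, h4, h5, hθ, hθi, hα, hh, hhT,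
    hhF, hbd, fun w hw => by
      have h8 := Ann.nu_rel hp (Or.inl rfl) hσ0 hf' F hFP hk w hw
      rw [hk1, one_mul, one_mul] at h8
      simpa using h8, hdiag⟩⟩

end Pool.Agent.Lib.MP9fa4ca
end

section
/-!
# MP_9fa4ca_an : the index is constant on the hole
-/
set_option autoImplicit false

open Set Topology Filter Complex

namespace Pool.Agent.Lib.MP9fa4ca

namespace HCNAux

theorem closed_index (hLoc : SpecLoc) {A : Set ℂ} (Q : Ann A) (hA : IsOpen A) (S : Set ℤ) :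
    IsClosed {w | w ∉ A ∧ Q.nu w ∈ S} := by
  rw [← isOpen_compl_iff, Metric.isOpen_iff]
  intro w hw
  by_cases hwA : w ∈ A
  · obtain ⟨ε, hε, h⟩ := Metric.isOpen_iff.1 hA w hwA
    exact ⟨ε, hε, fun z hz hz' => hz'.1 (h hz)⟩
  · obtain ⟨ε, hε, h⟩ := hLoc A Q w hwA
    refine ⟨ε, hε, fun z hz hz' => hw ⟨hwA, ?_⟩⟩
    rw [← h z hz'.1 (by rwa [Metric.mem_ball, dist_eq_norm] at hz)]
    exact hz'.2

/-- A continuous zero-free function on the plane minus a point has the same degree on all circles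
about this point. -/
theorem ldeg_circles (E : ℂ → ℂ) (w : ℂ) (hE : ∀ z, z ≠ w → ContinuousAt E z)
    (h0 : ∀ z, z ≠ w → E z ≠ 0) :
    ∃ k : ℤ, ∀ s : ℝ, LDeg (fun x => E (w + exp (s + x * (2 * Real.pi * I)))) k := by
  have hne : ∀ u : ℂ, w + exp u ≠ w := fun u h => exp_ne_zero u (by linear_combination h)
  have hc : Continuous fun u : ℂ => E (w + exp u) := by
    rw [continuous_iff_continuousAt]
    intro u
    exact ContinuousAt.comp (f := fun u : ℂ => w + exp u) (hE _ (hne u))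
      (by fun_prop)
  obtain ⟨L, hL, hLe⟩ := exists_log (fun u : ℂ => E (w + exp u)) hc (fun u => h0 _ (hne u))
  obtain ⟨k, hk⟩ := log_unique (fun u => L (u + 2 * Real.pi * I)) L (by fun_prop) hL
    (fun u => by rw [hLe, hLe, exp_periodic])
  refine ⟨k, fun s => ⟨fun x => L (s + x * (2 * Real.pi * I)), by fun_prop, fun x => hLe _,
    fun x => ?_⟩⟩
  beta_reduce
  rw [← hk]
  congr 1
  push_cast
  ring

/-- The degree of `(z - w) ^ a * (z - w') ^ b` on a small circle about `w`. -/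
theorem ldeg_small (w w' : ℂ) (h : w ≠ w') (a b : ℤ) (s : ℝ) (hs : Real.exp s < ‖w - w'‖) :
    LDeg (fun x => ((w + exp (s + x * (2 * Real.pi * I))) - w) ^ a *
      ((w + exp (s + x * (2 * Real.pi * I))) - w') ^ b) a := by
  have hw : w - w' ≠ 0 := sub_ne_zero.2 h
  have hslit : ∀ x : ℝ, 1 + exp (s + x * (2 * Real.pi * I)) / (w - w') ∈ slitPlane := by
    intro x
    refine Or.inl ?_
    have h1 : ‖exp (s + x * (2 * Real.pi * I)) / (w - w')‖ < 1 := by
      rw [norm_div, norm_exp, div_lt_one (norm_pos_iff.2 hw)]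
      have : (s + x * (2 * Real.pi * I) : ℂ).re = s := by simp
      rw [this]
      exact hs
    have h2 := (abs_le.1 (abs_re_le_norm (exp (s + x * (2 * Real.pi * I)) / (w - w')))).1
    simp only [add_re, one_re]
    linarith
  refine ⟨fun x => a * (s + x * (2 * Real.pi * I)) + b * (log (w - w') +
    log (1 + exp (s + x * (2 * Real.pi * I)) / (w - w'))), ?_, fun x => ?_, fun x => ?_⟩
  · refine Continuous.add (by fun_prop) (continuous_const.mul (continuous_const.add ?_))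
    exact Continuous.clog (by fun_prop) hslit
  · beta_reduce
    have h1 := exp_log hw
    have h2 := exp_log (slitPlane_ne_zero (hslit x))
    have h3 : exp (log (w - w') + log (1 + exp (s + x * (2 * Real.pi * I)) / (w - w'))) =
        (w + exp (s + x * (2 * Real.pi * I))) - w' := by
      rw [exp_add, h1, h2]
      field_simp
      ring
    rw [exp_add _ (b * _ : ℂ), exp_int_mul, exp_int_mul, h3, add_sub_cancel_left]
  · have h1 : exp (s + ((x + 1 : ℝ) : ℂ) * (2 * Real.pi * I)) = exp (s + x * (2 * Real.pi * I)) := by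
      rw [← exp_periodic (s + x * (2 * Real.pi * I))]
      congr 1
      push_cast
      ring
    beta_reduce
    rw [h1]
    push_cast
    ring

/-- The complement of `A` is the union of two disjoint closed sets; if the first one is nonempty
and the second one contains a neighbourhood of infinity, then the index vanishes on the second
one. -/
theorem index_zero {A : Set ℂ} (Q : Ann A) (hA : IsOpen A) (C₁ C₂ : Set ℂ) (hC₁ : IsClosed C₁)
    (hC₂ : IsClosed C₂) (hdis : Disjoint C₂ C₁) (hcov : ∀ z, z ∉ A → z ∉ C₂ → z ∈ C₁)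
    (hfar : ∃ R : ℝ, ∀ z : ℂ, R ≤ ‖z‖ → z ∈ C₂) (w₁ w₂ : ℂ) (hw₁ : w₁ ∉ A) (hw₂ : w₂ ∉ A)
    (hw₁C : w₁ ∈ C₁) (hw₂C : w₂ ∈ C₂) : Q.nu w₂ = 0 := by
  classical
  have hww : w₁ ≠ w₂ := by
    rintro rfl
    exact Set.disjoint_left.1 hdis hw₂C hw₁C
  set a : ℤ := Q.nu w₂ with ha
  set b : ℤ := -Q.nu w₁ with hb
  obtain ⟨μ, hμ0, hμ1, hμI⟩ := exists_continuous_zero_one_of_isClosed hC₂ hC₁ hdis
  let lam : ℂ → ℝ := fun z => max 0 (min 1 (3 * μ z - 1))
  have hlamc : Continuous lam := by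
    have := μ.continuous
    fun_prop
  have hlam1 : ∀ z, 2 / 3 < μ z → lam z = 1 := by
    intro z hz
    have h1 : min 1 (3 * μ z - 1) = 1 := min_eq_left (by linarith)
    simp only [lam, h1]
    norm_num
  have hlam0 : ∀ z, μ z < 1 / 3 → lam z = 0 := by
    intro z hz
    refine max_eq_left ?_
    exact (min_le_right _ _).trans (by linarith)
  -- the function of degree zero
  let E₀ : ℂ → ℂ := fun z => (z - w₁) ^ a * (z - w₂) ^ b
  have hdeg : Q.Deg E₀ 0 := by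
    have h1 := ((Ann.nu_deg (Q := Q) hw₁).zpow a).mul ((Ann.nu_deg (Q := Q) hw₂).zpow b)
    have h2 : a * Q.nu w₁ + b * Q.nu w₂ = 0 := by
      rw [ha, hb]
      ring
    rw [h2] at h1
    exact h1
  obtain ⟨l, hl, hle⟩ := hdeg.exists_log
  have hE₀ne : ∀ z, z ≠ w₁ → z ≠ w₂ → E₀ z ≠ 0 := by
    intro z h1 h2
    exact mul_ne_zero (zpow_ne_zero _ (sub_ne_zero.2 h1)) (zpow_ne_zero _ (sub_ne_zero.2 h2))
  have hE₀c : ∀ z, z ≠ w₁ → z ≠ w₂ → ContinuousAt E₀ z := by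
    intro z h1 h2
    refine ContinuousAt.mul ?_ ?_
    · exact (by fun_prop : ContinuousAt (fun z : ℂ => z - w₁) z).zpow₀ a (Or.inl (sub_ne_zero.2 h1))
    · exact (by fun_prop : ContinuousAt (fun z : ℂ => z - w₂) z).zpow₀ b (Or.inl (sub_ne_zero.2 h2))
  let E : ℂ → ℂ := fun z => if z ∈ A then exp (lam z * l z) else if z ∈ C₁ then E₀ z else 1
  have hEA : ∀ z, z ∈ A → E z = exp (lam z * l z) := fun z hz => if_pos hz
  have hE1 : ∀ z, 2 / 3 < μ z → E z = E₀ z := by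
    intro z hz
    by_cases hzA : z ∈ A
    · rw [hEA z hzA, hlam1 z hz, ofReal_one, one_mul, hle z hzA]
    · have hz1 : z ∈ C₁ := by
        refine hcov z hzA fun h => ?_
        have := hμ0 h
        simp only [Pi.zero_apply] at this
        rw [this] at hz
        norm_num at hz
      show (if z ∈ A then exp (lam z * l z) else if z ∈ C₁ then E₀ z else 1) = E₀ z
      rw [if_neg hzA, if_pos hz1]
  have hE2 : ∀ z, μ z < 1 / 3 → E z = 1 := by
    intro z hz
    by_cases hzA : z ∈ A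
    · rw [hEA z hzA, hlam0 z hz, ofReal_zero, zero_mul, exp_zero]
    · have hz1 : z ∉ C₁ := by
        intro h
        have := hμ1 h
        simp only [Pi.one_apply] at this
        rw [this] at hz
        norm_num at hz
      show (if z ∈ A then exp (lam z * l z) else if z ∈ C₁ then E₀ z else 1) = 1
      rw [if_neg hzA, if_neg hz1]
  have hμC₁ : ∀ z ∈ C₁, 2 / 3 < μ z := by
    intro z hz
    have := hμ1 hz
    simp only [Pi.one_apply] at this
    rw [this]
    norm_num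
  have hμC₂ : ∀ z ∈ C₂, μ z < 1 / 3 := by
    intro z hz
    have := hμ0 hz
    simp only [Pi.zero_apply] at this
    rw [this]
    norm_num
  have hEc : ∀ z, z ≠ w₁ → ContinuousAt E z := by
    intro z hz
    by_cases hzA : z ∈ A
    · have h1 : ContinuousAt (fun z => exp (lam z * l z)) z := by
        have hl' : ContinuousAt l z := hl.continuousAt (hA.mem_nhds hzA)
        have hlam' : ContinuousAt (fun z => (lam z : ℂ)) z :=
          (continuous_ofReal.comp hlamc).continuousAt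
        exact (hlam'.mul hl').cexp
      refine h1.congr ?_
      filter_upwards [hA.mem_nhds hzA] with y hy
      exact (hEA y hy).symm
    · by_cases hz2 : z ∈ C₂
      · refine (continuousAt_const (y := (1 : ℂ))).congr ?_
        filter_upwards [(isOpen_lt μ.continuous continuous_const).mem_nhds (hμC₂ z hz2)] with y hy
        exact (hE2 y hy).symm
      · have hz1 := hcov z hzA hz2
        have hz3 : z ≠ w₂ := by
          rintro rfl
          exact hz2 hw₂C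
        refine (hE₀c z hz hz3).congr ?_
        filter_upwards [(isOpen_lt continuous_const μ.continuous).mem_nhds (hμC₁ z hz1)] with y hy
        exact (hE1 y hy).symm
  have hEne : ∀ z, z ≠ w₁ → E z ≠ 0 := by
    intro z hz
    by_cases hzA : z ∈ A
    · rw [hEA z hzA]
      exact exp_ne_zero _
    · by_cases hz2 : z ∈ C₂
      · rw [hE2 z (hμC₂ z hz2)]
        exact one_ne_zero
      · rw [hE1 z (hμC₁ z (hcov z hzA hz2))]
        refine hE₀ne z hz ?_
        rintro rfl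
        exact hz2 hw₂C
  obtain ⟨k, hk⟩ := ldeg_circles E w₁ hEc hEne
  -- small circles
  have hka : k = a := by
    have h1 : {z | 2 / 3 < μ z} ∈ 𝓝 w₁ :=
      (isOpen_lt continuous_const μ.continuous).mem_nhds (hμC₁ w₁ hw₁C)
    obtain ⟨r, hr, hball⟩ := Metric.mem_nhds_iff.1 h1
    have hd : 0 < min r ‖w₁ - w₂‖ := lt_min hr (norm_pos_iff.2 (sub_ne_zero.2 hww))
    set s : ℝ := Real.log (min r ‖w₁ - w₂‖ / 2) with hs
    have hes : Real.exp s = min r ‖w₁ - w₂‖ / 2 := Real.exp_log (by positivity)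
    have hs1 : Real.exp s < r := by
      rw [hes]
      have := min_le_left r ‖w₁ - w₂‖
      linarith
    have hs2 : Real.exp s < ‖w₁ - w₂‖ := by
      rw [hes]
      have := min_le_right r ‖w₁ - w₂‖
      linarith
    have h2 := hk s
    have h3 := ldeg_small w₁ w₂ hww a b s hs2
    refine h2.unique ?_
    convert h3 using 2 with x
    refine hE1 _ (hball ?_)
    rw [Metric.mem_ball, dist_eq_norm, add_sub_cancel_left, norm_exp]
    have : (s + x * (2 * Real.pi * I) : ℂ).re = s := by simp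
    rw [this]
    exact hs1
  -- large circles
  have hk0 : k = 0 := by
    obtain ⟨R, hR⟩ := hfar
    set s : ℝ := Real.log (|R| + ‖w₁‖ + 1) with hs
    have hes : Real.exp s = |R| + ‖w₁‖ + 1 := Real.exp_log (by positivity)
    refine (hk s).unique ⟨fun _ => 0, continuous_const, fun x => ?_, fun x => by simp⟩
    rw [exp_zero]
    symm
    refine hE2 _ (hμC₂ _ ?_)
    have h1 : R ≤ ‖w₁ + exp (s + x * (2 * Real.pi * I))‖ := by
      have h2 : ‖exp (s + x * (2 * Real.pi * I))‖ = |R| + ‖w₁‖ + 1 := by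
        rw [norm_exp]
        have : (s + x * (2 * Real.pi * I) : ℂ).re = s := by simp
        rw [this, hes]
      have h3 : ‖exp (s + x * (2 * Real.pi * I))‖ ≤
          ‖w₁ + exp (s + x * (2 * Real.pi * I))‖ + ‖w₁‖ := by
        have := norm_sub_le (w₁ + exp (s + x * (2 * Real.pi * I))) w₁
        rwa [add_sub_cancel_left] at this
      have h4 := le_abs_self R
      linarith
    exact hR _ h1
  exact hka.symm.trans hk0

end HCNAux

open HCNAux in
/-- The hole is connected. -/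
theorem specHcp (hLoc : SpecLoc) (hFar : SpecFar) :
    ∀ (A : Set ℂ) (Q : Ann A), IsOpen A → Bornology.IsBounded A →
      IsPreconnected {w : ℂ | w ∉ A ∧ Q.nu w ≠ 0} := by
  intro A Q hA hbd
  have hK : IsClosed {w : ℂ | w ∉ A ∧ Q.nu w ≠ 0} := closed_index hLoc Q hA {0}ᶜ
  have hO : IsClosed {w : ℂ | w ∉ A ∧ Q.nu w ∈ ({0} : Set ℤ)} := closed_index hLoc Q hA {0}
  rw [isPreconnected_closed_iff]
  rintro t t' ht ht' hcov ⟨w₁, hw₁, hw₁t⟩ ⟨w₂, hw₂, hw₂t⟩
  by_contra hemp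
  rw [Set.not_nonempty_iff_eq_empty] at hemp
  have hemp' : ∀ z, z ∉ A → Q.nu z ≠ 0 → z ∈ t → z ∈ t' → False := fun z h1 h2 h3 h4 => by
    have : z ∈ {w : ℂ | w ∉ A ∧ Q.nu w ≠ 0} ∩ (t ∩ t') := ⟨⟨h1, h2⟩, h3, h4⟩
    rw [hemp] at this
    exact this
  refine hw₂.2 (index_zero Q hA ({w : ℂ | w ∉ A ∧ Q.nu w ≠ 0} ∩ t)
    (({w : ℂ | w ∉ A ∧ Q.nu w ≠ 0} ∩ t') ∪ {w : ℂ | w ∉ A ∧ Q.nu w ∈ ({0} : Set ℤ)})
    (hK.inter ht) ((hK.inter ht').union hO) ?_ ?_ ?_ w₁ w₂ hw₁.1 hw₂.1 ⟨hw₁, hw₁t⟩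
    (Or.inl ⟨hw₂, hw₂t⟩))
  · rw [Set.disjoint_left]
    rintro z (⟨h1, h2⟩ | h1) ⟨h3, h4⟩
    · exact hemp' z h1.1 h1.2 h4 h2
    · exact h3.2 h1.2
  · intro z hz hz'
    have h1 : Q.nu z ≠ 0 := fun h => hz' (Or.inr ⟨hz, h⟩)
    refine ⟨⟨hz, h1⟩, ?_⟩
    rcases hcov (⟨hz, h1⟩ : z ∈ {w : ℂ | w ∉ A ∧ Q.nu w ≠ 0}) with h | h
    · exact h
    · exact absurd (Or.inl ⟨⟨hz, h1⟩, h⟩) hz'
  · obtain ⟨R, hR⟩ := hFar A Q hbd
    exact ⟨R, fun z hz => Or.inr (hR z hz)⟩

open HCNAux in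
theorem specHcn (hLoc : SpecLoc) (hFar : SpecFar) : SpecHcn := by
  intro A Q hA hbd w₁ w₂ hw₁ hw₂ hn₁ hn₂
  by_contra hne
  refine hn₂ (index_zero Q hA {w : ℂ | w ∉ A ∧ Q.nu w ∈ ({Q.nu w₁} : Set ℤ)}
    {w : ℂ | w ∉ A ∧ Q.nu w ∈ ({Q.nu w₁} : Set ℤ)ᶜ} (closed_index hLoc Q hA _)
    (closed_index hLoc Q hA _) ?_ ?_ ?_ w₁ w₂ hw₁ hw₂ ⟨hw₁, rfl⟩
    ⟨hw₂, fun h => hne (mem_singleton_iff.1 h).symm⟩)
  · rw [Set.disjoint_left]
    intro z hz hz'
    exact hz.2 hz'.2
  · intro z hz hz2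
    refine ⟨hz, ?_⟩
    by_contra h
    exact hz2 ⟨hz, h⟩
  · obtain ⟨R, hR⟩ := hFar A Q hbd
    refine ⟨R, fun z hz => ⟨(hR z hz).1, ?_⟩⟩
    rw [(hR z hz).2]
    intro h
    exact hn₁ (mem_singleton_iff.1 h).symm

end Pool.Agent.Lib.MP9fa4ca
end

section
/-!
# MP_9fa4ca_an : HNE, there is a hole
-/
set_option autoImplicit false

open Set Topology Filter Complex

namespace Pool.Agent.Lib.MP9fa4ca

namespace HNEAux

/-- the pairs of points, the first one on the side `σ` of the second one -/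
def side (σ : ℝ) : Set ((ℝ × ℝ) × (ℝ × ℝ)) := {v | 0 < σ * (v.1.2 - v.2.2)}

theorem ldeg_near {φ ψ : ℝ → ℂ} {m : ℤ} (h : LDeg φ m) (hψ : Continuous ψ)
    (hφp : ∀ x, φ (x + 1) = φ x) (hψp : ∀ x, ψ (x + 1) = ψ x)
    (hn : ∀ x, ‖ψ x - φ x‖ < ‖φ x‖) : LDeg ψ m := by
  obtain ⟨L, hL, hLe, hLm⟩ := h
  have hφ : Continuous φ := by
    have : φ = fun x => exp (L x) := by
      funext x
      rw [hLe]
    rw [this]
    fun_prop
  have h0 : ∀ x, φ x ≠ 0 := fun x hx => by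
    have := hn x
    rw [hx, norm_zero] at this
    exact absurd this (not_lt.2 (norm_nonneg _))
  have hs : ∀ x, ψ x / φ x ∈ slitPlane := fun x => by
    have h1 : ψ x / φ x = 1 + (ψ x - φ x) / φ x := by
      field_simp [h0 x]
      ring
    rw [h1]
    refine mem_slitPlane_of_norm_lt_one ?_
    rw [norm_div, div_lt_one (norm_pos_iff.2 (h0 x))]
    exact hn x
  refine ⟨fun x => L x + log (ψ x / φ x), ?_, fun x => ?_, fun x => ?_⟩
  · exact hL.add ((hψ.div hφ h0).clog hs)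
  · rw [exp_add, hLe, exp_log (slitPlane_ne_zero (hs x)), mul_div_cancel₀ _ (h0 x)]
  · beta_reduce
    rw [hLm, hφp, hψp]
    ring

variable {A : Set ℂ} (Q : Ann A)

theorem half_log (σ : ℝ) (hσ : σ ≠ 0) : ∃ (a : ℤ) (L : (ℝ × ℝ) × (ℝ × ℝ) → ℂ),
    ContinuousOn L (side σ) ∧ (∀ v ∈ side σ, exp (L v) = Q.P v.1 - Q.P v.2) ∧
    ∀ v ∈ side σ, L (T v.1, v.2) = L v + a * (2 * Real.pi * I) := by
  have hopen : IsOpen (side σ) := isOpen_lt (by fun_prop) (by fun_prop)
  have hconv : Convex ℝ (side σ) := by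
    refine convex_halfSpace_gt (f := fun v : (ℝ × ℝ) × (ℝ × ℝ) => σ * (v.1.2 - v.2.2)) ?_ 0
    refine ⟨fun v w => ?_, fun c v => ?_⟩
    · simp only [Prod.fst_add, Prod.snd_add]
      ring
    · simp only [Prod.smul_fst, Prod.smul_snd, smul_eq_mul]
      ring
  have hne : (side σ).Nonempty := ⟨((0, σ), (0, 0)), by
    show 0 < σ * (σ - 0)
    rw [sub_zero]
    exact mul_self_pos.2 hσ⟩
  have hcP := Q.cP
  have hcont : Continuous fun v : (ℝ × ℝ) × (ℝ × ℝ) => Q.P v.1 - Q.P v.2 := by fun_prop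
  have hnz : ∀ v ∈ side σ, Q.P v.1 - Q.P v.2 ≠ 0 := by
    intro v hv h
    have h1 : Q.tau (Q.P v.1) = Q.tau (Q.P v.2) := by rw [sub_eq_zero.1 h]
    rw [Q.htau, Q.htau] at h1
    have hv' : 0 < σ * (v.1.2 - v.2.2) := hv
    rw [h1, sub_self, mul_zero] at hv'
    exact lt_irrefl _ hv'
  obtain ⟨L, hL, hLe⟩ := exists_log_on hconv hopen hne _ hcont.continuousOn hnz
  have hTs : ∀ v ∈ side σ, (T v.1, v.2) ∈ side σ := fun v hv => hv
  have hM : ContinuousOn (fun v => L (T v.1, v.2)) (side σ) := by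
    refine hL.comp ?_ hTs
    have := T.continuous
    exact Continuous.continuousOn (by fun_prop)
  obtain ⟨k, hk⟩ := log_unique_on hconv.isPreconnected hne (fun v => L (T v.1, v.2)) L hM hL
    (fun v hv => by rw [hLe _ (hTs v hv), hLe v hv, Q.per])
  exact ⟨k, L, hL, hLe, hk⟩

theorem ldeg_of_half {σ : ℝ} {a : ℤ} {L : (ℝ × ℝ) × (ℝ × ℝ) → ℂ} (hL : ContinuousOn L (side σ))
    (hLe : ∀ v ∈ side σ, exp (L v) = Q.P v.1 - Q.P v.2)
    (hLT : ∀ v ∈ side σ, L (T v.1, v.2) = L v + a * (2 * Real.pi * I))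
    (w : ℝ × ℝ) (t : ℝ) (h : 0 < σ * (t - w.2)) : LDeg (fun x => Q.P (x, t) - Q.P w) a := by
  refine ⟨fun x => L ((x, t), w), ?_, fun x => hLe ((x, t), w) h, fun x => hLT ((x, t), w) h⟩
  exact hL.comp_continuous (by fun_prop) fun x => h

theorem side_zero (hA : IsOpen A) (hbd : Bornology.IsBounded A) (σ : ℝ) (hσ : σ * σ = 1) (a : ℤ)
    (ha : ∀ (w : ℝ × ℝ) (t : ℝ), 0 < σ * (t - w.2) → LDeg (fun x => Q.P (x, t) - Q.P w) a)
    (hnu : ∀ w, w ∉ A → Q.nu w = 0) : a = 0 := by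
  by_contra ha0
  have hcP := Q.cP
  have hctau : ContinuousOn (fun z => σ * Q.tau z) A := continuousOn_const.mul Q.ctau
  let M : Set ℂ := {z | z ∈ A ∧ σ * Q.tau z ≤ 0}
  have hMA : M ⊆ A := fun z hz => hz.1
  have hclosed : IsClosed M := by
    refine isClosed_of_closure_subset fun w hw => ?_
    by_cases hwA : w ∈ A
    · refine ⟨hwA, ?_⟩
      by_contra hpos
      have hpos : 0 < σ * Q.tau w := not_le.1 hpos
      have h1 : ∀ᶠ z in 𝓝 w, 0 < σ * Q.tau z :=
        ((hctau w hwA).continuousAt (hA.mem_nhds hwA)).eventually (lt_mem_nhds hpos)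
      obtain ⟨z, hz1, hz2⟩ := (mem_closure_iff_nhds.1 hw) _ h1
      exact absurd hz2.2 (not_le.2 hz1)
    · exfalso
      have hne : ∀ x : ℝ, Q.P (x, σ) - w ≠ 0 := fun x h => by
        rw [← sub_eq_zero.1 h] at hwA
        exact hwA (Q.mem _)
      obtain ⟨x₀, -, hx₀⟩ := (isCompact_Icc (a := (0 : ℝ)) (b := 1)).exists_isMinOn
        ⟨0, by simp⟩ (f := fun x : ℝ => ‖Q.P (x, σ) - w‖) (by fun_prop)
      have hmin : ∀ x : ℝ, ‖Q.P (x₀, σ) - w‖ ≤ ‖Q.P (x, σ) - w‖ := by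
        intro x
        have h1 : Q.P (x, σ) = Q.P (Int.fract x, σ) := by
          have := Q.perk (Int.fract x, σ) ⌊x⌋
          simp only [Int.fract_add_floor] at this
          exact this
        rw [h1]
        exact hx₀ ⟨Int.fract_nonneg x, (Int.fract_lt_one x).le⟩
      obtain ⟨w', hw', hd⟩ := Metric.mem_closure_iff.1 hw _ (norm_pos_iff.2 (hne x₀))
      obtain ⟨v, rfl⟩ := Q.surj w' hw'.1
      have hv : σ * v.2 ≤ 0 := by
        have := hw'.2
        rwa [Q.htau] at this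
      have hd1 : LDeg (fun x => Q.P (x, σ) - w) 0 := by
        have := (Ann.nu_deg (Q := Q) hwA).ldeg σ
        rwa [hnu w hwA] at this
      have hper : ∀ x : ℝ, Q.P (x + 1, σ) = Q.P (x, σ) := fun x => Q.per (x, σ)
      have hd2 : LDeg (fun x => Q.P (x, σ) - Q.P v) 0 := by
        refine ldeg_near hd1 (by fun_prop) (fun x => ?_) (fun x => ?_) (fun x => ?_)
        · rw [hper]
        · rw [hper]
        · have h2 : Q.P (x, σ) - Q.P v - (Q.P (x, σ) - w) = w - Q.P v := by ring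
          beta_reduce
          rw [h2, ← dist_eq_norm]
          exact hd.trans_le (hmin x)
      exact ha0 ((ha v σ (by nlinarith)).unique hd2)
  have hcomp : IsCompact M := Metric.isCompact_of_isClosed_isBounded hclosed (hbd.subset hMA)
  have hMne : M.Nonempty := ⟨Q.P (0, 0), Q.mem _, by rw [Q.htau]; simp⟩
  obtain ⟨z₀, hz₀, hz⟩ := hcomp.exists_isMinOn hMne (hctau.mono hMA)
  have hz1 : Q.P (0, Q.tau z₀ - σ) ∈ M := by
    refine ⟨Q.mem _, ?_⟩
    rw [Q.htau]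
    have := hz₀.2
    show σ * (Q.tau z₀ - σ) ≤ 0
    nlinarith
  have hz2 := hz hz1
  have hz3 : σ * Q.tau z₀ ≤ σ * (Q.tau z₀ - σ) := by
    have h3 : σ * Q.tau z₀ ≤ σ * Q.tau (Q.P (0, Q.tau z₀ - σ)) := hz2
    rwa [Q.htau] at h3
  nlinarith

/-- The function `z - P (0, 0)` has no continuous logarithm near `P (0, 0)`, upstairs. -/
theorem no_log (K : ℝ × ℝ → ℂ)
    (hK : ∀ w : ℝ × ℝ, -(1 / 2) < w.1 → w.1 < 1 / 2 → w ≠ (0, 0) → ContinuousAt K w)
    (hKe : ∀ w : ℝ × ℝ, -(1 / 2) < w.1 → w.1 < 1 / 2 → w ≠ (0, 0) →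
      exp (K w) = Q.P w - Q.P (0, 0)) : False := by
  let B : Set (ℝ × ℝ) := {w | -(1 / 2) < w.1 ∧ w.1 < 1 / 2}
  have hB : IsOpen B := (isOpen_lt continuous_const continuous_fst).inter
    (isOpen_lt continuous_fst continuous_const)
  have hinj : ∀ w ∈ B, ∀ w' ∈ B, Q.P w = Q.P w' → w = w' := by
    intro w hw w' hw' h
    obtain ⟨k, hk⟩ := Q.inj w w' h
    have h1 : w'.1 = w.1 + k := by rw [hk]
    have h2 : (k : ℝ) < 1 := by linarith [hw.1, hw'.2]
    have h3 : (-1 : ℝ) < k := by linarith [hw.2, hw'.1]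
    have h4 : k < 1 := by exact_mod_cast h2
    have h5 : -1 < k := by exact_mod_cast h3
    have h6 : k = 0 := by omega
    rw [hk, h6]
    simp
  have hPB : IsOpen (Q.P '' B) := Q.opn _ hB
  have h0B : ((0, 0) : ℝ × ℝ) ∈ B := ⟨by norm_num, by norm_num⟩
  obtain ⟨r, hr, hball⟩ := Metric.isOpen_iff.1 hPB _ (mem_image_of_mem _ h0B)
  have hsec : ∀ z ∈ Q.P '' B, ∃ w, w ∈ B ∧ Q.P w = z := fun z hz => hz
  choose! s hsB hsP using hsec
  have hs : ∀ z ∈ Q.P '' B, ContinuousAt s z := by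
    intro z hz U hU
    rw [Filter.mem_map]
    have h1 : U ∩ B ∈ 𝓝 (s z) := Filter.inter_mem hU (hB.mem_nhds (hsB z hz))
    have h2 := Q.opn.image_mem_nhds h1
    rw [hsP z hz] at h2
    refine Filter.mem_of_superset h2 ?_
    rintro _ ⟨v, hv, rfl⟩
    show s (Q.P v) ∈ U
    have h3 : s (Q.P v) = v := hinj _ (hsB _ (mem_image_of_mem _ hv.2)) _ hv.2
      (hsP _ (mem_image_of_mem _ hv.2))
    rw [h3]
    exact hv.1
  let c : ℝ → ℂ := fun x => Q.P (0, 0) + ((r / 2 : ℝ) : ℂ) * exp (2 * Real.pi * I * x)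
  have hc : Continuous c := by fun_prop
  have hnorm : ∀ x : ℝ, ‖exp (2 * Real.pi * I * x)‖ = 1 := by
    intro x
    rw [norm_exp]
    simp
  have hcB : ∀ x, c x ∈ Q.P '' B := by
    intro x
    apply hball
    rw [Metric.mem_ball, dist_eq_norm]
    show ‖Q.P (0, 0) + ((r / 2 : ℝ) : ℂ) * exp (2 * Real.pi * I * x) - Q.P (0, 0)‖ < r
    rw [add_sub_cancel_left, norm_mul, hnorm, mul_one, Complex.norm_real, Real.norm_eq_abs,
      abs_of_pos (by linarith)]
    linarith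
  have hc0 : ∀ x, s (c x) ≠ (0, 0) := by
    intro x h
    have h1 := hsP _ (hcB x)
    rw [h] at h1
    have h2 : ((r / 2 : ℝ) : ℂ) * exp (2 * Real.pi * I * x) = 0 := by
      have h3 : c x = Q.P (0, 0) + ((r / 2 : ℝ) : ℂ) * exp (2 * Real.pi * I * x) := rfl
      rw [h3] at h1
      linear_combination -h1
    rcases mul_eq_zero.1 h2 with h4 | h4
    · have : r / 2 = 0 := by exact_mod_cast h4
      linarith
    · exact exp_ne_zero _ h4
  have hexp1 : ∀ x : ℝ, exp (2 * Real.pi * I * ((x + 1 : ℝ) : ℂ)) = exp (2 * Real.pi * I * x) := by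
    intro x
    rw [show (2 * Real.pi * I * ((x + 1 : ℝ) : ℂ)) = 2 * Real.pi * I * x + 2 * Real.pi * I by
      push_cast; ring, exp_add, exp_two_pi_mul_I, mul_one]
  have hcp : ∀ x, c (x + 1) = c x := by
    intro x
    show Q.P (0, 0) + ((r / 2 : ℝ) : ℂ) * exp (2 * Real.pi * I * ((x + 1 : ℝ) : ℂ)) = _
    rw [hexp1]
  have hd0 : LDeg (fun x : ℝ => ((r / 2 : ℝ) : ℂ) * exp (2 * Real.pi * I * x)) 0 := by
    refine ⟨fun x => K (s (c x)), ?_, fun x => ?_, fun x => ?_⟩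
    · refine continuous_iff_continuousAt.2 fun x => ?_
      have h1 := hK (s (c x)) (hsB _ (hcB x)).1 (hsB _ (hcB x)).2 (hc0 x)
      exact ContinuousAt.comp (f := fun x => s (c x)) h1
        (ContinuousAt.comp (f := c) (hs _ (hcB x)) hc.continuousAt)
    · rw [hKe (s (c x)) (hsB _ (hcB x)).1 (hsB _ (hcB x)).2 (hc0 x), hsP _ (hcB x)]
      show Q.P (0, 0) + ((r / 2 : ℝ) : ℂ) * exp (2 * Real.pi * I * x) - Q.P (0, 0) = _
      ring
    · beta_reduce
      rw [hcp]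
      simp
  have hd1 : LDeg (fun x : ℝ => ((r / 2 : ℝ) : ℂ) * exp (2 * Real.pi * I * x)) 1 := by
    refine ⟨fun x => (Real.log (r / 2) : ℂ) + 2 * Real.pi * I * x, by fun_prop, fun x => ?_,
      fun x => ?_⟩
    · rw [exp_add, ← Complex.ofReal_exp, Real.exp_log (by linarith)]
    · push_cast
      ring
  exact zero_ne_one (hd0.unique hd1)

theorem glue_false (a : ℤ) (Lp Lm : ℝ × ℝ → ℂ) (hLp : ContinuousOn Lp {w | 0 < w.2})
    (hLm : ContinuousOn Lm {w | w.2 < 0})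
    (hpe : ∀ w : ℝ × ℝ, 0 < w.2 → exp (Lp w) = Q.P w - Q.P (0, 0))
    (hme : ∀ w : ℝ × ℝ, w.2 < 0 → exp (Lm w) = Q.P w - Q.P (0, 0))
    (hpT : ∀ w : ℝ × ℝ, 0 < w.2 → Lp (T w) = Lp w + a * (2 * Real.pi * I))
    (hmT : ∀ w : ℝ × ℝ, w.2 < 0 → Lm (T w) = Lm w + a * (2 * Real.pi * I)) : False := by
  classical
  have hcP := Q.cP
  have hopp : IsOpen {w : ℝ × ℝ | 0 < w.2} := isOpen_lt continuous_const continuous_snd
  have hopm : IsOpen {w : ℝ × ℝ | w.2 < 0} := isOpen_lt continuous_snd continuous_const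
  let R : Set (ℝ × ℝ) := Ioo 0 1 ×ˢ univ
  have hRc : Convex ℝ R := (convex_Ioo 0 1).prod convex_univ
  have hRo : IsOpen R := isOpen_Ioo.prod isOpen_univ
  have hRn : ∀ w ∈ R, Q.P w - Q.P (0, 0) ≠ 0 := by
    intro w hw h
    obtain ⟨k, hk⟩ := Q.inj (0, 0) w (sub_eq_zero.1 h).symm
    have h1 : w.1 = k := by rw [hk]; simp
    have h2 : 0 < w.1 ∧ w.1 < 1 := hw.1
    rw [h1] at h2
    have h3 : 0 < k := by exact_mod_cast h2.1
    have h4 : k < 1 := by exact_mod_cast h2.2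
    omega
  obtain ⟨LR, hLR, hLRe⟩ := exists_log_on hRc hRo ⟨(1 / 2, 0), by norm_num, mem_univ _⟩
    (fun w => Q.P w - Q.P (0, 0)) (by fun_prop) hRn
  have hup : Convex ℝ (Ioo (0 : ℝ) 1 ×ˢ Ioi (0 : ℝ)) := (convex_Ioo 0 1).prod (convex_Ioi 0)
  have hdn : Convex ℝ (Ioo (0 : ℝ) 1 ×ˢ Iio (0 : ℝ)) := (convex_Ioo 0 1).prod (convex_Iio 0)
  obtain ⟨kU, hkU⟩ := log_unique_on hup.isPreconnected ⟨(1 / 2, 1), by norm_num, by norm_num⟩
    LR Lp (hLR.mono (prod_mono subset_rfl (subset_univ _))) (hLp.mono fun w hw => hw.2)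
    (fun w hw => by rw [hLRe w ⟨hw.1, mem_univ _⟩, hpe w hw.2])
  obtain ⟨kD, hkD⟩ := log_unique_on hdn.isPreconnected ⟨(1 / 2, -1), by norm_num, by norm_num⟩
    LR Lm (hLR.mono (prod_mono subset_rfl (subset_univ _))) (hLm.mono fun w hw => hw.2)
    (fun w hw => by rw [hLRe w ⟨hw.1, mem_univ _⟩, hme w hw.2])
  let K : ℝ × ℝ → ℂ := fun w =>
    if 0 < w.2 then Lp w + kU * (2 * Real.pi * I)
    else if w.2 < 0 then Lm w + kD * (2 * Real.pi * I)
    else if 0 < w.1 then LR w else LR (T w) - a * (2 * Real.pi * I)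
  have hKp : ∀ w : ℝ × ℝ, 0 < w.2 → K w = Lp w + kU * (2 * Real.pi * I) := fun w hw => if_pos hw
  have hKm : ∀ w : ℝ × ℝ, w.2 < 0 → K w = Lm w + kD * (2 * Real.pi * I) := fun w hw => by
    show (if 0 < w.2 then _ else _) = _
    rw [if_neg (not_lt.2 hw.le), if_pos hw]
  have hKR : ∀ w : ℝ × ℝ, 0 < w.1 → w.1 < 1 → K w = LR w := by
    intro w h0 h1
    rcases lt_trichotomy w.2 0 with h | h | h
    · rw [hKm w h, hkD w ⟨⟨h0, h1⟩, h⟩]
    · show (if 0 < w.2 then _ else _) = _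
      rw [if_neg (by rw [h]; exact lt_irrefl _), if_neg (by rw [h]; exact lt_irrefl _), if_pos h0]
    · rw [hKp w h, hkU w ⟨⟨h0, h1⟩, h⟩]
  have hKL : ∀ w : ℝ × ℝ, -1 < w.1 → w.1 < 0 → K w = LR (T w) - a * (2 * Real.pi * I) := by
    intro w h0 h1
    have h2 : (T w).1 ∈ Ioo (0 : ℝ) 1 := ⟨by simp only [T_apply]; linarith,
      by simp only [T_apply]; linarith⟩
    rcases lt_trichotomy w.2 0 with h | h | h
    · rw [hKm w h, hkD (T w) ⟨h2, h⟩, hmT w h]
      ring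
    · show (if 0 < w.2 then _ else _) = _
      rw [if_neg (by rw [h]; exact lt_irrefl _), if_neg (by rw [h]; exact lt_irrefl _),
        if_neg (not_lt.2 h1.le)]
    · rw [hKp w h, hkU (T w) ⟨h2, h⟩, hpT w h]
      ring
  refine no_log Q K (fun w h1 h2 h0 => ?_) (fun w h1 h2 h0 => ?_)
  · rcases lt_trichotomy w.2 0 with h | h | h
    · have h3 : ContinuousAt (fun w => Lm w + kD * (2 * Real.pi * I)) w :=
        ((hLm w h).continuousAt (hopm.mem_nhds h)).add continuousAt_const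
      refine h3.congr ?_
      filter_upwards [hopm.mem_nhds h] with v hv
      exact (hKm v hv).symm
    · rcases lt_trichotomy w.1 0 with h' | h' | h'
      · have hTw : T w ∈ R := ⟨⟨by simp only [T_apply]; linarith,
          by simp only [T_apply]; linarith⟩, mem_univ _⟩
        have h3 : ContinuousAt (fun w => LR (T w) - a * (2 * Real.pi * I)) w :=
          (ContinuousAt.comp (f := T) ((hLR (T w) hTw).continuousAt (hRo.mem_nhds hTw))
            T.continuous.continuousAt).sub continuousAt_const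
        refine h3.congr ?_
        have h4 : {v : ℝ × ℝ | -1 < v.1} ∩ {v : ℝ × ℝ | v.1 < 0} ∈ 𝓝 w :=
          ((isOpen_lt continuous_const continuous_fst).inter
            (isOpen_lt continuous_fst continuous_const)).mem_nhds ⟨by
              show -1 < w.1
              linarith, h'⟩
        filter_upwards [h4] with v hv
        exact (hKL v hv.1 hv.2).symm
      · exact absurd (Prod.ext h' h) h0
      · have hw : w ∈ R := ⟨⟨h', by linarith⟩, mem_univ _⟩
        refine ((hLR w hw).continuousAt (hRo.mem_nhds hw)).congr ?_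
        filter_upwards [hRo.mem_nhds hw] with v hv
        exact (hKR v hv.1.1 hv.1.2).symm
    · have h3 : ContinuousAt (fun w => Lp w + kU * (2 * Real.pi * I)) w :=
        ((hLp w h).continuousAt (hopp.mem_nhds h)).add continuousAt_const
      refine h3.congr ?_
      filter_upwards [hopp.mem_nhds h] with v hv
      exact (hKp v hv).symm
  · have hexp : ∀ k : ℤ, exp (k * (2 * Real.pi * I)) = 1 := fun k => exp_int_mul_two_pi_mul_I k
    rcases lt_trichotomy w.2 0 with h | h | h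
    · rw [hKm w h, exp_add, hexp, mul_one, hme w h]
    · rcases lt_trichotomy w.1 0 with h' | h' | h'
      · have hTw : T w ∈ R := ⟨⟨by simp only [T_apply]; linarith,
          by simp only [T_apply]; linarith⟩, mem_univ _⟩
        rw [hKL w (by linarith) h', exp_sub, hexp, div_one, hLRe _ hTw, Q.per]
      · exact absurd (Prod.ext h' h) h0
      · rw [hKR w h' (by linarith), hLRe w ⟨⟨h', by linarith⟩, mem_univ _⟩]
    · rw [hKp w h, exp_add, hexp, mul_one, hpe w h]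

end HNEAux

open HNEAux in
/-- HNE. There is a hole. -/
theorem specHne : SpecHne := by
  intro A Q hA hbd
  by_contra hno
  push Not at hno
  obtain ⟨a, L, hL, hLe, hLT⟩ := half_log Q 1 one_ne_zero
  obtain ⟨b, M, hM, hMe, hMT⟩ := half_log Q (-1) (by norm_num)
  have ha : a = 0 := side_zero Q hA hbd 1 (by norm_num) a
    (fun w t h => ldeg_of_half Q hL hLe hLT w t h) hno
  have hb : b = 0 := side_zero Q hA hbd (-1) (by norm_num) b
    (fun w t h => ldeg_of_half Q hM hMe hMT w t h) hno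
  subst ha
  subst hb
  have hp : ∀ w : ℝ × ℝ, 0 < w.2 → (w, ((0, 0) : ℝ × ℝ)) ∈ side 1 := fun w hw => by
    show 0 < 1 * (w.2 - 0)
    linarith
  have hm : ∀ w : ℝ × ℝ, w.2 < 0 → (w, ((0, 0) : ℝ × ℝ)) ∈ side (-1) := fun w hw => by
    show 0 < -1 * (w.2 - 0)
    linarith
  refine glue_false Q 0 (fun w => L (w, (0, 0))) (fun w => M (w, (0, 0))) ?_ ?_ ?_ ?_ ?_ ?_
  · exact hL.comp (by fun_prop) fun w hw => hp w hw
  · exact hM.comp (by fun_prop) fun w hw => hm w hw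
  · exact fun w hw => hLe _ (hp w hw)
  · exact fun w hw => hMe _ (hm w hw)
  · exact fun w hw => hLT _ (hp w hw)
  · exact fun w hw => hMT _ (hm w hw)

end Pool.Agent.Lib.MP9fa4ca
end

section
/-!
# Modules LOC and FAR: the index is locally constant, and zero far away
-/
set_option autoImplicit false

open Set Topology Filter Complex

namespace Pool.Agent.Lib.MP9fa4ca

theorem div_slit {a b : ℂ} (hb : b ≠ 0) (h : ‖a - b‖ < ‖b‖) : a / b ∈ slitPlane := by
  have e : a / b = 1 + (a - b) / b := by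
    field_simp
    ring
  rw [e]
  refine mem_slitPlane_of_norm_lt_one ?_
  rw [norm_div]
  exact (div_lt_one (norm_pos_iff.2 hb)).2 h

theorem LDeg.of_near {φ ψ : ℝ → ℂ} {m : ℤ} (h : LDeg φ m) (hψ : Continuous ψ)
    (hp : ∀ x, ψ (x + 1) = ψ x) (hc : ∀ x, ‖ψ x - φ x‖ < ‖φ x‖) : LDeg ψ m := by
  obtain ⟨L, hL, hLe, hLm⟩ := h
  have hφ : Continuous φ := by
    have : φ = fun x => exp (L x) := funext fun x => (hLe x).symm
    rw [this]
    fun_prop
  have hφ0 : ∀ x, φ x ≠ 0 := fun x => by rw [← hLe]; exact exp_ne_zero _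
  have hφp : ∀ x, φ (x + 1) = φ x := fun x => by
    rw [← hLe, ← hLe, hLm, exp_add, exp_int_mul, exp_two_pi_mul_I, one_zpow, mul_one]
  have hs : ∀ x, ψ x / φ x ∈ slitPlane := fun x => div_slit (hφ0 x) (hc x)
  refine ⟨fun x => L x + log (ψ x / φ x), ?_, fun x => ?_, fun x => ?_⟩
  · exact hL.add ((hψ.div hφ hφ0).clog hs)
  · rw [exp_add, hLe, exp_log (slitPlane_ne_zero (hs x)), mul_div_cancel₀ _ (hφ0 x)]
  · beta_reduce
    rw [hp, hφp, hLm]
    ring

namespace Ann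

variable {A : Set ℂ} (Q : Ann A)

theorem exists_dist (w : ℂ) (hw : w ∉ A) (t : ℝ) :
    ∃ δ : ℝ, 0 < δ ∧ ∀ x : ℝ, δ ≤ ‖Q.P (x, t) - w‖ := by
  have hc : Continuous fun x : ℝ => ‖Q.P (x, t) - w‖ := by
    have := Q.cP
    fun_prop
  obtain ⟨x₀, -, hx₀⟩ := (isCompact_Icc (a := (0 : ℝ)) (b := 1)).exists_isMinOn
    (nonempty_Icc.2 zero_le_one) hc.continuousOn
  refine ⟨‖Q.P (x₀, t) - w‖, ?_, fun x => ?_⟩
  · rw [norm_pos_iff, sub_ne_zero]
    rintro rfl
    exact hw (Q.mem _)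
  · have h1 : Q.P (x, t) = Q.P (Int.fract x, t) := by
      have := Q.perk (Int.fract x, t) ⌊x⌋
      rw [← this]
      simp only
      rw [Int.fract_add_floor]
    rw [h1]
    exact hx₀ ⟨Int.fract_nonneg x, (Int.fract_lt_one x).le⟩

end Ann

theorem specLoc : SpecLoc := by
  intro A Q w hw
  obtain ⟨δ, hδ, h⟩ := Q.exists_dist w hw 0
  refine ⟨δ, hδ, fun w' hw' hd => ?_⟩
  have h1 := (Ann.nu_deg (Q := Q) hw).ldeg 0
  have h2 := (Ann.nu_deg (Q := Q) hw').ldeg 0
  refine h2.unique (h1.of_near ?_ (fun x => ?_) fun x => ?_)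
  · have := Q.cP
    fun_prop
  · have := Q.per (x, 0)
    simp only [T_apply] at this
    rw [this]
  · rw [show Q.P (x, 0) - w' - (Q.P (x, 0) - w) = -(w' - w) by ring, norm_neg]
    exact hd.trans_le (h x)

theorem specFar : SpecFar := by
  intro A Q hb
  obtain ⟨R, hR⟩ := hb.exists_norm_le
  refine ⟨max R 0 + 1, fun w hw => ?_⟩
  have hR' : ∀ z ∈ A, ‖z‖ < ‖w‖ := fun z hz => by
    have h1 := hR z hz
    have h2 := le_max_left R 0
    linarith
  have hw0 : w ≠ 0 := by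
    rintro rfl
    rw [norm_zero] at hw
    have := le_max_right R 0
    linarith
  refine ⟨fun h => lt_irrefl _ (hR' w h), ?_⟩
  refine Ann.nu_eq ?_
  have h1 : Q.Deg (fun z => (z - w) / (-w)) 0 := by
    refine Ann.deg_of_slit (by fun_prop) fun z hz => div_slit (neg_ne_zero.2 hw0) ?_
    rw [show z - w - -w = z by ring, norm_neg]
    exact hR' z hz
  have h2 : Q.Deg (fun _ => -w) 0 := by
    refine ⟨fun _ => log (-w), continuous_const, fun _ => exp_log (neg_ne_zero.2 hw0), fun _ => ?_⟩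
    simp
  have h3 := h1.mul h2
  rw [add_zero] at h3
  refine h3.congr fun z _ => ?_
  exact div_mul_cancel₀ _ (neg_ne_zero.2 hw0)

end Pool.Agent.Lib.MP9fa4ca
end

section
/-!
# MP_9fa4ca_an : ROT, the semiconjugacy to an irrational rotation
-/
set_option autoImplicit false

open Set Topology Filter Complex

namespace Pool.Agent.Lib.MP9fa4ca

namespace ROTAux

variable {θ : ℝ × ℝ → ℝ} {F : ℝ × ℝ ≃ₜ ℝ × ℝ}

theorem theta_T (hθ : Cut θ) (k : ℤ) (w : ℝ × ℝ) : θ ((T ^ k) w) = θ w + k := by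
  induction k using Int.induction_on generalizing w with
  | zero => simp
  | succ n ih =>
    rw [zpow_add_one, Homeomorph.mul_apply, ih, hθ.eqv]
    push_cast
    ring
  | pred n ih =>
    rw [zpow_sub_one, Homeomorph.mul_apply, ih]
    have h1 := hθ.eqv (T⁻¹ w)
    have h2 : T (T⁻¹ w) = w := by
      rw [← Homeomorph.mul_apply, mul_inv_cancel, Homeomorph.one_apply]
    rw [h2] at h1
    push_cast
    linarith

theorem comm_zpow (hF : ∀ w, F (T w) = T (F w)) (n k : ℤ) (w : ℝ × ℝ) :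
    (F ^ n) ((T ^ k) w) = (T ^ k) ((F ^ n) w) := by
  have h : Commute F T := Homeomorph.ext hF
  have h2 := (h.zpow_zpow n k)
  have h3 := congrArg (fun g : ℝ × ℝ ≃ₜ ℝ × ℝ => g w) h2.eq
  exact h3

theorem pow_eq_iterate (F : ℝ × ℝ ≃ₜ ℝ × ℝ) (n : ℕ) (w : ℝ × ℝ) : (F ^ n) w = F^[n] w := by
  induction n generalizing w with
  | zero => simp
  | succ n ih => rw [pow_succ, Homeomorph.mul_apply, ih, Function.iterate_succ_apply]

theorem exists_zero (hθ : Cut θ) : ∃ w, θ w = 0 := by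
  have h1 : (0 : ℝ) ∈ range θ := by
    refine mem_range_of_exists_le_of_exists_ge hθ.cont ?_ ?_
    · refine ⟨(T ^ (-⌈θ (0, 0)⌉)) (0, 0), ?_⟩
      rw [theta_T hθ]
      push_cast
      linarith [Int.le_ceil (θ (0, 0))]
    · refine ⟨(T ^ (-⌊θ (0, 0)⌋)) (0, 0), ?_⟩
      rw [theta_T hθ]
      push_cast
      linarith [Int.floor_le (θ (0, 0))]
  exact h1

theorem zero_lim_neg (hθ : Cut θ) : ∃ z, θ z = 0 ∧ z ∈ closure {w | θ w < 0} := by
  by_contra hno
  push Not at hno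
  have hc := hθ.cont
  have h1 : IsClosed {w | θ w < 0} := by
    refine isClosed_of_closure_subset fun z hz => ?_
    have h2 : closure {w | θ w < 0} ⊆ {w | θ w ≤ 0} :=
      closure_minimal (fun w hw => le_of_lt (show θ w < 0 from hw)) (isClosed_le hc continuous_const)
    rcases lt_or_eq_of_le (show θ z ≤ 0 from h2 hz) with h | h
    · exact h
    · exact absurd hz (hno z h)
  have h2 : IsOpen {w | θ w < 0} := isOpen_lt hc continuous_const
  rcases isClopen_iff.1 ⟨h1, h2⟩ with h | h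
  · obtain ⟨w, hw⟩ := exists_zero hθ
    have : (T ^ (-1 : ℤ)) w ∈ {w | θ w < 0} := by
      show θ _ < 0
      rw [theta_T hθ, hw]
      norm_num
    rw [h] at this
    exact this
  · obtain ⟨w, hw⟩ := exists_zero hθ
    have : w ∈ {w | θ w < 0} := by
      rw [h]
      exact mem_univ _
    exact absurd this (by show ¬ θ w < 0; rw [hw]; exact lt_irrefl _)

theorem zero_lim_pos (hθ : Cut θ) : ∃ z, θ z = 0 ∧ z ∈ closure {w | 0 < θ w} := by
  by_contra hno
  push Not at hno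
  have hc := hθ.cont
  have h1 : IsClosed {w | 0 < θ w} := by
    refine isClosed_of_closure_subset fun z hz => ?_
    have h2 : closure {w | 0 < θ w} ⊆ {w | 0 ≤ θ w} :=
      closure_minimal (fun w hw => le_of_lt (show 0 < θ w from hw)) (isClosed_le continuous_const hc)
    rcases lt_or_eq_of_le (show 0 ≤ θ z from h2 hz) with h | h
    · exact h
    · exact absurd hz (hno z h.symm)
  have h2 : IsOpen {w | 0 < θ w} := isOpen_lt continuous_const hc
  rcases isClopen_iff.1 ⟨h1, h2⟩ with h | h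
  · obtain ⟨w, hw⟩ := exists_zero hθ
    have : (T ^ (1 : ℤ)) w ∈ {w | 0 < θ w} := by
      show 0 < θ _
      rw [theta_T hθ, hw]
      norm_num
    rw [h] at this
    exact this
  · obtain ⟨w, hw⟩ := exists_zero hθ
    have : w ∈ {w | 0 < θ w} := by
      rw [h]
      exact mem_univ _
    exact absurd this (by show ¬ 0 < θ w; rw [hw]; exact lt_irrefl _)

/-- `F ^ n` followed by the translation by `k` goes up. -/
def Pos (θ : ℝ × ℝ → ℝ) (F : ℝ × ℝ ≃ₜ ℝ × ℝ) (n k : ℤ) : Prop :=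
  ∀ (w : ℝ × ℝ) (j : ℤ), (j : ℝ) ≤ θ w → (j : ℝ) < θ ((F ^ n) w) + k

/-- `F ^ n` followed by the translation by `k` goes down. -/
def Neg (θ : ℝ × ℝ → ℝ) (F : ℝ × ℝ ≃ₜ ℝ × ℝ) (n k : ℤ) : Prop :=
  ∀ (w : ℝ × ℝ) (j : ℤ), θ w ≤ j → θ ((F ^ n) w) + k < j

theorem Pos.add {n k n' k' : ℤ} (h : Pos θ F n k) (h' : Pos θ F n' k') :
    Pos θ F (n + n') (k + k') := by
  intro w j hj
  have h1 := h' w j hj
  have h2 := h ((F ^ n') w) (j - k') (by push_cast; linarith)
  rw [zpow_add, Homeomorph.mul_apply]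
  push_cast at h2 ⊢
  linarith

theorem Neg.add {n k n' k' : ℤ} (h : Neg θ F n k) (h' : Neg θ F n' k') :
    Neg θ F (n + n') (k + k') := by
  intro w j hj
  have h1 := h' w j hj
  have h2 := h ((F ^ n') w) (j - k') (by push_cast; linarith)
  rw [zpow_add, Homeomorph.mul_apply]
  push_cast at h2 ⊢
  linarith

theorem not_pos_zero (hθ : Cut θ) : ¬ Pos θ F 0 0 := by
  intro h
  obtain ⟨w, hw⟩ := exists_zero hθ
  have := h w 0 (by rw [hw]; simp)
  rw [zpow_zero, Homeomorph.one_apply, hw] at this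
  simp at this

theorem not_neg_zero (hθ : Cut θ) : ¬ Neg θ F 0 0 := by
  intro h
  obtain ⟨w, hw⟩ := exists_zero hθ
  have := h w 0 (by rw [hw]; simp)
  rw [zpow_zero, Homeomorph.one_apply, hw] at this
  simp at this

theorem not_both (hθ : Cut θ) {n k : ℤ} (h : Pos θ F n k) (h' : Neg θ F n k) : False := by
  obtain ⟨w, hw⟩ := exists_zero hθ
  have h1 := h w 0 (by rw [hw]; simp)
  have h2 := h' w 0 (by rw [hw]; simp)
  linarith

theorem Pos.mono {n k k' : ℤ} (h : Pos θ F n k) (hk : k ≤ k') : Pos θ F n k' := by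
  intro w j hj
  have h1 := h w j hj
  have h2 : (k : ℝ) ≤ k' := by exact_mod_cast hk
  linarith

theorem Neg.mono {n k k' : ℤ} (h : Neg θ F n k) (hk : k' ≤ k) : Neg θ F n k' := by
  intro w j hj
  have h1 := h w j hj
  have h2 : (k' : ℝ) ≤ k := by exact_mod_cast hk
  linarith

theorem Pos.mul {n k : ℤ} (h : Pos θ F n k) (m : ℕ) (hm : 0 < m) :
    Pos θ F (m * n) (m * k) := by
  induction m, hm using Nat.le_induction with
  | base => simpa using h
  | succ m hm ih =>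
    have := ih.add h
    push_cast
    rw [add_mul, one_mul, add_mul, one_mul]
    exact this

theorem Neg.mul {n k : ℤ} (h : Neg θ F n k) (m : ℕ) (hm : 0 < m) :
    Neg θ F (m * n) (m * k) := by
  induction m, hm using Nat.le_induction with
  | base => simpa using h
  | succ m hm ih =>
    have := ih.add h
    push_cast
    rw [add_mul, one_mul, add_mul, one_mul]
    exact this

theorem hd' (hθ : Cut θ) (hF : ∀ w, F (T w) = T (F w))
    (hd : ∀ n : ℕ, 0 < n → ∀ k : ℤ, ∀ w, θ w = 0 → θ (F^[n] w) ≠ k) {n : ℤ} (hn : n ≠ 0)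
    (j k : ℤ) (w : ℝ × ℝ) (hw : θ w = j) : θ ((F ^ n) w) ≠ k := by
  have key : ∀ m : ℕ, 0 < m → ∀ (j k : ℤ) (w : ℝ × ℝ), θ w = j → θ ((F ^ (m : ℤ)) w) ≠ k := by
    intro m hm j k w hw h
    have h1 : θ ((T ^ (-j)) w) = 0 := by
      rw [theta_T hθ, hw]
      push_cast
      ring
    have h2 := hd m hm (k - j) _ h1
    apply h2
    rw [← pow_eq_iterate, ← zpow_natCast, comm_zpow hF, theta_T hθ, h]
    push_cast
    ring
  rcases lt_or_gt_of_ne hn with h | h
  · intro h1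
    have h2 : ((F ^ (-n)) ((F ^ n) w)) = w := by
      rw [← Homeomorph.mul_apply, ← zpow_add, neg_add_cancel, zpow_zero, Homeomorph.one_apply]
    have h3 := key (-n).toNat (by omega) k j ((F ^ n) w) h1
    rw [Int.toNat_of_nonneg (by omega), h2] at h3
    exact h3 hw
  · have h3 := key n.toNat (by omega) j k w hw
    rwa [Int.toNat_of_nonneg (by omega)] at h3

theorem pos_or_neg (hOrd : SpecOrd) (hθ : Cut θ) (hF : ∀ w, F (T w) = T (F w))
    (hd : ∀ n : ℕ, 0 < n → ∀ k : ℤ, ∀ w, θ w = 0 → θ (F^[n] w) ≠ k) {n k : ℤ}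
    (hnk : n ≠ 0 ∨ k ≠ 0) : Pos θ F n k ∨ Neg θ F n k := by
  have h1 := hOrd θ hθ (F ^ n * T ^ k) (fun w => by
    rw [Homeomorph.mul_apply, Homeomorph.mul_apply]
    have h2 : T w = (T ^ (1 : ℤ)) w := by rw [zpow_one]
    have h3 : T ((F ^ n) ((T ^ k) w)) = (T ^ (1 : ℤ)) ((F ^ n) ((T ^ k) w)) := by rw [zpow_one]
    rw [h3, h2, ← comm_zpow hF, ← Homeomorph.mul_apply (T ^ k), ← Homeomorph.mul_apply (T ^ (1 : ℤ)),
      ← zpow_add, ← zpow_add, add_comm]) (fun w hw => by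
    rw [Homeomorph.mul_apply, comm_zpow hF, theta_T hθ]
    intro h
    by_cases hn : n = 0
    · subst hn
      rw [zpow_zero, Homeomorph.one_apply, hw, zero_add] at h
      have : k = 0 := by exact_mod_cast h
      rcases hnk with h' | h'
      · exact h' rfl
      · exact h' this
    · refine hd' hθ hF hd hn 0 (-k) w (by rw [hw]; simp) ?_
      push_cast
      linarith)
  have hG : ∀ w, θ ((F ^ n * T ^ k) w) = θ ((F ^ n) w) + k := fun w => by
    rw [Homeomorph.mul_apply, comm_zpow hF, theta_T hθ]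
  rcases h1 with h1 | h1
  · left
    intro w j hj
    have h2 := h1 ((T ^ (-j)) w) (by rw [theta_T hθ]; push_cast; linarith)
    rw [hG, comm_zpow hF, theta_T hθ] at h2
    push_cast at h2
    linarith
  · right
    intro w j hj
    have h2 := h1 ((T ^ (-j)) w) (by rw [theta_T hθ]; push_cast; linarith)
    rw [hG, comm_zpow hF, theta_T hθ] at h2
    push_cast at h2
    linarith

/-- the rotation number -/
theorem exists_alpha (hOrd : SpecOrd) (hθ : Cut θ) (hF : ∀ w, F (T w) = T (F w))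
    (hd : ∀ n : ℕ, 0 < n → ∀ k : ℤ, ∀ w, θ w = 0 → θ (F^[n] w) ≠ k) :
    ∃ α : ℝ, (∀ n k : ℤ, 0 < n * α + k → Pos θ F n k) ∧
      (∀ n k : ℤ, n * α + k < 0 → Neg θ F n k) := by
  have hpn : ∀ {n k : ℤ}, (n ≠ 0 ∨ k ≠ 0) → Pos θ F n k ∨ Neg θ F n k :=
    fun h => pos_or_neg hOrd hθ hF hd h
  obtain ⟨w₀, hw₀⟩ := exists_zero hθ
  have hkey : ∀ (q : ℕ) (p : ℤ) (q' : ℕ) (p' : ℤ), 0 < q → 0 < q' → Pos θ F q (-p) →
      Neg θ F q' (-p') → (p : ℝ) / q ≤ p' / q' := by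
    intro q p q' p' hq hq' h h'
    by_contra hlt
    rw [not_le, div_lt_div_iff₀ (by exact_mod_cast hq') (by exact_mod_cast hq)] at hlt
    have hlt' : p' * q < p * q' := by exact_mod_cast hlt
    have h1 := h.mul q' hq'
    have h2 := h'.mul q hq
    have h3 : Neg θ F (q' * q) (q' * -p) := by
      rw [mul_comm (q' : ℤ) (q : ℤ)]
      refine h2.mono ?_
      nlinarith
    exact not_both hθ h1 h3
  let S : Set ℝ := {x | ∃ (q : ℕ) (p : ℤ), 0 < q ∧ Pos θ F q (-p) ∧ x = p / q}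
  have hp1 : Pos θ F (1 : ℕ) (-(⌊θ (F w₀)⌋ - 1)) := by
    rcases hpn (n := (1 : ℕ)) (k := -(⌊θ (F w₀)⌋ - 1)) (Or.inl (by norm_num)) with h | h
    · exact h
    · exfalso
      have h1 := h w₀ 0 (by rw [hw₀]; simp)
      rw [Nat.cast_one, zpow_one] at h1
      push_cast at h1
      linarith [Int.floor_le (θ (F w₀))]
  have hn1 : Neg θ F (1 : ℕ) (-(⌈θ (F w₀)⌉ + 1)) := by
    rcases hpn (n := (1 : ℕ)) (k := -(⌈θ (F w₀)⌉ + 1)) (Or.inl (by norm_num)) with h | h
    · exfalso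
      have h1 := h w₀ 0 (by rw [hw₀]; simp)
      rw [Nat.cast_one, zpow_one] at h1
      push_cast at h1
      linarith [Int.le_ceil (θ (F w₀))]
    · exact h
  have hSne : S.Nonempty := ⟨_, 1, _, one_pos, hp1, rfl⟩
  have hSb : BddAbove S := by
    refine ⟨((⌈θ (F w₀)⌉ + 1 : ℤ) : ℝ) / (1 : ℕ), ?_⟩
    rintro _ ⟨q, p, hq, hP, rfl⟩
    exact hkey q p 1 _ hq one_pos hP hn1
  have hle : ∀ (q : ℕ) (p : ℤ), 0 < q → Pos θ F q (-p) → (p : ℝ) / q ≤ sSup S :=
    fun q p hq h => le_csSup hSb ⟨q, p, hq, h, rfl⟩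
  have hge : ∀ (q : ℕ) (p : ℤ), 0 < q → Neg θ F q (-p) → sSup S ≤ (p : ℝ) / q := by
    intro q p hq h
    refine csSup_le hSne ?_
    rintro _ ⟨q', p', hq', hP, rfl⟩
    exact hkey q' p' q p hq' hq hP h
  have hneg : ∀ {n k : ℤ}, Neg θ F n k → (n ≠ 0 ∨ k ≠ 0) → Pos θ F (-n) (-k) := by
    intro n k h hnk
    rcases hpn (n := -n) (k := -k) (by omega) with h' | h'
    · exact h'
    · have := h.add h'
      rw [add_neg_cancel, add_neg_cancel] at this
      exact absurd this (not_neg_zero hθ)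
  have hpos : ∀ n k : ℤ, 0 < n * sSup S + k → Pos θ F n k := by
    intro n k hnk
    have hne : n ≠ 0 ∨ k ≠ 0 := by
      by_contra hcon
      push Not at hcon
      rw [hcon.1, hcon.2] at hnk
      simp at hnk
    rcases hpn hne with h | h
    · exact h
    exfalso
    rcases lt_trichotomy n 0 with hn | hn | hn
    · have h1 := hneg h hne
      have h2 := hle (-n).toNat k (by omega) (by
        rw [Int.toNat_of_nonneg (by omega)]
        exact h1)
      have h3 : (((-n).toNat : ℕ) : ℝ) = -n := by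
        have : (((-n).toNat : ℕ) : ℤ) = -n := Int.toNat_of_nonneg (by omega)
        exact_mod_cast this
      have h4 : (0 : ℝ) < -n := by exact_mod_cast (by omega : 0 < -n)
      rw [h3, div_le_iff₀ h4] at h2
      nlinarith
    · subst hn
      have h1 := h w₀ 0 (by rw [hw₀]; simp)
      rw [zpow_zero, Homeomorph.one_apply, hw₀] at h1
      push_cast at h1 hnk
      linarith
    · have h2 := hge n.toNat (-k) (by omega) (by
        rw [Int.toNat_of_nonneg (by omega), neg_neg]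
        exact h)
      have h3 : ((n.toNat : ℕ) : ℝ) = n := by
        have : ((n.toNat : ℕ) : ℤ) = n := Int.toNat_of_nonneg (by omega)
        exact_mod_cast this
      have h4 : (0 : ℝ) < n := by exact_mod_cast hn
      rw [h3, le_div_iff₀ h4] at h2
      push_cast at h2
      nlinarith
  refine ⟨sSup S, hpos, fun n k hnk => ?_⟩
  have hne : n ≠ 0 ∨ k ≠ 0 := by
    by_contra hcon
    push Not at hcon
    rw [hcon.1, hcon.2] at hnk
    simp at hnk
  rcases hpn hne with h | h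
  · exfalso
    have h1 := h.add (hpos (-n) (-k) (by push_cast; linarith))
    rw [add_neg_cancel, add_neg_cancel] at h1
    exact not_pos_zero hθ h1
  · exact h

theorem mem_zpow {W : Set (ℝ × ℝ)} (hW : ∀ w, w ∈ W ↔ T w ∈ W) (k : ℤ) (w : ℝ × ℝ) :
    w ∈ W ↔ (T ^ k) w ∈ W := by
  induction k using Int.induction_on generalizing w with
  | zero => simp
  | succ n ih => rw [zpow_add_one, Homeomorph.mul_apply, ← ih, ← hW]
  | pred n ih =>
    rw [zpow_sub_one, Homeomorph.mul_apply, ← ih, hW (T⁻¹ w), ← Homeomorph.mul_apply,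
      mul_inv_cancel, Homeomorph.one_apply]

/-- the powers of `F ^ q * T ^ p` -/
theorem pow_FT (hF : ∀ w, F (T w) = T (F w)) (q : ℕ) (p : ℤ) (n : ℕ) (w : ℝ × ℝ) :
    ((F ^ (q : ℤ) * T ^ p) ^ n) w = (F ^ ((q : ℤ) * n)) ((T ^ (p * n)) w) := by
  have h : Commute F T := Homeomorph.ext hF
  have h2 := (h.zpow_zpow q p).mul_pow n
  rw [h2, Homeomorph.mul_apply, zpow_mul, zpow_mul, zpow_natCast (F ^ (q : ℤ)) n,
    zpow_natCast (T ^ p) n]

theorem rec_false (hF : ∀ w, F (T w) = T (F w)) (q : ℕ) (p : ℤ) {W : Set (ℝ × ℝ)}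
    (hWT : ∀ w, w ∈ W ↔ T w ∈ W) (N : ℝ × ℝ → ℤ)
    (hmono : ∀ w, N w ≤ N ((F ^ (q : ℤ) * T ^ p) w))
    (hinc : ∀ w ∈ W, N w + 1 ≤ N ((F ^ (q : ℤ) * T ^ p) w)) (w : ℝ × ℝ)
    (hfr : ∃ᶠ n in atTop, (F^[q])^[n] w ∈ W) (B : ℤ)
    (hbd : ∀ n : ℕ, N (((F ^ (q : ℤ) * T ^ p) ^ n) w) ≤ B) : False := by
  set G := F ^ (q : ℤ) * T ^ p with hG
  have hfr' : ∃ᶠ n in atTop, (G ^ n) w ∈ W := by
    refine hfr.mono fun n hn => ?_
    rw [hG, pow_FT hF, comm_zpow hF, ← mem_zpow hWT]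
    rw [← Function.iterate_mul, ← pow_eq_iterate] at hn
    rw [← Nat.cast_mul, zpow_natCast]
    exact hn
  have hstep : ∀ n : ℕ, N ((G ^ n) w) ≤ N ((G ^ (n + 1)) w) := by
    intro n
    rw [pow_succ', Homeomorph.mul_apply]
    exact hmono _
  have hm : Monotone fun n : ℕ => N ((G ^ n) w) := monotone_nat_of_le_succ hstep
  have hall : ∀ m : ℕ, ∃ n : ℕ, N w + m ≤ N ((G ^ n) w) := by
    intro m
    induction m with
    | zero => exact ⟨0, by simp⟩
    | succ m ih =>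
      obtain ⟨n, hn⟩ := ih
      obtain ⟨n', hn', hW'⟩ := frequently_atTop.1 hfr' n
      refine ⟨n' + 1, ?_⟩
      have h1 := hinc _ hW'
      rw [← Homeomorph.mul_apply, ← pow_succ'] at h1
      have h2 : N ((G ^ n) w) ≤ N ((G ^ n') w) := hm hn'
      push_cast
      linarith
  obtain ⟨n, hn⟩ := hall (B - N w + 1).toNat
  have h1 := hbd n
  have h2 := Int.self_le_toNat (B - N w + 1)
  linarith

theorem irr (hθ : Cut θ) (hF : ∀ w, F (T w) = T (F w))
    (hr : ∀ q : ℕ, 0 < q → ∀ U : Set (ℝ × ℝ), IsOpen U → U.Nonempty → (∀ w, w ∈ U ↔ T w ∈ U) →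
      ∃ w ∈ U, ∃ᶠ n in atTop, (F^[q])^[n] w ∈ U)
    (hpn : ∀ {n k : ℤ}, (n ≠ 0 ∨ k ≠ 0) → Pos θ F n k ∨ Neg θ F n k) (α : ℝ)
    (hpos : ∀ n k : ℤ, 0 < n * α + k → Pos θ F n k)
    (hneg : ∀ n k : ℤ, n * α + k < 0 → Neg θ F n k) : Irrational α := by
  have hc := hθ.cont
  rintro ⟨x, hx⟩
  obtain ⟨q, hq, p, hqp⟩ : ∃ q : ℕ, 0 < q ∧ ∃ p : ℤ, (q : ℝ) * α + p = 0 := by
    refine ⟨x.den, x.den_pos, -x.num, ?_⟩
    rw [← hx]
    have h1 : (x : ℝ) = x.num / x.den := by exact_mod_cast (Rat.num_div_den x).symm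
    have h2 : (x.den : ℝ) ≠ 0 := by exact_mod_cast x.den_pos.ne'
    rw [h1]
    push_cast
    field_simp
    ring
  have hqpn : ∀ n : ℕ, (((q : ℤ) * n : ℤ) : ℝ) * α + ((p * n : ℤ) : ℝ) = 0 := by
    intro n
    push_cast
    linear_combination (n : ℝ) * hqp
  set G := F ^ (q : ℤ) * T ^ p with hG
  have hGT : ∀ w, θ (G (T w)) = θ (G w) + 1 := by
    intro w
    have h1 : ∀ v, G v = (T ^ p) ((F ^ (q : ℤ)) v) := fun v => by
      rw [hG, Homeomorph.mul_apply, comm_zpow hF]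
    have h2 : T w = (T ^ (1 : ℤ)) w := by rw [zpow_one]
    rw [h1, h1, theta_T hθ, theta_T hθ, h2, comm_zpow hF, theta_T hθ]
    push_cast
    ring
  have hGθ : ∀ w, θ (G w) = θ ((F ^ (q : ℤ)) w) + p := fun w => by
    rw [hG, Homeomorph.mul_apply, comm_zpow hF, theta_T hθ]
  have hGn : ∀ (n : ℕ) w, θ ((G ^ n) w) = θ ((F ^ ((q : ℤ) * n)) w) + ((p * n : ℤ) : ℝ) := by
    intro n w
    rw [hG, pow_FT hF, comm_zpow hF, theta_T hθ]
  have hGc : Continuous fun w => θ (G w) := hc.comp G.continuous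
  rcases hpn (n := q) (k := p) (Or.inl (by exact_mod_cast hq.ne')) with hP | hN
  · let W : Set (ℝ × ℝ) := ⋃ k : ℤ, {w | θ w < k ∧ (k : ℝ) < θ (G w)}
    have hWo : IsOpen W := isOpen_iUnion fun k =>
      (isOpen_lt hc continuous_const).inter (isOpen_lt continuous_const hGc)
    have hWne : W.Nonempty := by
      obtain ⟨z, hz, hzc⟩ := zero_lim_neg hθ
      have h1 : 0 < θ (G z) := by
        have := hP z 0 (by rw [hz]; simp)
        rw [hGθ]
        simpa using this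
      obtain ⟨w, hw1, hw2⟩ := mem_closure_iff.1 hzc _ (isOpen_lt continuous_const hGc) h1
      exact ⟨w, mem_iUnion.2 ⟨0, by simpa using hw2, by simpa using hw1⟩⟩
    have hWT : ∀ w, w ∈ W ↔ T w ∈ W := by
      intro w
      simp only [W, mem_iUnion, mem_ofPred_eq, hGT, hθ.eqv]
      constructor
      · rintro ⟨k, h1, h2⟩
        exact ⟨k + 1, by push_cast; linarith, by push_cast; linarith⟩
      · rintro ⟨k, h1, h2⟩
        exact ⟨k - 1, by push_cast; linarith, by push_cast; linarith⟩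
    obtain ⟨w, hw, hfr⟩ := hr q hq W hWo hWne hWT
    refine rec_false hF q p hWT (fun w => ⌈θ w⌉) (fun w => ?_) (fun w hw => ?_) w hfr
      (⌈θ w⌉ + 1) (fun n => ?_)
    · have h1 : ((⌈θ w⌉ - 1 : ℤ) : ℝ) ≤ θ w := by
        push_cast
        linarith [Int.ceil_lt_add_one (θ w)]
      have h2 := hP w _ h1
      rw [← hG]
      have h3 : ⌈θ w⌉ - 1 < ⌈θ (G w)⌉ := by
        rw [Int.lt_ceil, hGθ]
        exact h2
      omega
    · obtain ⟨k, h1, h2⟩ := mem_iUnion.1 hw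
      have h3 : ⌈θ w⌉ ≤ k := Int.ceil_le.2 h1.le
      have h4 : k < ⌈θ (G w)⌉ := Int.lt_ceil.2 h2
      show ⌈θ w⌉ + 1 ≤ ⌈θ (G w)⌉
      omega
    · have h1 := hneg ((q : ℤ) * n) (p * n - 1) (by
        have := hqpn n
        push_cast at this ⊢
        linarith) w ⌈θ w⌉ (Int.le_ceil _)
      show ⌈θ ((G ^ n) w)⌉ ≤ ⌈θ w⌉ + 1
      rw [Int.ceil_le, hGn]
      push_cast at h1 ⊢
      linarith
  · let W : Set (ℝ × ℝ) := ⋃ k : ℤ, {w | (k : ℝ) < θ w ∧ θ (G w) < k}
    have hWo : IsOpen W := isOpen_iUnion fun k =>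
      (isOpen_lt continuous_const hc).inter (isOpen_lt hGc continuous_const)
    have hWne : W.Nonempty := by
      obtain ⟨z, hz, hzc⟩ := zero_lim_pos hθ
      have h1 : θ (G z) < 0 := by
        have := hN z 0 (by rw [hz]; simp)
        rw [hGθ]
        simpa using this
      obtain ⟨w, hw1, hw2⟩ := mem_closure_iff.1 hzc _ (isOpen_lt hGc continuous_const) h1
      exact ⟨w, mem_iUnion.2 ⟨0, by simpa using hw2, by simpa using hw1⟩⟩
    have hWT : ∀ w, w ∈ W ↔ T w ∈ W := by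
      intro w
      simp only [W, mem_iUnion, mem_ofPred_eq, hGT, hθ.eqv]
      constructor
      · rintro ⟨k, h1, h2⟩
        exact ⟨k + 1, by push_cast; linarith, by push_cast; linarith⟩
      · rintro ⟨k, h1, h2⟩
        exact ⟨k - 1, by push_cast; linarith, by push_cast; linarith⟩
    obtain ⟨w, hw, hfr⟩ := hr q hq W hWo hWne hWT
    refine rec_false hF q p hWT (fun w => -⌊θ w⌋) (fun w => ?_) (fun w hw => ?_) w hfr
      (-⌊θ w⌋ + 1) (fun n => ?_)
    · have h1 : θ w ≤ ((⌊θ w⌋ + 1 : ℤ) : ℝ) := by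
        push_cast
        linarith [Int.lt_floor_add_one (θ w)]
      have h2 := hN w _ h1
      rw [← hG]
      have h3 : ⌊θ (G w)⌋ < ⌊θ w⌋ + 1 := by
        rw [Int.floor_lt, hGθ]
        exact h2
      show -⌊θ w⌋ ≤ -⌊θ (G w)⌋
      omega
    · obtain ⟨k, h1, h2⟩ := mem_iUnion.1 hw
      have h3 : k ≤ ⌊θ w⌋ := Int.le_floor.2 h1.le
      have h4 : ⌊θ (G w)⌋ < k := Int.floor_lt.2 h2
      show -⌊θ w⌋ + 1 ≤ -⌊θ (G w)⌋
      omega
    · have h1 := hpos ((q : ℤ) * n) (p * n + 1) (by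
        have := hqpn n
        push_cast at this ⊢
        linarith) w ⌊θ w⌋ (Int.floor_le _)
      show -⌊θ ((G ^ n) w)⌋ ≤ -⌊θ w⌋ + 1
      have h2 : ⌊θ w⌋ - 1 ≤ ⌊θ ((G ^ n) w)⌋ := by
        rw [Int.le_floor, hGn]
        push_cast at h1 ⊢
        linarith
      omega

theorem dense_comb {α : ℝ} (hα : Irrational α) {x y : ℝ} (hxy : x < y) :
    ∃ n j : ℤ, x < j - n * α ∧ j - n * α < y := by
  have h : Dense (AddSubgroup.closure {α, 1} : Set ℝ) := by
    rw [dense_addSubgroupClosure_pair_iff, div_one]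
    exact hα
  obtain ⟨z, hz, hz1, hz2⟩ := h.exists_between hxy
  obtain ⟨m, j, rfl⟩ := AddSubgroup.mem_closure_pair.1 hz
  refine ⟨-m, j, ?_, ?_⟩
  · simp only [zsmul_eq_mul, mul_one] at hz1
    push_cast
    linarith
  · simp only [zsmul_eq_mul, mul_one] at hz2
    push_cast
    linarith

/-- the lower class of the cut which defines `h w` -/
def Lo (θ : ℝ × ℝ → ℝ) (F : ℝ × ℝ ≃ₜ ℝ × ℝ) (α : ℝ) (w : ℝ × ℝ) : Set ℝ :=
  {x | ∃ n j : ℤ, x = j - n * α ∧ (j : ℝ) < θ ((F ^ n) w)}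

theorem lo_le {α : ℝ} (hpos : ∀ n k : ℤ, 0 < n * α + k → Pos θ F n k) {w : ℝ × ℝ} {l : ℝ}
    (hl : l ∈ Lo θ F α w) {m i : ℤ} (hu : θ ((F ^ m) w) < i) : l ≤ i - m * α := by
  obtain ⟨n, j, rfl, hj⟩ := hl
  by_contra hlt
  rw [not_le] at hlt
  have h1 := hpos (m - n) (j - i) (by push_cast; linarith) ((F ^ n) w) j hj.le
  rw [← Homeomorph.mul_apply, ← zpow_add, sub_add_cancel] at h1
  push_cast at h1
  linarith

theorem lo_ne {α : ℝ} (w : ℝ × ℝ) : (Lo θ F α w).Nonempty := by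
  refine ⟨_, 0, ⌊θ w⌋ - 1, rfl, ?_⟩
  rw [zpow_zero, Homeomorph.one_apply]
  push_cast
  linarith [Int.floor_le (θ w)]

theorem lo_bdd {α : ℝ} (hpos : ∀ n k : ℤ, 0 < n * α + k → Pos θ F n k) (w : ℝ × ℝ) :
    BddAbove (Lo θ F α w) := by
  refine ⟨((⌈θ w⌉ + 1 : ℤ) : ℝ) - (0 : ℤ) * α, fun l hl => lo_le hpos hl ?_⟩
  rw [zpow_zero, Homeomorph.one_apply]
  push_cast
  linarith [Int.le_ceil (θ w)]

theorem isLUB_shift {S : Set ℝ} {x a : ℝ} (h : IsLUB S x) (S' : Set ℝ)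
    (hS : ∀ y, y ∈ S' ↔ y - a ∈ S) : IsLUB S' (x + a) := by
  constructor
  · intro y hy
    have := h.1 ((hS y).1 hy)
    linarith
  · intro b hb
    have : x ≤ b - a := h.2 fun y hy => by
      have h1 : y + a ∈ S' := (hS _).2 (by rwa [add_sub_cancel_right])
      have := hb h1
      linarith
    linarith

end ROTAux

open ROTAux in
/-- ROT, with the bound for the displacement of the points of the zero set. -/
theorem specRot' (hOrd : SpecOrd) : ∀ (θ : ℝ × ℝ → ℝ), Cut θ → ∀ F : ℝ × ℝ ≃ₜ ℝ × ℝ,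
    (∀ w, F (T w) = T (F w)) →
    (∀ n : ℕ, 0 < n → ∀ k : ℤ, ∀ w, θ w = 0 → θ (F^[n] w) ≠ k) →
    (∀ q : ℕ, 0 < q → ∀ U : Set (ℝ × ℝ), IsOpen U → U.Nonempty → (∀ w, w ∈ U ↔ T w ∈ U) →
      ∃ w ∈ U, ∃ᶠ n in atTop, (F^[q])^[n] w ∈ U) →
    ∃ (α : ℝ) (h : ℝ × ℝ → ℝ), Irrational α ∧ Continuous h ∧ (∀ w, h (T w) = h w + 1) ∧
      (∀ w, h (F w) = h w + α) ∧ ∀ w, θ w = 0 → ∀ n : ℕ, |θ (F^[n] w) - n * α| ≤ 1 := by
  intro θ hθ F hF hd hr
  have hc := hθ.cont
  obtain ⟨α, hpos, hneg⟩ := exists_alpha hOrd hθ hF hd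
  have hα : Irrational α := irr hθ hF hr (fun h => pos_or_neg hOrd hθ hF hd h) α hpos hneg
  have hlub : ∀ w, IsLUB (Lo θ F α w) (sSup (Lo θ F α w)) := fun w =>
    isLUB_csSup (lo_ne w) (lo_bdd hpos w)
  have hup : ∀ w y, sSup (Lo θ F α w) < y → ∃ n j : ℤ, θ ((F ^ n) w) < j ∧ j - n * α < y := by
    intro w y hy
    have key : ∀ n j : ℤ, sSup (Lo θ F α w) < j - n * α → θ ((F ^ n) w) ≤ j := by
      intro n j h
      by_contra hlt
      rw [not_le] at hlt
      exact absurd ((hlub w).1 ⟨n, j, rfl, hlt⟩) (not_le.2 h)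
    obtain ⟨n, j, h1, h2⟩ := dense_comb hα hy
    obtain ⟨n', j', h3, h4⟩ := dense_comb hα h2
    have h5 := key n j h1
    have h6 := key n' j' (h1.trans h3)
    rcases lt_or_eq_of_le h5 with h5 | h5
    · exact ⟨n, j, h5, h2⟩
    rcases lt_or_eq_of_le h6 with h6 | h6
    · exact ⟨n', j', h6, h4⟩
    exfalso
    by_cases hnn : n' = n
    · rw [hnn] at h6 h3
      rw [h5] at h6
      rw [h6] at h3
      exact lt_irrefl _ h3
    · refine hd' hθ hF hd (sub_ne_zero.2 hnn) j j' ((F ^ n) w) h5 ?_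
      rw [← Homeomorph.mul_apply, ← zpow_add, sub_add_cancel]
      exact h6
  refine ⟨α, fun w => sSup (Lo θ F α w), hα, ?_, fun w => ?_, fun w => ?_, fun w hw n => ?_⟩
  · refine continuous_iff_continuousAt.2 fun w => tendsto_order.2 ⟨fun x hx => ?_, fun y hy => ?_⟩
    · obtain ⟨l, ⟨n, j, rfl, hj⟩, hl⟩ := exists_lt_of_lt_csSup (lo_ne w) hx
      have h1 : Continuous fun v => θ ((F ^ n) v) := hc.comp (F ^ n).continuous
      filter_upwards [(isOpen_lt continuous_const h1).mem_nhds hj] with v hv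
      exact hl.trans_le ((hlub v).1 ⟨n, j, rfl, hv⟩)
    · obtain ⟨n, j, hj, hl⟩ := hup w y hy
      have h1 : Continuous fun v => θ ((F ^ n) v) := hc.comp (F ^ n).continuous
      filter_upwards [(isOpen_lt h1 continuous_const).mem_nhds hj] with v hv
      exact ((hlub v).2 fun l hl => lo_le hpos hl hv).trans_lt hl
  · refine (hlub (T w)).unique (isLUB_shift (hlub w) _ fun y => ?_)
    have h1 : ∀ n : ℤ, θ ((F ^ n) (T w)) = θ ((F ^ n) w) + 1 := by
      intro n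
      have h2 : T w = (T ^ (1 : ℤ)) w := by rw [zpow_one]
      rw [h2, comm_zpow hF, theta_T hθ]
      simp
    constructor
    · rintro ⟨n, j, rfl, hj⟩
      rw [h1] at hj
      exact ⟨n, j - 1, by push_cast; ring, by push_cast; linarith⟩
    · rintro ⟨n, j, hy, hj⟩
      refine ⟨n, j + 1, by push_cast; linarith, ?_⟩
      rw [h1]
      push_cast
      linarith
  · refine (hlub (F w)).unique (isLUB_shift (hlub w) _ fun y => ?_)
    have h1 : ∀ n : ℤ, (F ^ n) (F w) = (F ^ (n + 1)) w := by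
      intro n
      rw [zpow_add_one, Homeomorph.mul_apply]
    constructor
    · rintro ⟨n, j, rfl, hj⟩
      rw [h1] at hj
      exact ⟨n + 1, j, by push_cast; ring, hj⟩
    · rintro ⟨n, j, hy, hj⟩
      refine ⟨n - 1, j, by push_cast; linarith, ?_⟩
      rw [h1, sub_add_cancel]
      exact hj
  · rcases Nat.eq_zero_or_pos n with rfl | hn
    · simp [hw]
    set x := θ (F^[n] w) with hx
    have hxF : θ ((F ^ (n : ℤ)) w) = x := by rw [zpow_natCast, pow_eq_iterate]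
    have h1 : (⌊x⌋ : ℝ) ≤ n * α := by
      by_contra hlt
      rw [not_le] at hlt
      have h2 := hneg n (-⌊x⌋) (by push_cast; linarith) w 0 (by rw [hw]; simp)
      rw [hxF] at h2
      push_cast at h2
      linarith [Int.floor_le x]
    have h2 : (n : ℝ) * α ≤ ⌊x⌋ + 1 := by
      by_contra hlt
      rw [not_le] at hlt
      have h2 := hpos n (-(⌊x⌋ + 1)) (by push_cast; linarith) w 0 (by rw [hw]; simp)
      rw [hxF] at h2
      push_cast at h2
      linarith [Int.lt_floor_add_one x]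
    rw [abs_le]
    constructor
    · linarith [Int.floor_le x]
    · linarith [Int.lt_floor_add_one x]

/-- ROT. The semiconjugacy, from ORD. -/
theorem specRot (hOrd : SpecOrd) : SpecRot := by
  intro θ hθ F hF hd hr
  obtain ⟨α, h, h1, h2, h3, h4, -⟩ := specRot' hOrd θ hθ F hF hd hr
  exact ⟨α, h, h1, h2, h3, h4⟩

end Pool.Agent.Lib.MP9fa4ca
end

section
/-!
# MP_9fa4ca_an : the case `b = -1`
-/
set_option autoImplicit false

open Set Topology Filter Complex MeasureTheory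

namespace Pool.Agent.Lib.MP9fa4ca

/-- For `b = -1` every invariant bounded open annulus contains a fixed point of `f ∘ f`. -/
theorem minus (hL : SpecLoc) (hF : SpecFar) (hH : SpecHne) (hP : SpecHcp) (hCr : SpecCrs)
    (hCu : SpecCut) (hAre : SpecAre) (p : ℝ → ℝ) (hp : Continuous p) (A : Set ℂ) (hA : IsOpen A)
    (hb : Bornology.IsBounded A) (e : ↥A ≃ₜ (Circle × ↥(Ioo (0 : ℝ) 1)))
    (hf : ∀ z, hen p (-1) z ∈ A ↔ z ∈ A) : ∃ z ∈ A, hen p (-1) (hen p (-1) z) = z := by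
  obtain ⟨Q, -⟩ := exists_ann hA e
  have hσ0 : ((-1 : ℤ) : ℝ) ≠ 0 := by norm_num
  have hcast : ((-1 : ℤ) : ℝ) = -1 := by norm_num
  have hf' : ∀ z, henH p hp ((-1 : ℤ) : ℝ) hσ0 z ∈ A ↔ z ∈ A := fun z => by
    rw [henH_apply, hcast]
    exact hf z
  obtain ⟨F, hFP, k, hk⟩ := Q.exists_lift (henH p hp ((-1 : ℤ) : ℝ) hσ0) hf'
  obtain ⟨hk1, hne, hinv⟩ := Ann.hole_inv (Q := Q) hH (hcn_of_hcp hP hL) hp (Or.inr rfl) hσ0 hA hb
    hf' F hFP hk
  have hFT : ∀ w, F (T w) = T.symm (F w) := fun w => by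
    rw [hk, hk1, hcast]
    rfl
  -- the crosscut
  obtain ⟨z, hz, hz0⟩ := exists_zero (Ann.isCompact_hole hL hF hA hb) (hP A Q hA hb) hne
    (fun z => henH p hp ((-1 : ℤ) : ℝ) hσ0 (henH p hp ((-1 : ℤ) : ℝ) hσ0 z))
    (fun z hz => hinv _ (hinv z hz)) Complex.im (fun z => p z.re) Complex.continuous_im
    (by fun_prop) (fun z _ => by
      simp only [henH_apply, hen_im, hen_re, hcast]
      ring)
  have hzd : (z.re : ℂ) + (z.im : ℂ) * I = z := by
    apply Complex.ext <;> simp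
  obtain ⟨s₀, s₁, hlt, h1, h2, h3, h4, h5⟩ := hCr A Q hA hb z.re I I_ne_zero
    ⟨z.im, by rw [hzd]; exact hz⟩
  obtain ⟨θ, hθ, hθi⟩ := hCu A Q z.re I s₀ s₁ I_ne_zero hlt h1 h2 h3 h4 h5
  obtain ⟨w, hw, k', hk'⟩ := hAre A Q hA hb θ hθ F hFT (henH p hp ((-1 : ℤ) : ℝ) hσ0) hFP
    (fun U hU => volume_image p hp _ (Or.inr hcast) hσ0 U hU)
  obtain ⟨s, -, -, hs⟩ := (hθi w).1 ⟨0, by rw [hw]; simp⟩
  obtain ⟨s', -, -, hs'⟩ := (hθi (F (F w))).1 ⟨k', hk'⟩
  rw [hFP, hFP, hs] at hs'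
  refine ⟨Q.P w, Q.mem w, ?_⟩
  rw [hs]
  simp only [henH_apply, hcast] at hs'
  have h6 := congrArg Complex.re hs'
  have h7 := congrArg Complex.im hs'
  simp [hz0] at h6 h7
  apply Complex.ext
  · simp [hz0, h6]
  · simp [hz0]

end Pool.Agent.Lib.MP9fa4ca
end
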