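import Pool.Agent.Lib.MP_9fa4ca_an.Fin2
import Pool.Agent.Lib.MP_9fa4ca_an.Minus
import Pool.Agent.Lib.MP_9fa4ca_an.ARE
import Pool.Agent.Lib.MP_9fa4ca_an.FAM

/-!
# MP_9fa4ca_an : assembly for both signs
-/

set_option autoImplicit false

open Set Topology Filter Complex MeasureTheory

namespace Pool.Agent.Lib.MP9fa4ca

universe u

/-- For `b = -1` there is no annular rotation domain. -/
theorem noMinus (p : ℝ → ℝ) (hp : Continuous p) (A : Set (ℝ × ℝ)) (hA : IsOpen A)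
    (hb : Bornology.IsBounded A) (e : ↥A ≃ₜ (Circle × ↥(Ioo (0 : ℝ) 1)))
    (hinv : (fun q : ℝ × ℝ => (p q.1 - -1 * q.2, q.1)) '' A = A) :
    ∃ q ∈ A, (fun q : ℝ × ℝ => (p q.1 - -1 * q.2, q.1))^[2] q = q := by
  have hcz : ∀ z : ℂ, cplx (hen p (-1) z) =
      (fun q : ℝ × ℝ => (p q.1 - -1 * q.2, q.1)) (cplx z) := fun z => by
    simp [cplx_apply]
  have hinj : Function.Injective fun q : ℝ × ℝ => (p q.1 - -1 * q.2, q.1) := by
    intro q q' h
    have h1 := congrArg Prod.fst h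
    have h2 := congrArg Prod.snd h
    simp only at h1 h2
    refine Prod.ext h2 ?_
    rw [h2] at h1
    linarith
  obtain ⟨z, hz, hzz⟩ := minus specLoc specFar specHne (specHcp specLoc specFar)
    (specCrs specLoc specFar) specCut (specAre specOrd) p hp (cplx ⁻¹' A)
    (hA.preimage cplx.continuous) (by
      have h1 : cplx ⁻¹' A = cplx.symm '' A := (cplx.symm.toEquiv.image_eq_preimage_symm A).symm
      rw [h1]
      exact (Complex.equivRealProdCLM.symm.lipschitz.isBounded_image hb))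
    ((cplx.sets rfl).trans e) (fun z => by
      rw [mem_preimage, mem_preimage, hcz]
      constructor
      · intro h
        rw [← hinv] at h
        obtain ⟨q, hq, hq'⟩ := h
        rw [← hinj hq']
        exact hq
      · intro h
        rw [← hinv]
        exact ⟨_, h, rfl⟩)
  refine ⟨cplx z, hz, ?_⟩
  have h1 := hcz (hen p (-1) z)
  rw [hcz z, hzz] at h1
  exact h1.symm

/-- The semiconjugacy, for both signs. -/
theorem semiconjugate (p : ℝ → ℝ) (hp : Continuous p) (b : ℝ) (hb1 : b = 1 ∨ b = -1)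
    (A : Set (ℝ × ℝ)) (hA : IsOpen A) (hb : Bornology.IsBounded A)
    (e : ↥A ≃ₜ (Circle × ↥(Ioo (0 : ℝ) 1)))
    (hinv : (fun q : ℝ × ℝ => (p q.1 - b * q.2, q.1)) '' A = A)
    (hper : ∀ q ∈ A, ∀ n : ℕ, 1 ≤ n → (fun q : ℝ × ℝ => (p q.1 - b * q.2, q.1))^[n] q ≠ q) :
    ∃ (α : ℝ) (u : ℝ × ℝ → ℝ), Irrational α ∧ ContinuousOn u A ∧
      ∀ q (hq : q ∈ A) (hq' : (p q.1 - b * q.2, q.1) ∈ A),
        (e ⟨(p q.1 - b * q.2, q.1), hq'⟩).1 * Circle.exp (u (p q.1 - b * q.2, q.1)) =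
          Circle.exp (2 * Real.pi * α) * ((e ⟨q, hq⟩).1 * Circle.exp (u q)) := by
  rcases hb1 with rfl | rfl
  · simp only [one_mul] at hinv hper ⊢
    have hard := cplx_ard hA hb hinv hper
    obtain ⟨α, hα, u, hu, h⟩ := specSem p hp (cplx ⁻¹' A) hard ((cplx.sets rfl).trans e)
    refine ⟨α, fun q => u (cplx.symm q), hα, ?_, fun q hq hq' => ?_⟩
    · refine hu.comp cplx.symm.continuous.continuousOn fun q hq => ?_
      rw [Set.mem_preimage, Homeomorph.apply_symm_apply]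
      exact hq
    · have hz : cplx.symm q ∈ cplx ⁻¹' A := by
        rw [Set.mem_preimage, Homeomorph.apply_symm_apply]
        exact hq
      have h1 : hen p 1 (cplx.symm q) = cplx.symm (p q.1 - q.2, q.1) := by
        apply cplx.injective
        rw [cplx_hen, Homeomorph.apply_symm_apply, Homeomorph.apply_symm_apply]
      have h2 := h (cplx.symm q) hz ((hard.inv _).2 hz)
      have h3 : ∀ (z : ℂ) (hz : z ∈ cplx ⁻¹' A) (r : ℝ × ℝ) (hr : r ∈ A), cplx z = r →
          ((cplx.sets rfl).trans e) ⟨z, hz⟩ = e ⟨r, hr⟩ := by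
        intro z hz r hr hzr
        subst hzr
        rfl
      rw [h3 _ hz q hq (Homeomorph.apply_symm_apply _ _), h3 _ _ _ hq' (by
        rw [h1, Homeomorph.apply_symm_apply]), h1] at h2
      exact h2
  · exfalso
    obtain ⟨q, hq, hq'⟩ := noMinus p hp A hA hb e hinv
    exact hper q hq 2 (by norm_num) hq'

section Plane

variable {d : ℕ}

/-- The map `(x, y) ↦ (p x - b y, x)`, `p x = ∑ c i * x ^ i`. -/
noncomputable def henon (b : ℝ) (c : Fin (d + 1) → ℝ) (q : ℝ × ℝ) : ℝ × ℝ :=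
  (∑ i : Fin (d + 1), c i * q.1 ^ (i : ℕ) - b * q.2, q.1)

/-- `A` is an annular rotation domain of `henon b c`: bounded, open, homeomorphic to an open
annulus, invariant, without periodic points. -/
structure RotDom (b : ℝ) (c : Fin (d + 1) → ℝ) (A : Set (ℝ × ℝ)) : Prop where
  opn : IsOpen A
  bdd : Bornology.IsBounded A
  ann : Nonempty (↥A ≃ₜ (Circle × ↥(Ioo (0 : ℝ) 1)))
  inv : henon b c '' A = A
  per : ∀ q ∈ A, ∀ n : ℕ, 1 ≤ n → (henon b c)^[n] q ≠ q

/-- `α` is a rotation number of `henon b c` on the annulus `A`: there is a continuous map `h` from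
`A` to the circle, homotopic to the circle coordinate of some homeomorphism `e` of `A` with the
open annulus (`h = e.1 * exp (i u)`), such that `h (f q) = exp (2 π i α) * h q`. -/
def RotNum (b : ℝ) (c : Fin (d + 1) → ℝ) (A : Set (ℝ × ℝ)) (α : ℝ) : Prop :=
  ∃ (e : ↥A ≃ₜ (Circle × ↥(Ioo (0 : ℝ) 1))) (u : ℝ × ℝ → ℝ), ContinuousOn u A ∧
    ∀ q (hq : q ∈ A) (hq' : henon b c q ∈ A),
      (e ⟨henon b c q, hq'⟩).1 * Circle.exp (u (henon b c q)) =
        Circle.exp (2 * Real.pi * α) * ((e ⟨q, hq⟩).1 * Circle.exp (u q))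

theorem henon_one (c : Fin (d + 1) → ℝ) : henon 1 c = hmapOne c := by
  funext q
  simp [henon, hmapOne]

theorem rotDom_one {c : Fin (d + 1) → ℝ} {A : Set (ℝ × ℝ)} : RotDom 1 c A ↔ RotDomOne c A := by
  constructor
  · rintro ⟨h1, h2, h3, h4, h5⟩
    rw [henon_one] at h4 h5
    exact ⟨h1, h2, h3, h4, h5⟩
  · rintro ⟨h1, h2, h3, h4, h5⟩
    rw [← henon_one] at h4 h5
    exact ⟨h1, h2, h3, h4, h5⟩

theorem rotNum_one {c : Fin (d + 1) → ℝ} {A : Set (ℝ × ℝ)} {α : ℝ} :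
    RotNum 1 c A α ↔ RotNumOne c A α := by
  unfold RotNum RotNumOne
  rw [henon_one]

theorem no_rotDom (c : Fin (d + 1) → ℝ) (A : Set (ℝ × ℝ)) : ¬ RotDom (-1) c A := by
  intro h
  obtain ⟨e⟩ := h.ann
  have hp : Continuous fun x : ℝ => ∑ i : Fin (d + 1), c i * x ^ (i : ℕ) := by fun_prop
  obtain ⟨q, hq, hq'⟩ := noMinus _ hp A h.opn h.bdd e h.inv
  exact h.per q hq 2 (by norm_num) hq'

/-- The locking theorem, for continuous families. -/
theorem locking {X : Type u} [TopologicalSpace X] [SecondCountableTopology X]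
    [LocallyConnectedSpace X] [BaireSpace X] (d : ℕ) (hd : 2 ≤ d) (b : ℝ) (hb : b = 1 ∨ b = -1)
    (c : X → Fin (d + 1) → ℝ) (hc : Continuous c) (hlast : ∀ t, c t (Fin.last d) ≠ 0) :
    (∃ (R : Set ℝ) (N : Set X), R.Countable ∧ IsMeagre N ∧
      ∀ t ∉ N, ∀ A : Set (ℝ × ℝ), RotDom b (c t) A → ∀ α, RotNum b (c t) A α → α ∈ R) ∧
    ∀ U : Set X, IsOpen U → U.Nonempty → (∀ t ∈ U, ∃ A : Set (ℝ × ℝ), RotDom b (c t) A) →
      ∃ (V : Set X) (α : ℝ), IsOpen V ∧ V.Nonempty ∧ V ⊆ U ∧ Irrational α ∧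
        V ⊆ closure {t | t ∈ V ∧ ∃ A : Set (ℝ × ℝ), RotDom b (c t) A ∧ RotNum b (c t) A α} := by
  rcases hb with rfl | rfl
  · simp only [rotDom_one, rotNum_one]
    refine ⟨?_, fun U hU hne h => ?_⟩
    · obtain ⟨R, N, hR, hN, h⟩ := specFab (specSgf specPly) frqAll X d hd c hc hlast
      refine ⟨R, N, hR, hN, fun t ht A hA α hα => ?_⟩
      obtain ⟨e, he⟩ := hα.hasRot
      exact h t ht _ hA.isARD e α he
    · obtain ⟨V, α, hV, hVne, hVU, hα, hcl⟩ := specFac (specFab (specSgf specPly) frqAll) specSem X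
        d hd c hc hlast U hU hne fun t ht => by
          obtain ⟨A, hA⟩ := h t ht
          obtain ⟨e⟩ := hA.ann
          exact ⟨cplx ⁻¹' A, hA.isARD, ⟨(cplx.sets rfl).trans e⟩⟩
      refine ⟨V, α, hV, hVne, hVU, hα, hcl.trans (closure_mono ?_)⟩
      rintro t ⟨ht, A, e, hA, hrot⟩
      exact ⟨ht, cplx.symm ⁻¹' A, hA.rotDomOne e, hrot.rotNumOne⟩
  · refine ⟨⟨∅, ∅, countable_empty, IsMeagre.empty, fun t _ A hA => absurd hA (no_rotDom _ A)⟩,
      fun U _ hne h => ?_⟩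
    obtain ⟨t, ht⟩ := hne
    obtain ⟨A, hA⟩ := h t ht
    exact absurd hA (no_rotDom _ A)

end Plane

end Pool.Agent.Lib.MP9fa4ca
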