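import Pool.Agent.Lib.MP_9fa4ca_an.SpecD

/-!
# MP_9fa4ca_an : UNI, the rotation number is unique modulo one
-/

set_option autoImplicit false

open Set Topology Filter Complex MeasureTheory

namespace Pool.Agent.Lib.MP9fa4ca

theorem specUni : SpecUni := by
  rintro p hp A hA e α α' ⟨u, hu, hue⟩ ⟨u', hu', hue'⟩
  obtain ⟨Q, -⟩ := exists_ann hA.opn e
  have hpi : (2 * Real.pi) ≠ 0 := by positivity
  set f := hen p 1 with hf
  have hfc : Continuous f := (henH p hp 1 one_ne_zero).continuous
  have hfA : ∀ z ∈ A, f z ∈ A := fun z hz => (hA.inv z).2 hz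
  let v : ℂ → ℝ := fun z => u' z - u z
  have hv : ContinuousOn v A := hu'.sub hu
  have hex : ∀ z ∈ A, ∃ m : ℤ, v (f z) - v z - 2 * Real.pi * (α' - α) = m * (2 * Real.pi) := by
    intro z hz
    have h1 := hue z hz (hfA z hz)
    have h2 := hue' z hz (hfA z hz)
    have h3 : Circle.exp (u' (f z) + u z + 2 * Real.pi * α) =
        Circle.exp (u (f z) + u' z + 2 * Real.pi * α') := by
      rw [Circle.exp_add, Circle.exp_add, Circle.exp_add, Circle.exp_add]
      apply mul_left_cancel (a := (e ⟨f z, hfA z hz⟩).1 * (e ⟨z, hz⟩).1)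
      calc (e ⟨f z, hfA z hz⟩).1 * (e ⟨z, hz⟩).1 *
            (Circle.exp (u' (f z)) * Circle.exp (u z) * Circle.exp (2 * Real.pi * α))
          = ((e ⟨f z, hfA z hz⟩).1 * Circle.exp (u' (f z))) *
            (Circle.exp (2 * Real.pi * α) * ((e ⟨z, hz⟩).1 * Circle.exp (u z))) := by ac_rfl
        _ = (Circle.exp (2 * Real.pi * α') * ((e ⟨z, hz⟩).1 * Circle.exp (u' z))) *
            ((e ⟨f z, hfA z hz⟩).1 * Circle.exp (u (f z))) := by rw [h2, h1]
        _ = (e ⟨f z, hfA z hz⟩).1 * (e ⟨z, hz⟩).1 *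
            (Circle.exp (u (f z)) * Circle.exp (u' z) * Circle.exp (2 * Real.pi * α')) := by
            ac_rfl
    obtain ⟨m, hm⟩ := Circle.exp_eq_exp.1 h3
    refine ⟨m, ?_⟩
    show u' (f z) - u (f z) - (u' z - u z) - 2 * Real.pi * (α' - α) = m * (2 * Real.pi)
    linarith
  obtain ⟨k, hk⟩ := int_const
    (fun w => (v (f (Q.P w)) - v (Q.P w) - 2 * Real.pi * (α' - α)) / (2 * Real.pi))
    (by
      have h1 : Continuous fun w => v (f (Q.P w)) :=
        hv.comp_continuous (hfc.comp Q.cP) fun w => hfA _ (Q.mem w)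
      have h2 : Continuous fun w => v (Q.P w) := hv.comp_continuous Q.cP Q.mem
      exact ((h1.sub h2).sub continuous_const).div_const _)
    (fun w => by
      obtain ⟨m, hm⟩ := hex (Q.P w) (Q.mem w)
      exact ⟨m, by rw [hm, mul_div_cancel_right₀ _ hpi]⟩)
  set δ : ℝ := 2 * Real.pi * (α' - α + k) with hδ
  have hstep : ∀ z ∈ A, v (f z) = v z + δ := by
    intro z hz
    obtain ⟨w, rfl⟩ := Q.surj z hz
    have := hk w
    rw [div_eq_iff hpi] at this
    rw [hδ]
    linarith
  have hit : ∀ (n : ℕ) (z : ℂ), z ∈ A → f^[n] z ∈ A ∧ v (f^[n] z) = v z + n * δ := by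
    intro n
    induction n with
    | zero =>
      intro z hz
      simpa using hz
    | succ n ih =>
      intro z hz
      obtain ⟨h1, h2⟩ := ih z hz
      rw [Function.iterate_succ_apply']
      refine ⟨hfA _ h1, ?_⟩
      rw [hstep _ h1, h2]
      push_cast
      ring
  have hδ0 : δ = 0 := by
    by_contra hne
    have hδp : 0 < |δ| := abs_pos.2 hne
    let W : Set ℂ := A ∩ v ⁻¹' Metric.ball (v (Q.P 0)) (|δ| / 2)
    have hWo : IsOpen W := hv.isOpen_inter_preimage hA.opn Metric.isOpen_ball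
    have hWne : W.Nonempty := ⟨Q.P 0, Q.mem _, Metric.mem_ball_self (by linarith)⟩
    have hpre : f ⁻¹' A = A := by
      ext z
      exact hA.inv z
    have hmp := (hen_mp p hp 1 (Or.inl rfl)).restrict_preimage hA.opn.measurableSet
    rw [← hf, hpre] at hmp
    haveI : IsFiniteMeasure (volume.restrict A : Measure ℂ) :=
      ⟨by rw [Measure.restrict_apply_univ]; exact hA.bdd.measure_lt_top⟩
    have hpos : (volume.restrict A : Measure ℂ) W ≠ 0 := by
      rw [Measure.restrict_apply hWo.measurableSet, inter_eq_left.2 inter_subset_left]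
      exact (hWo.measure_pos volume hWne).ne'
    obtain ⟨x, hx, m, hm, hmx⟩ := hmp.exists_mem_iterate_mem
      hWo.measurableSet.nullMeasurableSet hpos
    have h1 := (hit m x hx.1).2
    have h2 : |v x - v (Q.P 0)| < |δ| / 2 := by
      have := hx.2
      rwa [mem_preimage, Metric.mem_ball, Real.dist_eq] at this
    have h3 : |v (f^[m] x) - v (Q.P 0)| < |δ| / 2 := by
      have := hmx.2
      rwa [mem_preimage, Metric.mem_ball, Real.dist_eq] at this
    have h4 : |(m : ℝ) * δ| < |δ| := by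
      have : (m : ℝ) * δ = (v (f^[m] x) - v (Q.P 0)) - (v x - v (Q.P 0)) := by
        rw [h1]
        ring
      rw [this]
      refine (abs_sub _ _).trans_lt ?_
      linarith
    rw [abs_mul, Nat.abs_cast] at h4
    have h5 : (1 : ℝ) ≤ m := by exact_mod_cast Nat.one_le_iff_ne_zero.2 hm
    nlinarith
  refine ⟨-k, ?_⟩
  rcases mul_eq_zero.1 hδ0 with h | h
  · exact absurd h hpi
  · push_cast
    linarith

end Pool.Agent.Lib.MP9fa4ca
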