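import Pool.Agent.Lib.MP_9fa4ca_an.SpecC
import Pool.Agent.Lib.MP_9fa4ca_an.Minus
import Pool.Agent.Lib.MP_9fa4ca_an.Fin
import Pool.Agent.Lib.MP_9fa4ca_an.NAT
import Pool.Agent.Lib.MP_9fa4ca_an.UNI
import Pool.Agent.Lib.MP_9fa4ca_an.FAM

section
/-!
# MP_9fa4ca_an : a line from the hole to the outside meets every level
-/
set_option autoImplicit false

open Set Topology Filter Complex MeasureTheory

namespace Pool.Agent.Lib.MP9fa4ca

namespace METAux

variable {A : Set ℂ} (Q : Ann A)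

theorem exists_dist' (w : ℂ) (t : ℝ) (hw : ∀ x : ℝ, Q.P (x, t) ≠ w) :
    ∃ δ : ℝ, 0 < δ ∧ ∀ x : ℝ, δ ≤ ‖Q.P (x, t) - w‖ := by
  have hc : Continuous fun x : ℝ => ‖Q.P (x, t) - w‖ := by
    have := Q.cP
    fun_prop
  obtain ⟨x₀, -, hx₀⟩ := (isCompact_Icc (a := (0 : ℝ)) (b := 1)).exists_isMinOn
    (nonempty_Icc.2 zero_le_one) hc.continuousOn
  refine ⟨‖Q.P (x₀, t) - w‖, ?_, fun x => ?_⟩
  · rw [norm_pos_iff, sub_ne_zero]
    exact hw x₀
  · have h1 : Q.P (x, t) = Q.P (Int.fract x, t) := by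
      have := Q.perk (Int.fract x, t) ⌊x⌋
      rw [← this]
      simp only
      rw [Int.fract_add_floor]
    rw [h1]
    exact hx₀ ⟨Int.fract_nonneg x, (Int.fract_lt_one x).le⟩

theorem move {w w' : ℂ} {t δ : ℝ} {m : ℤ} (h : LDeg (fun x => Q.P (x, t) - w) m)
    (hδ : ∀ x : ℝ, δ ≤ ‖Q.P (x, t) - w‖) (hw : ‖w' - w‖ < δ) :
    LDeg (fun x => Q.P (x, t) - w') m := by
  refine h.of_near ?_ (fun x => ?_) fun x => ?_
  · have := Q.cP
    fun_prop
  · have := Q.per (x, t)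
    simp only [T_apply] at this
    rw [this]
  · rw [show Q.P (x, t) - w' - (Q.P (x, t) - w) = -(w' - w) by ring, norm_neg]
    exact hw.trans_le (hδ x)

theorem exists_ldeg (w : ℂ) (t : ℝ) (hw : ∀ x : ℝ, Q.P (x, t) ≠ w) :
    ∃ m : ℤ, LDeg (fun x => Q.P (x, t) - w) m := by
  have hc : Continuous fun x : ℝ => Q.P (x, t) - w := by
    have := Q.cP
    fun_prop
  obtain ⟨L, hL, hLe⟩ := exists_log _ hc fun x => sub_ne_zero.2 (hw x)
  obtain ⟨k, hk⟩ := log_unique (fun x => L (x + 1)) L (by fun_prop) hL fun x => by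
    rw [hLe, hLe]
    have := Q.per (x, t)
    simp only [T_apply] at this
    rw [this]
  exact ⟨k, L, hL, hLe, hk⟩

end METAux

theorem specMet (_hL : SpecLoc) : SpecMet := by
  intro A Q ζ hζ z₀ z₁ hz₀ hz₁ h₀ h₁ hne t
  by_contra hcon
  push Not at hcon
  have hoff : ∀ s, ∀ x : ℝ, Q.P (x, t) ≠ Q.P (ζ s) := by
    intro s x h
    obtain ⟨k, hk⟩ := Q.inj _ _ h
    exact hcon s (by rw [hk])
  choose m hm using fun s => METAux.exists_ldeg Q (Q.P (ζ s)) t (hoff s)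
  have hPζ : Continuous fun s => Q.P (ζ s) := Q.cP.comp hζ
  have hloc : IsLocallyConstant m := by
    rw [IsLocallyConstant.iff_eventually_eq]
    intro s
    obtain ⟨δ, hδ, hd⟩ := METAux.exists_dist' Q (Q.P (ζ s)) t (hoff s)
    have h2 : ∀ᶠ s' in 𝓝 s, ‖Q.P (ζ s') - Q.P (ζ s)‖ < δ := by
      have h3 := (hPζ.tendsto s).eventually (Metric.ball_mem_nhds _ hδ)
      filter_upwards [h3] with s' hs'
      rwa [dist_eq_norm] at hs'
    filter_upwards [h2] with s' hs'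
    exact (hm s').unique (METAux.move Q (hm s) hd hs')
  have hlim : ∀ z : ℂ, z ∉ A → ∀ l : Filter ℝ, Tendsto (fun s => Q.P (ζ s)) l (𝓝 z) →
      ∀ᶠ s in l, m s = Q.nu z := by
    intro z hz l hl
    obtain ⟨δ, hδ, hd⟩ := Q.exists_dist z hz t
    filter_upwards [hl.eventually (Metric.ball_mem_nhds _ hδ)] with s hs
    rw [dist_eq_norm] at hs
    exact (hm s).unique (METAux.move Q ((Ann.nu_deg hz).ldeg t) hd hs)
  obtain ⟨s₀, hs₀⟩ := (hlim z₀ hz₀ atBot h₀).exists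
  obtain ⟨s₁, hs₁⟩ := (hlim z₁ hz₁ atTop h₁).exists
  apply hne
  rw [← hs₀, ← hs₁]
  exact hloc.apply_eq_of_preconnectedSpace s₀ s₁

end Pool.Agent.Lib.MP9fa4ca
end

section
/-!
# MP_9fa4ca_an : assembly of the locking theorem
-/
set_option autoImplicit false

open Set Topology Filter Complex MeasureTheory

namespace Pool.Agent.Lib.MP9fa4ca

theorem specRec : SpecRec := fun _ Q hA hb f hmp hf F hFP q U hU hne hT =>
  recur Q hA hb f hmp hf F hFP q U hU hne hT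

theorem frqAll : SpecFrq :=
  specFrq coreAll specNat (specDeg specNat specRec) (specMet specLoc) specUni

theorem baiAll : SpecBai := specBai (specSgn specPly) frqAll

theorem corAll : SpecCor := specCor baiAll specSem

section Plane

variable {d : ℕ}

/-- The conservative Hénon map `(x, y) ↦ (p x - y, x)`, `p x = ∑ c i * x ^ i`. -/
noncomputable def hmapOne (c : Fin (d + 1) → ℝ) (q : ℝ × ℝ) : ℝ × ℝ :=
  (∑ i : Fin (d + 1), c i * q.1 ^ (i : ℕ) - q.2, q.1)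

/-- `A` is an annular rotation domain of `hmapOne c`: bounded, open, homeomorphic to an open annulus,
invariant, without periodic points. -/
structure RotDomOne (c : Fin (d + 1) → ℝ) (A : Set (ℝ × ℝ)) : Prop where
  opn : IsOpen A
  bdd : Bornology.IsBounded A
  ann : Nonempty (↥A ≃ₜ (Circle × ↥(Ioo (0 : ℝ) 1)))
  inv : hmapOne c '' A = A
  per : ∀ q ∈ A, ∀ n : ℕ, 1 ≤ n → (hmapOne c)^[n] q ≠ q

/-- `α` is a rotation number of `hmapOne c` on the annulus `A`: there is a continuous map `h` from `A`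
to the circle, homotopic to the circle coordinate of some homeomorphism `e` of `A` with the open
annulus (`h = e.1 * exp (i u)`), such that `h (f q) = exp (2 π i α) * h q`. -/
def RotNumOne (c : Fin (d + 1) → ℝ) (A : Set (ℝ × ℝ)) (α : ℝ) : Prop :=
  ∃ (e : ↥A ≃ₜ (Circle × ↥(Ioo (0 : ℝ) 1))) (u : ℝ × ℝ → ℝ), ContinuousOn u A ∧
    ∀ q (hq : q ∈ A) (hq' : hmapOne c q ∈ A),
      (e ⟨hmapOne c q, hq'⟩).1 * Circle.exp (u (hmapOne c q)) =
        Circle.exp (2 * Real.pi * α) * ((e ⟨q, hq⟩).1 * Circle.exp (u q))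

theorem hmapOne_eq (c : Fin (d + 1) → ℝ) :
    hmapOne c = fun q : ℝ × ℝ => (pol c q.1 - q.2, q.1) := rfl

theorem RotDomOne.isARD {c : Fin (d + 1) → ℝ} {A : Set (ℝ × ℝ)} (h : RotDomOne c A) :
    IsARD (pol c) (cplx ⁻¹' A) :=
  cplx_ard h.opn h.bdd (by rw [← hmapOne_eq]; exact h.inv) (by rw [← hmapOne_eq]; exact h.per)

theorem RotNumOne.hasRot {c : Fin (d + 1) → ℝ} {A : Set (ℝ × ℝ)} {α : ℝ} (h : RotNumOne c A α) :
    ∃ e : ↥(cplx ⁻¹' A) ≃ₜ (Circle × ↥(Ioo (0 : ℝ) 1)), HasRot (pol c) (cplx ⁻¹' A) e α := by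
  obtain ⟨e, u, hu, h⟩ := h
  refine ⟨(cplx.sets rfl).trans e, fun z => u (cplx z), ?_, fun z hz hz' => ?_⟩
  · exact hu.comp cplx.continuous.continuousOn fun z hz => hz
  · have h1 : cplx (hen (pol c) 1 z) = hmapOne c (cplx z) := cplx_hen (pol c) z
    have h2 := h (cplx z) hz (by rw [← h1]; exact hz')
    have h3 : ∀ (z : ℂ) (hz : z ∈ cplx ⁻¹' A) (r : ℝ × ℝ) (hr : r ∈ A), cplx z = r →
        ((cplx.sets rfl).trans e) ⟨z, hz⟩ = e ⟨r, hr⟩ := by
      intro z hz r hr hzr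
      subst hzr
      rfl
    have h4 : u (cplx (hen (pol c) 1 z)) = u (hmapOne c (cplx z)) := congrArg u h1
    rw [h3 _ hz' _ (by rw [← h1]; exact hz') h1, h3 _ hz _ hz rfl]
    beta_reduce
    rw [h4]
    exact h2

theorem IsARD.rotDomOne {c : Fin (d + 1) → ℝ} {A : Set ℂ} (h : IsARD (pol c) A)
    (e : ↥A ≃ₜ (Circle × ↥(Ioo (0 : ℝ) 1))) : RotDomOne c (cplx.symm ⁻¹' A) where
  opn := h.opn.preimage cplx.symm.continuous
  bdd := by
    have h1 : cplx.symm ⁻¹' A = cplx '' A := (cplx.toEquiv.image_eq_preimage_symm A).symm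
    rw [h1]
    exact (Complex.equivRealProdCLM.lipschitz.isBounded_image h.bdd)
  ann := ⟨(cplx.symm.sets rfl).trans e⟩
  inv := by
    have hz : ∀ q : ℝ × ℝ, cplx.symm (hmapOne c q) = hen (pol c) 1 (cplx.symm q) := fun q => by
      apply cplx.injective
      rw [cplx_hen, Homeomorph.apply_symm_apply, Homeomorph.apply_symm_apply, hmapOne_eq]
    ext q
    constructor
    · rintro ⟨r, hr, rfl⟩
      rw [mem_preimage, hz]
      exact (h.inv _).2 hr
    · intro hq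
      refine ⟨(q.2, pol c q.2 - q.1), ?_, ?_⟩
      · rw [mem_preimage, ← h.inv, ← hz]
        convert hq using 2
        simp [hmapOne_eq]
      · simp [hmapOne_eq]
  per := fun q hq n hn hfix => by
    refine h.per (cplx.symm q) hq n hn ?_
    apply cplx.injective
    rw [cplx_iter, Homeomorph.apply_symm_apply, ← hmapOne_eq]
    exact hfix

theorem HasRot.rotNumOne {c : Fin (d + 1) → ℝ} {A : Set ℂ}
    {e : ↥A ≃ₜ (Circle × ↥(Ioo (0 : ℝ) 1))} {α : ℝ} (h : HasRot (pol c) A e α) :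
    RotNumOne c (cplx.symm ⁻¹' A) α := by
  obtain ⟨u, hu, h⟩ := h
  refine ⟨(cplx.symm.sets rfl).trans e, fun q => u (cplx.symm q), ?_, fun q hq hq' => ?_⟩
  · exact hu.comp cplx.symm.continuous.continuousOn fun z hz => hz
  · have h1 : cplx.symm (hmapOne c q) = hen (pol c) 1 (cplx.symm q) := by
      apply cplx.injective
      rw [cplx_hen, Homeomorph.apply_symm_apply, Homeomorph.apply_symm_apply, hmapOne_eq]
    have h2 := h (cplx.symm q) hq (by rw [← h1]; exact hq')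
    have h3 : ∀ (q : ℝ × ℝ) (hq : q ∈ cplx.symm ⁻¹' A) (r : ℂ) (hr : r ∈ A), cplx.symm q = r →
        ((cplx.symm.sets rfl).trans e) ⟨q, hq⟩ = e ⟨r, hr⟩ := by
      intro q hq r hr hqr
      subst hqr
      rfl
    have h4 : u (cplx.symm (hmapOne c q)) = u (hen (pol c) 1 (cplx.symm q)) := congrArg u h1
    rw [h3 _ hq' _ (by rw [← h1]; exact hq') h1, h3 _ hq _ hq rfl]
    beta_reduce
    rw [h4]
    exact h2

/-- The locking theorem. -/
theorem lockingOne (d : ℕ) (hd : 2 ≤ d) :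
    (∃ (R : Set ℝ) (N : Set (Fin (d + 1) → ℝ)), R.Countable ∧ IsMeagre N ∧
      ∀ c ∉ N, c (Fin.last d) ≠ 0 → ∀ A : Set (ℝ × ℝ), RotDomOne c A → ∀ α, RotNumOne c A α → α ∈ R) ∧
    ∀ U : Set (Fin (d + 1) → ℝ), IsOpen U → U.Nonempty →
      (∀ c ∈ U, c (Fin.last d) ≠ 0 ∧ ∃ A : Set (ℝ × ℝ), RotDomOne c A) →
      ∃ (V : Set (Fin (d + 1) → ℝ)) (α : ℝ), IsOpen V ∧ V.Nonempty ∧ V ⊆ U ∧ Irrational α ∧
        V ⊆ closure {c | c ∈ V ∧ ∃ A : Set (ℝ × ℝ), RotDomOne c A ∧ RotNumOne c A α} := by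
  refine ⟨?_, fun U hU hne h => ?_⟩
  · obtain ⟨R, N, hR, hN, h⟩ := baiAll d hd
    refine ⟨R, N, hR, hN, fun c hc hlast A hA α hα => ?_⟩
    obtain ⟨e, he⟩ := hα.hasRot
    have h1 := hA.isARD
    exact h c hc hlast _ h1.opn h1.bdd e h1.inv h1.per α he
  · obtain ⟨V, α, hV, hVne, hVU, hα, hcl⟩ := corAll d hd U hU hne fun c hc => by
      obtain ⟨h1, A, hA⟩ := h c hc
      obtain ⟨e⟩ := hA.ann
      exact ⟨h1, cplx ⁻¹' A, hA.isARD, ⟨(cplx.sets rfl).trans e⟩⟩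
    refine ⟨V, α, hV, hVne, hVU, hα, hcl.trans (closure_mono ?_)⟩
    rintro c ⟨hc, A, e, hA, hrot⟩
    exact ⟨hc, cplx.symm ⁻¹' A, hA.rotDomOne e, hrot.rotNumOne⟩

end Plane

end Pool.Agent.Lib.MP9fa4ca
end
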