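import Pool.Agent.Lib.MP_9fa4ca_an.Ann

/-!
# MP_9fa4ca_an : indices, cuts; the statements of the modules
-/

set_option autoImplicit false

open Set Topology Filter Complex

namespace Pool.Agent.Lib.MP9fa4ca

namespace Ann

variable {A : Set ℂ} (Q : Ann A)

open Classical in
/-- The index of a point `w ∉ A`: the degree of `z - w` on `A`. -/
noncomputable def nu (w : ℂ) : ℤ := if h : ∃ m, Q.Deg (fun z => z - w) m then h.choose else 0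

variable {Q}

theorem nu_deg {w : ℂ} (hw : w ∉ A) : Q.Deg (fun z => z - w) (Q.nu w) := by
  have h : ∃ m, Q.Deg (fun z => z - w) m := Q.exists_deg _ (by fun_prop) fun z hz h => by
    rw [sub_eq_zero.1 h] at hz
    exact hw hz
  unfold nu
  rw [dif_pos h]
  exact h.choose_spec

theorem nu_eq {w : ℂ} {m : ℤ} (h : Q.Deg (fun z => z - w) m) : Q.nu w = m := by
  have hh : ∃ m, Q.Deg (fun z => z - w) m := ⟨m, h⟩
  unfold nu
  rw [dif_pos hh]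
  exact hh.choose_spec.unique h

end Ann

/-- A continuous map onto the line which commutes with `T`, with a connected zero set. -/
structure Cut (θ : ℝ × ℝ → ℝ) : Prop where
  cont : Continuous θ
  eqv : ∀ w, θ (T w) = θ w + 1
  conn : IsPreconnected {w | θ w = 0}

/-- LOC. The index is locally constant off `A`. -/
def SpecLoc : Prop :=
  ∀ (A : Set ℂ) (Q : Ann A) (w : ℂ), w ∉ A →
    ∃ ε : ℝ, 0 < ε ∧ ∀ w', w' ∉ A → ‖w' - w‖ < ε → Q.nu w' = Q.nu w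

/-- FAR. The index is zero far away. -/
def SpecFar : Prop :=
  ∀ (A : Set ℂ) (Q : Ann A), Bornology.IsBounded A →
    ∃ R : ℝ, ∀ w, R ≤ ‖w‖ → w ∉ A ∧ Q.nu w = 0

/-- HNE. There is a hole. -/
def SpecHne : Prop :=
  ∀ (A : Set ℂ) (Q : Ann A), IsOpen A → Bornology.IsBounded A → ∃ w, w ∉ A ∧ Q.nu w ≠ 0

/-- HCN. The index is constant on the hole. -/
def SpecHcn : Prop :=
  ∀ (A : Set ℂ) (Q : Ann A), IsOpen A → Bornology.IsBounded A →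
    ∀ w w' : ℂ, w ∉ A → w' ∉ A → Q.nu w ≠ 0 → Q.nu w' ≠ 0 → Q.nu w = Q.nu w'

/-- CRS. A line which meets the hole contains a crosscut. -/
def SpecCrs : Prop :=
  ∀ (A : Set ℂ) (Q : Ann A), IsOpen A → Bornology.IsBounded A → ∀ c d : ℂ, d ≠ 0 →
    (∃ s : ℝ, c + s * d ∉ A ∧ Q.nu (c + s * d) ≠ 0) →
    ∃ s₀ s₁ : ℝ, s₀ < s₁ ∧ c + s₀ * d ∉ A ∧ Q.nu (c + s₀ * d) ≠ 0 ∧ c + s₁ * d ∉ A ∧
      Q.nu (c + s₁ * d) = 0 ∧ ∀ s : ℝ, s₀ < s → s < s₁ → c + s * d ∈ A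

/-- CUT. A crosscut gives a cut. -/
def SpecCut : Prop :=
  ∀ (A : Set ℂ) (Q : Ann A) (c d : ℂ) (s₀ s₁ : ℝ), d ≠ 0 → s₀ < s₁ →
    c + s₀ * d ∉ A → Q.nu (c + s₀ * d) ≠ 0 → c + s₁ * d ∉ A → Q.nu (c + s₁ * d) = 0 →
    (∀ s : ℝ, s₀ < s → s < s₁ → c + s * d ∈ A) →
    ∃ θ : ℝ × ℝ → ℝ, Cut θ ∧
      ∀ w, (∃ n : ℤ, θ w = n) ↔ ∃ s : ℝ, s₀ < s ∧ s < s₁ ∧ Q.P w = c + s * d

/-- ORD. The order lemma. -/
def SpecOrd : Prop :=
  ∀ (θ : ℝ × ℝ → ℝ), Cut θ → ∀ G : ℝ × ℝ ≃ₜ ℝ × ℝ, (∀ w, G (T w) = T (G w)) →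
    (∀ w, θ w = 0 → θ (G w) ≠ 0) →
    (∀ w, 0 ≤ θ w → 0 < θ (G w)) ∨ (∀ w, θ w ≤ 0 → θ (G w) < 0)

/-- ROT. The semiconjugacy, from ORD. `hd`: a point of the zero set of `θ` is never mapped into the
`T`-orbit of the zero set; `hr`: recurrence. -/
def SpecRot : Prop :=
  ∀ (θ : ℝ × ℝ → ℝ), Cut θ → ∀ F : ℝ × ℝ ≃ₜ ℝ × ℝ, (∀ w, F (T w) = T (F w)) →
    (∀ n : ℕ, 0 < n → ∀ k : ℤ, ∀ w, θ w = 0 → θ (F^[n] w) ≠ k) →
    (∀ q : ℕ, 0 < q → ∀ U : Set (ℝ × ℝ), IsOpen U → U.Nonempty → (∀ w, w ∈ U ↔ T w ∈ U) →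
      ∃ w ∈ U, ∃ᶠ n in atTop, (F^[q])^[n] w ∈ U) →
    ∃ (α : ℝ) (h : ℝ × ℝ → ℝ), Irrational α ∧ Continuous h ∧ (∀ w, h (T w) = h w + 1) ∧
      ∀ w, h (F w) = h w + α

/-- ARE. The case `b = -1`, from ORD. `F` is a lift of an area preserving map which reverses the
direction of the annulus; `hd`: a point of the zero set of `θ` is never mapped by `F ∘ F` into
the `T`-orbit of the zero set; `μ` is the area of the annulus (of the sets which are invariant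
under `T`). -/
def SpecAre : Prop :=
  ∀ (A : Set ℂ) (Q : Ann A), IsOpen A → Bornology.IsBounded A →
    ∀ (θ : ℝ × ℝ → ℝ), Cut θ → ∀ F : ℝ × ℝ ≃ₜ ℝ × ℝ, (∀ w, F (T w) = T.symm (F w)) →
    ∀ f : ℂ ≃ₜ ℂ, (∀ w, Q.P (F w) = f (Q.P w)) →
    (∀ U : Set ℂ, IsOpen U → MeasureTheory.volume (f '' U) = MeasureTheory.volume U) →
    ∃ w, θ w = 0 ∧ ∃ k : ℤ, θ (F (F w)) = k

end Pool.Agent.Lib.MP9fa4ca
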