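import Pool.Agent.Lib.MP_9fa4ca_an.Minus

/-!
# MP_9fa4ca_an : irrational locking, the statements of the modules

Paper proof: `/team-store/MP_9fa4ca_an_LOCK_h40.md`.
-/

set_option autoImplicit false

open Set Topology Filter Complex MeasureTheory

namespace Pool.Agent.Lib.MP9fa4ca

/-- NAT. The natural rotation of `f z - z`. Proof: put `V z = hen p 1 z - z`; then
`V (f z) / (I * V z)` is in the slit plane (`div_slit_of_im`), so
`Im L (F w) = Im L w + π / 2 + arg (V (f z) / (I * V z)) + 2 π j`, `z = P w`, with an integer `j`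
which is constant (`int_const`). If `k π - π / 2 < Im L w < k π + π / 2` then `Re V z = Im V (f z)`
has the sign `(-1) ^ k` and `Im L (F w) - 2 π j` is in `(k π, (k + 1) π)`; if `Im L w = k π + π / 2`
then the ratio is `1` and `Im L (F w) - 2 π j = (k + 1) π`. -/
def SpecNat : Prop :=
  ∀ (A : Set ℂ) (Q : Ann A) (p : ℝ → ℝ), Continuous p → (∀ z, hen p 1 z ∈ A ↔ z ∈ A) →
    (∀ z ∈ A, hen p 1 z ≠ z) → ∀ F : ℝ × ℝ → ℝ × ℝ, Continuous F →
    (∀ w, Q.P (F w) = hen p 1 (Q.P w)) → ∀ L : ℝ × ℝ → ℂ, Continuous L →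
    (∀ w, exp (L w) = hen p 1 (Q.P w) - Q.P w) →
    ∃ j : ℤ, ∀ w, ⌊(L (F w)).im / Real.pi⌋ = ⌊(L w).im / Real.pi + 1 / 2⌋ + 2 * j

/-- REC. Recurrence on the universal cover (proved in `Main.lean`). -/
def SpecRec : Prop :=
  ∀ (A : Set ℂ) (Q : Ann A), IsOpen A → Bornology.IsBounded A → ∀ f : ℂ ≃ₜ ℂ,
    MeasurePreserving f volume volume → (∀ z, f z ∈ A ↔ z ∈ A) → ∀ F : ℝ × ℝ ≃ₜ ℝ × ℝ,
    (∀ w, Q.P (F w) = f (Q.P w)) → ∀ (q : ℕ) (U : Set (ℝ × ℝ)), IsOpen U → U.Nonempty →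
    (∀ w, w ∈ U ↔ T w ∈ U) → ∃ w ∈ U, ∃ᶠ n in atTop, (F^[q])^[n] w ∈ U

/-- DEG. The degree of `f z - z` is not zero; from NAT and REC. Proof: otherwise `L (T w) = L w`;
`k w = ⌊Im L w / π⌋`, `k (F w) - k w - 2 j` is `0` or `1`. `U = {w | k w = k₀, |Im V (P w)| > δ}`
(open, since `Im V ≠ 0` there), `w ∈ U` returns to `U` infinitely often. `j < 0`: `k` decreases
strictly along the orbit; `j > 0`: increases. `j = 0`: `k` is constant on the forward orbit of `w`,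
so `Im V (f^n z) = re (f^n z) - im (f^n z) = re (f^n z) - re (f^(n-1) z)` has a constant weak sign,
`re (f^n z)` is monotone and bounded, hence converges: `Im V (f^n z) → 0`, contradiction. -/
def SpecDeg : Prop :=
  ∀ (A : Set ℂ) (Q : Ann A), IsOpen A → Bornology.IsBounded A → ∀ (p : ℝ → ℝ), Continuous p →
    (∀ z, hen p 1 z ∈ A ↔ z ∈ A) → (∀ z ∈ A, hen p 1 z ≠ z) →
    ∀ F : ℝ × ℝ ≃ₜ ℝ × ℝ, (∀ w, Q.P (F w) = hen p 1 (Q.P w)) →
    ¬ Q.Deg (fun z => hen p 1 z - z) 0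

/-- MET. A line from the hole to the outside meets every level `t`. Proof: if not then
`x ↦ P (x, t) - P (ζ s)` has no zero, it has a degree `m s` (`LDeg`), which is locally constant in
`s`; for `s → -∞`, `s → ∞` it is `nu z₀`, `nu z₁` (`LDeg.of_near`, `Ann.exists_dist` in
`LOC.lean`). -/
def SpecMet : Prop :=
  ∀ (A : Set ℂ) (Q : Ann A) (ζ : ℝ → ℝ × ℝ), Continuous ζ → ∀ z₀ z₁ : ℂ, z₀ ∉ A → z₁ ∉ A →
    Tendsto (fun s => Q.P (ζ s)) atBot (𝓝 z₀) → Tendsto (fun s => Q.P (ζ s)) atTop (𝓝 z₁) →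
    Q.nu z₀ ≠ Q.nu z₁ → ∀ t : ℝ, ∃ s, (ζ s).2 = t

/-- The number of `i < n` such that `u i` and `u (i + 1)` have different signs. -/
noncomputable def sc (u : ℕ → ℝ) (n : ℕ) : ℕ :=
  open Classical in ((Finset.range n).filter fun i => ¬ (0 < u i ↔ 0 < u (i + 1))).card

/-- `u_(n+1) = x_(n+1) - x_n` along the orbit of the diagonal point `(x, x)`. -/
noncomputable def ud (p : ℝ → ℝ) (x : ℝ) (n : ℕ) : ℝ :=
  ((hen p 1)^[n + 1] ⟨x, x⟩).re - ((hen p 1)^[n + 1] ⟨x, x⟩).im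

/-- the polynomial with the coefficients `c` -/
noncomputable def pol {d : ℕ} (c : Fin (d + 1) → ℝ) (x : ℝ) : ℝ := ∑ i, c i * x ^ (i : ℕ)

/-- PLY. `ud (pol c) x n` is not identically zero on an interval. Proof: it is the value at `x` of
a polynomial of degree `d ^ (n + 1)` (`X₋₁ = X₀ = x`, `Xₙ₊₁ = p (Xₙ) - Xₙ₋₁`, `natDegree Xₙ = d ^ n`,
`Polynomial.natDegree_comp`), which has finitely many zeros. -/
def SpecPly : Prop :=
  ∀ (d : ℕ), 2 ≤ d → ∀ c : Fin (d + 1) → ℝ, c (Fin.last d) ≠ 0 → ∀ a b : ℝ, a < b → ∀ n : ℕ,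
    ∃ x ∈ Icc a b, ud (pol c) x n ≠ 0

/-- SGN. The signs are locked; from PLY. Proof: `C⁺ = {c ∈ C | ∃ x ∈ Icc a b, 0 < ud (pol c) x n}`
and `C⁻` are open (relatively), cover `C` by PLY; if both meet `E ∩ C` then, `C` being
preconnected, `C⁺ ∩ C⁻` is nonempty, it contains a point of `E`: a function `ud (pol c) · n` which
changes its sign on `Icc a b` has a zero. -/
def SpecSgn : Prop :=
  ∀ (d : ℕ), 2 ≤ d → ∀ C E : Set (Fin (d + 1) → ℝ), IsOpen C → IsPreconnected C →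
    C ⊆ closure E → (∀ c ∈ C, c (Fin.last d) ≠ 0) → ∀ a b : ℝ, a < b →
    (∀ c ∈ E, ∀ x ∈ Icc a b, ∀ n, ud (pol c) x n ≠ 0) →
    ∀ n, ∀ c ∈ E ∩ C, ∀ c' ∈ E ∩ C, ∀ x ∈ Icc a b, ∀ x' ∈ Icc a b,
      (0 < ud (pol c) x n ↔ 0 < ud (pol c') x' n)

/-- An annular rotation domain `A` of the map `hen p 1`, with the rotation number `α`. -/
def HasRot (p : ℝ → ℝ) (A : Set ℂ) (e : ↥A ≃ₜ (Circle × ↥(Ioo (0 : ℝ) 1))) (α : ℝ) : Prop :=
  ∃ u : ℂ → ℝ, ContinuousOn u A ∧ ∀ z (hz : z ∈ A) (hz' : hen p 1 z ∈ A),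
    (e ⟨hen p 1 z, hz'⟩).1 * Circle.exp (u (hen p 1 z)) =
      Circle.exp (2 * Real.pi * α) * ((e ⟨z, hz⟩).1 * Circle.exp (u z))

/-- FRQ. The frequency of the sign changes determines the rotation number up to countably many
values. -/
def SpecFrq : Prop :=
  ∀ (p : ℝ → ℝ), Continuous p → ∀ A : Set ℂ, IsOpen A → Bornology.IsBounded A →
    ∀ e : ↥A ≃ₜ (Circle × ↥(Ioo (0 : ℝ) 1)), (∀ z, hen p 1 z ∈ A ↔ z ∈ A) →
    (∀ z ∈ A, ∀ n : ℕ, 0 < n → (hen p 1)^[n] z ≠ z) →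
    ∃ a b : ℝ, a < b ∧ (∀ x, a < x → x < b → ∀ n, ud p x n ≠ 0) ∧
      ∀ α, HasRot p A e α → ∃ d j : ℤ, d ≠ 0 ∧ ∀ x, a < x → x < b →
        Tendsto (fun n : ℕ => (sc (ud p x) n : ℝ) / n) atTop (𝓝 (2 * (d * α - j)))

/-- BAI. The conclusion, from SGN and FRQ. Proof: for rational `a < b` let
`E a b = {c | c (Fin.last d) ≠ 0 ∧ ∀ x ∈ Icc a b, ∀ n, ud (pol c) x n ≠ 0}`;
`N = ⋃ E a b \ interior (closure (E a b))` is meagre (`closure E \ interior (closure E)` is closed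
with empty interior). `R`: all `α` such that for some rational `a < b`, some member `C` of a
countable basis with preconnected members (balls with rational centres and radii) with
`C ⊆ closure (E a b)` and `c last ≠ 0` on `C`, some `c ∈ E a b ∩ C` and some integers `d ≠ 0`, `j`:
`sc (ud (pol c) a) n / n → 2 (d α - j)`. `R` is countable: by SGN the limit depends only on
`a, b, C`. -/
def SpecBai : Prop :=
  ∀ d : ℕ, 2 ≤ d → ∃ (R : Set ℝ) (N : Set (Fin (d + 1) → ℝ)), R.Countable ∧ IsMeagre N ∧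
    ∀ c ∉ N, c (Fin.last d) ≠ 0 → ∀ A : Set ℂ, IsOpen A → Bornology.IsBounded A →
      ∀ e : ↥A ≃ₜ (Circle × ↥(Ioo (0 : ℝ) 1)), (∀ z, hen (pol c) 1 z ∈ A ↔ z ∈ A) →
      (∀ z ∈ A, ∀ n : ℕ, 0 < n → (hen (pol c) 1)^[n] z ≠ z) → ∀ α, HasRot (pol c) A e α → α ∈ R

end Pool.Agent.Lib.MP9fa4ca
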